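import Pool.Agent.Lib_helper48.FT.C6
import Pool.Agent.Lib_helper99.FT.W

/-! Frobenius tori: the rational span of the logarithms of Weil numbers. -/

set_option autoImplicit false
set_option linter.unusedSectionVars false

namespace Pool.Agent.FT

open Module Finset

variable {ι : Type*}

/-- φ is additive: φ (x y) = φ x + φ y for nonzero x, y. -/
def IsAdd (φ : AlgebraicClosure ℚ → ℚ) : Prop := ∀ x y, x ≠ 0 → y ≠ 0 → φ (x * y) = φ x + φ y

namespace IsAdd

variable {φ : AlgebraicClosure ℚ → ℚ} (h : IsAdd φ)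

include h

theorem one : φ 1 = 0 := by
  have := h 1 1 one_ne_zero one_ne_zero
  rw [mul_one] at this
  linarith

theorem inv (x : AlgebraicClosure ℚ) (hx : x ≠ 0) : φ x⁻¹ = - φ x := by
  have := h x x⁻¹ hx (inv_ne_zero hx)
  rw [mul_inv_cancel₀ hx, h.one] at this
  linarith

theorem pow (x : AlgebraicClosure ℚ) (hx : x ≠ 0) (n : ℕ) : φ (x ^ n) = n * φ x := by
  induction n with
  | zero => rw [pow_zero, h.one]; simp
  | succ n ih =>
    rw [pow_succ, h _ _ (pow_ne_zero _ hx) hx, ih]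
    push_cast
    ring

theorem zpow (x : AlgebraicClosure ℚ) (hx : x ≠ 0) (n : ℤ) : φ (x ^ n) = n * φ x := by
  cases n with
  | ofNat m =>
    rw [Int.ofNat_eq_natCast, zpow_natCast, h.pow x hx]
    push_cast
    ring
  | negSucc m =>
    rw [zpow_negSucc, h.inv _ (pow_ne_zero _ hx), h.pow x hx]
    push_cast
    ring

theorem prod {ι : Type*} (s : Finset ι) (f : ι → AlgebraicClosure ℚ) (hf : ∀ i, f i ≠ 0) :
    φ (∏ i ∈ s, f i) = ∑ i ∈ s, φ (f i) := by
  classical
  induction s using Finset.induction_on with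
  | empty => rw [prod_empty, sum_empty, h.one]
  | insert a s ha ih =>
    rw [prod_insert ha, sum_insert ha, h _ _ (hf a) (Finset.prod_ne_zero_iff.mpr fun i _ => hf i), ih]

theorem comp (γ : AlgebraicClosure ℚ ≃+* AlgebraicClosure ℚ) : IsAdd (fun x => φ (γ x)) := by
  intro x y hx hy
  show φ (γ (x * y)) = _
  rw [map_mul, h _ _ ((map_ne_zero γ).mpr hx) ((map_ne_zero γ).mpr hy)]

theorem neg : IsAdd (fun x => - φ x) := by
  intro x y hx hy
  show - φ (x * y) = _
  rw [h x y hx hy]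
  ring

end IsAdd

theorem IsVal.isAdd {p : ℕ} {w : AlgebraicClosure ℚ → ℚ} (h : IsVal p w) : IsAdd w := h.mul

/-- The functions i ↦ φ (z i) + c. -/
def Phi (z : ι → AlgebraicClosure ℚ) : Submodule ℚ (ι → ℚ) where
  carrier := {f | ∃ (φ : AlgebraicClosure ℚ → ℚ) (c : ℚ), IsAdd φ ∧ f = fun i => φ (z i) + c}
  zero_mem' := ⟨fun _ => 0, 0, fun x y _ _ => by simp, by funext i; simp⟩
  add_mem' := by
    rintro _ _ ⟨φ, c, h, rfl⟩ ⟨φ', c', h', rfl⟩
    refine ⟨fun x => φ x + φ' x, c + c', fun x y hx hy => ?_, ?_⟩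
    · show φ (x * y) + φ' (x * y) = _
      rw [h x y hx hy, h' x y hx hy]
      ring
    · funext i
      show φ (z i) + c + (φ' (z i) + c') = _
      ring
  smul_mem' := by
    rintro r _ ⟨φ, c, h, rfl⟩
    refine ⟨fun x => r * φ x, r * c, fun x y hx hy => ?_, ?_⟩
    · show r * φ (x * y) = _
      rw [h x y hx hy]
      ring
    · funext i
      show r * (φ (z i) + c) = _
      ring

theorem mem_Phi {z : ι → AlgebraicClosure ℚ} {f : ι → ℚ} : f ∈ Phi z ↔
    ∃ (φ : AlgebraicClosure ℚ → ℚ) (c : ℚ), IsAdd φ ∧ f = fun i => φ (z i) + c := Iff.rfl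

theorem Phi_one (z : ι → AlgebraicClosure ℚ) : (fun _ => (1 : ℚ)) ∈ Phi z :=
  ⟨fun _ => 0, 1, fun x y _ _ => by simp, by funext i; simp⟩

theorem Phi_add (z : ι → AlgebraicClosure ℚ) {φ : AlgebraicClosure ℚ → ℚ} (h : IsAdd φ) :
    (fun i => φ (z i)) ∈ Phi z := ⟨φ, 0, h, by funext i; simp⟩

variable [Fintype ι] [DecidableEq ι]

/-- Phi separates points. -/
theorem Phi_sep {p : ℕ} [Fact p.Prime] {z : ι → AlgebraicClosure ℚ} (hz : ∀ i, IsWeil p (z i))
    {w : AlgebraicClosure ℚ → ℚ} (hw : IsVal p w)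
    (sep : ∀ i j, i ≠ j → ∀ N : ℕ, 0 < N → z i ^ N ≠ z j ^ N) : Sep (Phi z) := by
  intro i j hij
  by_contra hne
  obtain ⟨N, hN, h1⟩ := weil_core p z hz w hw (fun k => if k = i then 1 else if k = j then -1 else 0)
    (by
      have h2 : ∀ k : ι, (if k = i then (1 : ℤ) else if k = j then -1 else 0) =
          (if k = i then 1 else 0) - (if k = j then 1 else 0) := by
        intro k
        by_cases h3 : k = i
        · subst h3
          rw [if_pos rfl, if_pos rfl, if_neg hne]; ring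
        · rw [if_neg h3, if_neg h3]
          split_ifs <;> ring
      simp only [h2, Finset.sum_sub_distrib, Finset.sum_ite_eq', Finset.mem_univ, if_true]
      ring)
    (by
      intro γ
      have h2 : ∀ k : ι, ((if k = i then (1 : ℤ) else if k = j then -1 else 0 : ℤ) : ℚ) *
          w (γ (z k)) = (if k = i then w (γ (z k)) else 0) - (if k = j then w (γ (z k)) else 0) := by
        intro k
        by_cases h3 : k = i
        · subst h3
          rw [if_pos rfl, if_pos rfl, if_neg hne]; push_cast; ring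
        · rw [if_neg h3, if_neg h3]
          split_ifs <;> push_cast <;> ring
      simp only [h2, Finset.sum_sub_distrib, Finset.sum_ite_eq', Finset.mem_univ, if_true]
      have h3 : w (γ (z i)) = w (γ (z j)) := hij _ (Phi_add z (hw.isAdd.comp γ))
      rw [h3, sub_self])
  have hz0 : ∀ i, z i ≠ 0 := fun i => (hz i).ne_zero
  have h2 : (∏ k, z k ^ (if k = i then (1 : ℤ) else if k = j then -1 else 0)) = z i * (z j)⁻¹ := by
    have h3 : ∀ k : ι, z k ^ (if k = i then (1 : ℤ) else if k = j then -1 else 0) =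
        (if k = i then z k else 1) * (if k = j then (z k)⁻¹ else 1) := by
      intro k
      by_cases h4 : k = i
      · subst h4
        rw [if_pos rfl, if_pos rfl, if_neg hne, zpow_one, mul_one]
      · rw [if_neg h4, if_neg h4, one_mul]
        split_ifs
        · rw [zpow_neg_one]
        · rw [zpow_zero]
    simp only [h3, Finset.prod_mul_distrib, Finset.prod_ite_eq', Finset.mem_univ, if_true]
  rw [h2, mul_pow, inv_pow] at h1
  apply sep i j hne N hN
  have h3 : z j ^ N ≠ 0 := pow_ne_zero _ (hz0 j)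
  field_simp at h1
  exact h1

/-- The permutations induced by automorphisms. -/
def Sym (p : ℕ) (z : ι → AlgebraicClosure ℚ) : Set (Equiv.Perm ι) :=
  {σ | ∃ γ : AlgebraicClosure ℚ ≃+* AlgebraicClosure ℚ,
    (∀ i, γ (z i) = z (σ i)) ∨ (∀ i, γ (z i) * z (σ i) = p)}

theorem Phi_sym {p : ℕ} [Fact p.Prime] {z : ι → AlgebraicClosure ℚ} (hz : ∀ i, IsWeil p (z i))
    {σ : Equiv.Perm ι} (hσ : σ ∈ Sym p z) (f : ι → ℚ) : f ∈ Phi z ↔ f ∘ σ ∈ Phi z := by
  have hz0 : ∀ i, z i ≠ 0 := fun i => (hz i).ne_zero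
  obtain ⟨γ, hγ⟩ := hσ
  have hγ0 : ∀ i, γ (z i) ≠ 0 := fun i => (map_ne_zero γ).mpr (hz0 i)
  have hγ0' : ∀ i, γ.symm (z i) ≠ 0 := fun i => (map_ne_zero γ.symm).mpr (hz0 i)
  constructor
  · rintro ⟨φ, c, h, rfl⟩
    rcases hγ with hγ | hγ
    · refine ⟨fun x => φ (γ x), c, h.comp γ, ?_⟩
      funext i
      show φ (z (σ i)) + c = φ (γ (z i)) + c
      rw [hγ]
    · refine ⟨fun x => - φ (γ x), c + φ p, (h.comp γ).neg, ?_⟩
      funext i
      show φ (z (σ i)) + c = - φ (γ (z i)) + (c + φ p)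
      rw [← hγ i, h _ _ (hγ0 i) (hz0 _)]
      ring
  · rintro ⟨φ, c, h, hf⟩
    have hf' : ∀ i, f i = φ (z (σ.symm i)) + c := by
      intro i
      have := congrFun hf (σ.symm i)
      rw [Function.comp_apply, Equiv.apply_symm_apply] at this
      exact this
    rcases hγ with hγ | hγ
    · refine ⟨fun x => φ (γ.symm x), c, h.comp γ.symm, ?_⟩
      funext i
      rw [hf' i]
      have h1 := hγ (σ.symm i)
      rw [Equiv.apply_symm_apply] at h1
      show _ = φ (γ.symm (z i)) + c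
      rw [← h1, RingEquiv.symm_apply_apply]
    · refine ⟨fun x => - φ (γ.symm x), c + φ p, (h.comp γ.symm).neg, ?_⟩
      funext i
      rw [hf' i]
      have h1 := hγ (σ.symm i)
      rw [Equiv.apply_symm_apply] at h1
      have h2 := congrArg γ.symm h1
      rw [map_mul, RingEquiv.symm_apply_apply, map_natCast] at h2
      show _ = - φ (γ.symm (z i)) + (c + φ p)
      rw [← h2, h _ _ (hz0 _) (hγ0' _)]
      ring

/-- Phi is generated by 1 and the conjugates of the slopes. -/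
theorem Phi_gen {p : ℕ} [Fact p.Prime] {z : ι → AlgebraicClosure ℚ} (hz : ∀ i, IsWeil p (z i))
    {w : AlgebraicClosure ℚ → ℚ} (hw : IsVal p w)
    (tri : ∀ γ : AlgebraicClosure ℚ ≃+* AlgebraicClosure ℚ,
      (∃ σ : Equiv.Perm ι, ∀ i, γ (z i) = z (σ i)) ∨
      (∃ σ : Equiv.Perm ι, ∀ i, γ (z i) * z (σ i) = p) ∨
      ∀ i j, w (γ (z i)) = w (γ (z j))) :
    Phi z ≤ Submodule.span ℚ ({(fun _ => (1 : ℚ))} ∪
      {f | ∃ σ ∈ Sym p z, f = (fun i => w (z i)) ∘ σ}) := by
  have hz0 : ∀ i, z i ≠ 0 := fun i => (hz i).ne_zero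
  intro f hf
  by_contra hne
  obtain ⟨ℓ, hℓ, hℓΦ⟩ := Submodule.exists_dual_map_eq_bot_of_notMem hne inferInstance
  obtain ⟨a, ha0⟩ : ∃ a : ι → ℚ, ∀ i, a i = ℓ (Pi.single i 1) := ⟨_, fun _ => rfl⟩
  have ha : ∀ f : ι → ℚ, ℓ f = ∑ i, f i * a i := by
    intro f
    conv_lhs => rw [← Finset.univ_sum_single f]
    rw [map_sum]
    apply sum_congr rfl
    intro i _
    have : (Pi.single i (f i) : ι → ℚ) = f i • Pi.single i 1 := by
      rw [← Pi.single_smul, smul_eq_mul, mul_one]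
    rw [this, map_smul, smul_eq_mul, ha0]
  have hΨ : ∀ f ∈ Submodule.span ℚ ({(fun _ => (1 : ℚ))} ∪
      {f | ∃ σ ∈ Sym p z, f = (fun i => w (z i)) ∘ σ}), ∑ i, f i * a i = 0 := by
    intro f hf
    rw [← ha]
    have : ℓ f ∈ Submodule.map ℓ (Submodule.span ℚ ({(fun _ => (1 : ℚ))} ∪
      {f | ∃ σ ∈ Sym p z, f = (fun i => w (z i)) ∘ σ})) := Submodule.mem_map_of_mem hf
    rw [hℓΦ] at this
    exact this
  -- integral multiples
  obtain ⟨D, hD0, n, hn⟩ : ∃ D : ℤ, D ≠ 0 ∧ ∃ n : ι → ℤ, ∀ i, (n i : ℚ) = D * a i := by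
    obtain ⟨D, hD⟩ := IsLocalization.exist_integer_multiples_of_finset (nonZeroDivisors ℤ)
      (univ.image a)
    refine ⟨(D : ℤ), nonZeroDivisors.coe_ne_zero D, ?_⟩
    have h1 : ∀ i, ∃ n : ℤ, (n : ℚ) = (D : ℤ) * a i := by
      intro i
      obtain ⟨n, hn⟩ := hD (a i) (Finset.mem_image_of_mem _ (Finset.mem_univ i))
      refine ⟨n, ?_⟩
      have h2 : (algebraMap ℤ ℚ) n = (D : ℤ) • a i := hn
      rw [zsmul_eq_mul] at h2
      exact h2
    choose n hn using h1
    exact ⟨n, hn⟩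
  have hsum : ∀ f ∈ Submodule.span ℚ ({(fun _ => (1 : ℚ))} ∪
      {f | ∃ σ ∈ Sym p z, f = (fun i => w (z i)) ∘ σ}), ∑ i, (n i : ℚ) * f i = 0 := by
    intro f hf
    have h1 := hΨ f hf
    calc ∑ i, (n i : ℚ) * f i = (D : ℚ) * ∑ i, f i * a i := by
          rw [Finset.mul_sum]
          refine Finset.sum_congr rfl fun i _ => ?_
          rw [hn i]
          ring
      _ = 0 := by rw [h1, mul_zero]
  have hn0 : ∑ i, n i = 0 := by
    have h1 := hsum _ (Submodule.subset_span (Or.inl rfl))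
    simp only [mul_one] at h1
    exact_mod_cast h1
  obtain ⟨N, hN, h1⟩ := weil_core p z hz w hw n hn0 (by
    intro γ
    rcases tri γ with ⟨σ, hσ⟩ | ⟨σ, hσ⟩ | hc
    · have h2 := hsum _ (Submodule.subset_span (Or.inr ⟨σ, ⟨γ, Or.inl hσ⟩, rfl⟩))
      simp only [Function.comp_apply] at h2
      rw [← h2]
      exact Finset.sum_congr rfl fun i _ => by rw [hσ]
    · have h2 := hsum _ (Submodule.subset_span (Or.inr ⟨σ, ⟨γ, Or.inr hσ⟩, rfl⟩))
      simp only [Function.comp_apply] at h2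
      have h3 : ∀ i, w (γ (z i)) = w p - w (z (σ i)) := by
        intro i
        have h4 := hw.mul (γ (z i)) (z (σ i)) ((map_ne_zero γ).mpr (hz0 i)) (hz0 _)
        rw [hσ i] at h4
        linarith
      have h5 : ∑ i, (n i : ℚ) * w (γ (z i)) = w p * ∑ i, (n i : ℚ) -
          ∑ i, (n i : ℚ) * w (z (σ i)) := by
        rw [Finset.mul_sum, ← Finset.sum_sub_distrib]
        exact Finset.sum_congr rfl fun i _ => by rw [h3 i]; ring
      rw [h5, h2]
      have h6 : ∑ i, (n i : ℚ) = 0 := by exact_mod_cast hn0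
      rw [h6]
      ring
    · rcases isEmpty_or_nonempty ι with he | ⟨⟨i₀⟩⟩
      · simp
      · have h5 : ∑ i, (n i : ℚ) * w (γ (z i)) = w (γ (z i₀)) * ∑ i, (n i : ℚ) := by
          rw [Finset.mul_sum]
          exact Finset.sum_congr rfl fun i _ => by rw [hc i i₀]; ring
        have h6 : ∑ i, (n i : ℚ) = 0 := by exact_mod_cast hn0
        rw [h5, h6, mul_zero])
  -- conclusion
  obtain ⟨φ, c, hφ, rfl⟩ := hf
  have h2 : φ ((∏ i, z i ^ n i) ^ N) = 0 := by rw [h1, hφ.one]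
  have hp0 : (∏ i, z i ^ n i) ≠ 0 := Finset.prod_ne_zero_iff.mpr fun i _ => zpow_ne_zero _ (hz0 i)
  rw [hφ.pow _ hp0, hφ.prod _ _ (fun i => zpow_ne_zero _ (hz0 i))] at h2
  have h3 : ∑ i, φ (z i ^ n i) = 0 := by
    have hN' : (N : ℚ) ≠ 0 := by exact_mod_cast hN.ne'
    exact (mul_eq_zero.mp h2).resolve_left hN'
  have h4 : ∑ i, (n i : ℚ) * φ (z i) = 0 := by
    rw [← h3]
    exact Finset.sum_congr rfl fun i _ => by rw [hφ.zpow _ (hz0 i)]
  apply hℓ
  rw [ha]
  have hDq : (D : ℚ) ≠ 0 := by exact_mod_cast hD0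
  refine (mul_eq_zero.mp (?_ : (D : ℚ) * _ = 0)).resolve_left hDq
  calc (D : ℚ) * ∑ i, (φ (z i) + c) * a i = ∑ i, (n i : ℚ) * (φ (z i) + c) := by
        rw [Finset.mul_sum]
        exact Finset.sum_congr rfl fun i _ => by rw [hn i]; ring
    _ = ∑ i, (n i : ℚ) * φ (z i) + c * ∑ i, (n i : ℚ) := by
        rw [Finset.mul_sum, ← Finset.sum_add_distrib]
        exact Finset.sum_congr rfl fun i _ => by ring
    _ = 0 := by
        have h6 : ∑ i, (n i : ℚ) = 0 := by exact_mod_cast hn0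
        rw [h4, h6]
        ring

end Pool.Agent.FT
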