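import Pool.Agent.Lib_helper48.FT.L2
import Pool.Agent.Lib_helper99.FT.T12

/-! Frobenius tori: the ideal generated by a minuscule element. -/

set_option autoImplicit false
set_option linter.unusedSectionVars false

namespace Pool.Agent.FTN

open Module Finset Pool.Agent.FT

section mat

variable {K : Type*} [Field K] [CharZero K] {ι : Type*} [Fintype ι] [DecidableEq ι]

/-- The bracket with a diagonal matrix. -/
def dbr (F : ι → K) (x : Matrix ι ι K) : Matrix ι ι K :=
  Matrix.diagonal F * x - x * Matrix.diagonal F

theorem dbr_apply (F : ι → K) (x : Matrix ι ι K) (i j : ι) :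
    dbr F x i j = (F i - F j) * x i j := br_diag F x i j

theorem dbr_comm (F : ι → K) (x y : Matrix ι ι K) :
    dbr F (x * y - y * x) = (dbr F x * y - y * dbr F x) + (x * dbr F y - dbr F y * x) := by
  unfold dbr
  noncomm_ring

theorem dbr_sub (F : ι → K) (x y : Matrix ι ι K) : dbr F (x - y) = dbr F x - dbr F y := by
  unfold dbr
  noncomm_ring

open Classical in
/-- Block L2 (matrices). -/
theorem newton_mat (Φ : Submodule ℚ (ι → ℚ)) (one : (fun _ => (1 : ℚ)) ∈ Φ) (sep : Sep Φ)
    (L : Submodule K (Matrix ι ι K)) (br : ∀ x ∈ L, ∀ y ∈ L, x * y - y * x ∈ L)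
    (mem : ∀ f ∈ Φ, Matrix.diagonal (fun i => (f i : K)) ∈ L)
    (max : ∀ F : ι → K, Matrix.diagonal F ∈ L →
      F ∈ Submodule.span K {F' : ι → K | ∃ f ∈ Φ, F' = fun i => (f i : K)})
    (h : ι → ℚ) (hh : h ∈ Φ) (two : ∀ i, h i = 1/2 ∨ h i = -(1/2))
    (w : ι → ℚ)
    (hw : ∀ I : Submodule K (Matrix ι ι K), Matrix.diagonal (fun i => (h i : K)) ∈ I →
      (1 : Matrix ι ι K) ∈ I → (∀ x ∈ L, ∀ y ∈ I, x * y - y * x ∈ I) →
      Matrix.diagonal (fun i => (w i : K)) ∈ I) :
    w ∈ Submodule.span ℚ ({(fun _ => (1 : ℚ)), h} ∪ {c | IsChi Φ h c}) := by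
  obtain ⟨f₀, hf, gen⟩ := exists_generic4 Φ
  obtain ⟨H, hH⟩ : ∃ H : ι → K, H = fun i => (h i : K) := ⟨_, rfl⟩
  have hHL : Matrix.diagonal H ∈ L := by rw [hH]; exact mem h hh
  have hd : ∀ i j, H i - H j = 0 ∨ H i - H j = 1 ∨ H i - H j = -1 := by
    intro i j
    rw [hH]
    rcases two i with h1 | h1 <;> rcases two j with h2 | h2 <;> simp only [h1, h2]
    · left; ring
    · right; left; push_cast; ring
    · right; right; push_cast; ring
    · left; ring
  have hDL : ∀ x ∈ L, dbr H x ∈ L := fun x hx => br _ hHL _ hx
  obtain ⟨G, hG⟩ : ∃ G : Set (Matrix ι ι K), G = ({(1 : Matrix ι ι K), Matrix.diagonal H} ∪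
      {x | x ∈ L ∧ dbr H x = x}) ∪ {x | x ∈ L ∧ dbr H x = -x} ∪
      {m | ∃ y z, y ∈ L ∧ z ∈ L ∧ dbr H y = y ∧ dbr H z = -z ∧ m = y * z - z * y} := ⟨_, rfl⟩
  -- decomposition
  have hdec : ∀ x ∈ L, ∃ x0 xp xm, x = x0 + xp + xm ∧ x0 ∈ L ∧ xp ∈ L ∧ xm ∈ L ∧ dbr H x0 = 0 ∧
      dbr H xp = xp ∧ dbr H xm = -xm := by
    intro x hx
    refine ⟨x - dbr H (dbr H x), (2 : K)⁻¹ • (dbr H (dbr H x) + dbr H x),
      (2 : K)⁻¹ • (dbr H (dbr H x) - dbr H x), ?_, ?_, ?_, ?_, ?_, ?_, ?_⟩
    · ext i j
      simp only [Matrix.add_apply, Matrix.sub_apply, Matrix.smul_apply, dbr_apply, smul_eq_mul]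
      field_simp
      ring
    · exact L.sub_mem hx (hDL _ (hDL _ hx))
    · exact L.smul_mem _ (L.add_mem (hDL _ (hDL _ hx)) (hDL _ hx))
    · exact L.smul_mem _ (L.sub_mem (hDL _ (hDL _ hx)) (hDL _ hx))
    · ext i j
      simp only [dbr_apply, Matrix.sub_apply, Matrix.zero_apply]
      rcases hd i j with h1 | h1 | h1 <;> rw [h1] <;> ring
    · ext i j
      simp only [dbr_apply, Matrix.add_apply, Matrix.smul_apply, smul_eq_mul]
      rcases hd i j with h1 | h1 | h1 <;> rw [h1] <;> ring
    · ext i j
      simp only [dbr_apply, Matrix.sub_apply, Matrix.smul_apply, Matrix.neg_apply, smul_eq_mul]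
      rcases hd i j with h1 | h1 | h1 <;> rw [h1] <;> ring
  have h2z : ∀ m : Matrix ι ι K, dbr H m = m + m → m = 0 := by
    intro m hm
    ext i j
    have h1 := congrFun (congrFun hm i) j
    rw [dbr_apply, Matrix.add_apply] at h1
    rw [Matrix.zero_apply]
    rcases hd i j with h2 | h2 | h2 <;> rw [h2] at h1
    · have : (2 : K) * m i j = 0 := by linear_combination -h1
      exact (mul_eq_zero.mp this).resolve_left two_ne_zero
    · linear_combination -h1
    · have : (3 : K) * m i j = 0 := by linear_combination -h1
      exact (mul_eq_zero.mp this).resolve_left three_ne_zero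
  have h2n : ∀ m : Matrix ι ι K, dbr H m = -(m + m) → m = 0 := by
    intro m hm
    ext i j
    have h1 := congrFun (congrFun hm i) j
    rw [dbr_apply, Matrix.neg_apply, Matrix.add_apply] at h1
    rw [Matrix.zero_apply]
    rcases hd i j with h2 | h2 | h2 <;> rw [h2] at h1
    · have : (2 : K) * m i j = 0 := by linear_combination h1
      exact (mul_eq_zero.mp this).resolve_left two_ne_zero
    · have : (3 : K) * m i j = 0 := by linear_combination h1
      exact (mul_eq_zero.mp this).resolve_left three_ne_zero
    · linear_combination h1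
  -- G generators
  have g1 : (1 : Matrix ι ι K) ∈ Submodule.span K G :=
    Submodule.subset_span (by rw [hG]; left; left; left; left; rfl)
  have gH : Matrix.diagonal H ∈ Submodule.span K G :=
    Submodule.subset_span (by rw [hG]; left; left; left; right; rfl)
  have gp : ∀ x ∈ L, dbr H x = x → x ∈ Submodule.span K G := fun x hx hx2 =>
    Submodule.subset_span (by rw [hG]; left; left; right; exact ⟨hx, hx2⟩)
  have gm : ∀ x ∈ L, dbr H x = -x → x ∈ Submodule.span K G := fun x hx hx2 =>
    Submodule.subset_span (by rw [hG]; left; right; exact ⟨hx, hx2⟩)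
  have gb : ∀ y ∈ L, ∀ z ∈ L, dbr H y = y → dbr H z = -z → y * z - z * y ∈ Submodule.span K G :=
    fun y hy z hz h1 h2 => Submodule.subset_span (by rw [hG]; right; exact ⟨y, z, hy, hz, h1, h2, rfl⟩)
  -- ideal
  have hideal : ∀ x ∈ L, ∀ y ∈ Submodule.span K G, x * y - y * x ∈ Submodule.span K G := by
    intro x hx y hy
    obtain ⟨x0, xp, xm, hxd, hx0, hxp, hxm, e0, ep, em⟩ := hdec x hx
    induction hy using Submodule.span_induction with
    | zero => simp
    | add a b _ _ ha hb =>
      have : x * (a + b) - (a + b) * x = (x * a - a * x) + (x * b - b * x) := by noncomm_ring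
      rw [this]
      exact Submodule.add_mem _ ha hb
    | smul c a _ ha =>
      have : x * (c • a) - (c • a) * x = c • (x * a - a * x) := by
        rw [mul_smul_comm, smul_mul_assoc, smul_sub]
      rw [this]
      exact Submodule.smul_mem _ _ ha
    | mem g hg =>
      rw [hG] at hg
      rcases hg with (((hg | hg) | hg) | hg) | ⟨y, z, hy, hz, ey, ez, rfl⟩
      · rw [hg]
        simp
      · rw [Set.mem_singleton_iff] at hg
        subst hg
        have h1 : x * Matrix.diagonal H - Matrix.diagonal H * x = -dbr H x := by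
          unfold dbr; abel
        have h2 : dbr H x = xp - xm := by
          rw [hxd]
          have : dbr H (x0 + xp + xm) = dbr H x0 + dbr H xp + dbr H xm := by
            unfold dbr; noncomm_ring
          rw [this, e0, ep, em]
          abel
        rw [h1, h2]
        exact Submodule.neg_mem _ (Submodule.sub_mem _ (gp _ hxp ep) (gm _ hxm em))
      · obtain ⟨hgL, eg⟩ := hg
        have h0 : x0 * g - g * x0 ∈ Submodule.span K G := by
          apply gp _ (br _ hx0 _ hgL)
          rw [dbr_comm, e0, eg]
          simp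
        have hp : xp * g - g * xp = 0 := by
          apply h2z
          rw [dbr_comm, ep, eg]
        have hm : xm * g - g * xm ∈ Submodule.span K G := by
          have := gb g hgL xm hxm eg em
          have h3 : xm * g - g * xm = -(g * xm - xm * g) := by abel
          rw [h3]
          exact Submodule.neg_mem _ this
        have h4 : x * g - g * x = (x0 * g - g * x0) + (xp * g - g * xp) + (xm * g - g * xm) := by
          rw [hxd]; noncomm_ring
        rw [h4, hp, add_zero]
        exact Submodule.add_mem _ h0 hm
      · obtain ⟨hgL, eg⟩ := hg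
        have h0 : x0 * g - g * x0 ∈ Submodule.span K G := by
          apply gm _ (br _ hx0 _ hgL)
          rw [dbr_comm, e0, eg]
          noncomm_ring
        have hp : xp * g - g * xp ∈ Submodule.span K G := gb xp hxp g hgL ep eg
        have hm : xm * g - g * xm = 0 := by
          apply h2n
          rw [dbr_comm, em, eg]
          noncomm_ring
        have h4 : x * g - g * x = (x0 * g - g * x0) + (xp * g - g * xp) + (xm * g - g * xm) := by
          rw [hxd]; noncomm_ring
        rw [h4, hm, add_zero]
        exact Submodule.add_mem _ h0 hp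
      · obtain ⟨m, hm⟩ : ∃ m, m = y * z - z * y := ⟨_, rfl⟩
        have hmL : m ∈ L := by rw [hm]; exact br _ hy _ hz
        have em0 : dbr H m = 0 := by
          rw [hm, dbr_comm, ey, ez]
          noncomm_ring
        have h0 : x0 * m - m * x0 ∈ Submodule.span K G := by
          have h3 : x0 * m - m * x0 = ((x0 * y - y * x0) * z - z * (x0 * y - y * x0)) +
              (y * (x0 * z - z * x0) - (x0 * z - z * x0) * y) := by
            rw [hm]; noncomm_ring
          rw [h3]
          refine Submodule.add_mem _ (gb _ (br _ hx0 _ hy) _ hz ?_ ez)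
            (gb _ hy _ (br _ hx0 _ hz) ey ?_)
          · rw [dbr_comm, e0, ey]; simp
          · rw [dbr_comm, e0, ez]; noncomm_ring
        have hp : xp * m - m * xp ∈ Submodule.span K G := by
          apply gp _ (br _ hxp _ hmL)
          rw [dbr_comm, ep, em0]; simp
        have hm' : xm * m - m * xm ∈ Submodule.span K G := by
          apply gm _ (br _ hxm _ hmL)
          rw [dbr_comm, em, em0]; noncomm_ring
        have h4 : x * m - m * x = (x0 * m - m * x0) + (xp * m - m * xp) + (xm * m - m * xm) := by
          rw [hxd]; noncomm_ring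
        rw [← hm, h4]
        exact Submodule.add_mem _ (Submodule.add_mem _ h0 hp) hm'
  -- the diagonal part
  obtain ⟨T, hT⟩ : ∃ T : Submodule K (ι → K), T = Submodule.span K {F' : ι → K | ∃ f ∈
      Submodule.span ℚ ({(fun _ => (1 : ℚ)), h} ∪ {c | IsChi Φ h c}), F' = fun i => (f i : K)} :=
    ⟨_, rfl⟩
  have hdiag : ∀ x ∈ Submodule.span K G, (fun i => x i i) ∈ T := by
    intro x hx
    induction hx using Submodule.span_induction with
    | zero => exact T.zero_mem
    | add a b _ _ ha hb => exact T.add_mem ha hb
    | smul c a _ ha => exact T.smul_mem c ha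
    | mem g hg =>
      rw [hG] at hg
      rcases hg with (((hg | hg) | hg) | hg) | ⟨y, z, hy, hz, ey, ez, rfl⟩
      · rw [hg, hT]
        apply Submodule.subset_span
        refine ⟨fun _ => 1, Submodule.subset_span (by left; left; rfl), ?_⟩
        ext i
        simp
      · rw [Set.mem_singleton_iff] at hg
        rw [hg, hT]
        apply Submodule.subset_span
        refine ⟨h, Submodule.subset_span (by left; right; rfl), ?_⟩
        ext i
        rw [Matrix.diagonal_apply_eq, hH]
      · have : (fun i => g i i) = 0 := by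
          funext i
          have h1 := congrFun (congrFun hg.2 i) i
          rw [dbr_apply, sub_self, zero_mul] at h1
          exact h1.symm
        rw [this]
        exact T.zero_mem
      · have : (fun i => g i i) = 0 := by
          funext i
          have h1 := congrFun (congrFun hg.2 i) i
          rw [dbr_apply, sub_self, zero_mul, Matrix.neg_apply] at h1
          exact neg_eq_zero.mp h1.symm
        rw [this]
        exact T.zero_mem
      · obtain ⟨S, hS⟩ : ∃ S : Finset ℚ, S = univ.image fun p : ι × ι => f₀ p.1 - f₀ p.2 :=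
          ⟨_, rfl⟩
        have hsy : ∀ i j, y i j ≠ 0 → h i - h j = 1 := by
          intro i j hne
          have h1 := congrFun (congrFun ey i) j
          rw [dbr_apply] at h1
          have h2 : H i - H j = 1 := by
            have h3 : (H i - H j - 1) * y i j = 0 := by linear_combination h1
            have := (mul_eq_zero.mp h3).resolve_right hne
            linear_combination this
          rw [hH] at h2
          have h3 : ((h i - h j : ℚ) : K) = ((1 : ℚ) : K) := by push_cast; exact h2
          exact_mod_cast h3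
        have key : (fun i => (y * z - z * y) i i) = ∑ t ∈ S, fun i =>
            ((Matrix.of fun i j => if f₀ i - f₀ j = t then y i j else 0) *
              (Matrix.of fun i j => if f₀ i - f₀ j = -t then z i j else 0) -
              (Matrix.of fun i j => if f₀ i - f₀ j = -t then z i j else 0) *
              (Matrix.of fun i j => if f₀ i - f₀ j = t then y i j else 0)) i i := by
          funext i
          rw [Finset.sum_apply, Matrix.sub_apply, Matrix.mul_apply, Matrix.mul_apply]
          simp only [Matrix.sub_apply, Matrix.mul_apply, Matrix.of_apply]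
          rw [Finset.sum_sub_distrib, Finset.sum_comm, Finset.sum_comm (s := S)]
          congr 1
          · refine Finset.sum_congr rfl fun j _ => ?_
            rw [Finset.sum_eq_single (f₀ i - f₀ j)]
            · rw [if_pos rfl, if_pos (by ring)]
            · intro t _ hne
              rw [if_neg (Ne.symm hne), zero_mul]
            · intro hn
              exfalso
              apply hn
              rw [hS]
              exact Finset.mem_image.mpr ⟨(i, j), Finset.mem_univ _, rfl⟩
          · refine Finset.sum_congr rfl fun j _ => ?_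
            rw [Finset.sum_eq_single (f₀ j - f₀ i)]
            · rw [if_pos (by ring), if_pos rfl]
            · intro t _ hne
              rw [if_neg (Ne.symm hne), mul_zero]
            · intro hn
              exfalso
              apply hn
              rw [hS]
              exact Finset.mem_image.mpr ⟨(j, i), Finset.mem_univ _, rfl⟩
        rw [key]
        refine Submodule.sum_mem _ fun t _ => ?_
        have h1 := diag_weight Φ sep L br max h hh two hf gen t
          (weight_mem L br mem hf hy t) (weight_mem L br mem hf hz (-t)) ?_ ?_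
        · rw [hT]
          refine Submodule.span_mono ?_ h1
          rintro F' ⟨c, hc, rfl⟩
          exact ⟨c, Submodule.subset_span (Or.inr hc), rfl⟩
        · intro i j hne
          rw [Matrix.of_apply] at hne
          split_ifs at hne with h2
          · exact ⟨h2, hsy i j hne⟩
          · exact absurd rfl hne
        · intro i j hne
          rw [Matrix.of_apply] at hne
          split_ifs at hne with h2
          · exact h2
          · exact absurd rfl hne
  have hfin := hdiag _ (hw (Submodule.span K G) (by rw [← hH]; exact gH) g1 hideal)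
  rw [hT] at hfin
  apply descent (K := K)
  convert hfin using 2
  rw [Matrix.diagonal_apply_eq]

end mat

section lie

variable {K : Type*} [Field K] [CharZero K] {ι : Type*} [Fintype ι] [DecidableEq ι]
  {g : Type*} [LieRing g] [LieAlgebra K g]
  {U : Type*} [AddCommGroup U] [Module K U] [LieRingModule g U] [LieModule K g U]

/-- The matrices of the image plus the scalars. -/
noncomputable def matL (K : Type*) [Field K] (g : Type*) [LieRing g] [LieAlgebra K g]
    {U : Type*} [AddCommGroup U] [Module K U] [LieRingModule g U] [LieModule K g U]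
    {ι : Type*} [Fintype ι] [DecidableEq ι] (b : Basis ι K U) : Submodule K (Matrix ι ι K) :=
  (imL K g U).map (LinearMap.toMatrix b b).toLinearMap

theorem matL_br (b : Basis ι K U) : ∀ x ∈ matL K g b, ∀ y ∈ matL K g b,
    x * y - y * x ∈ matL K g b := by
  rintro _ ⟨x, hx, rfl⟩ _ ⟨y, hy, rfl⟩
  refine ⟨x * y - y * x, imL_br hx hy, ?_⟩
  simp only [LinearEquiv.coe_coe, map_sub, Module.End.mul_eq_comp]
  rw [LinearMap.toMatrix_comp b b b, LinearMap.toMatrix_comp b b b]

theorem toMatrix_diag (b : Basis ι K U) (F : ι → K) (x : Module.End K U)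
    (h : ∀ i, x (b i) = F i • b i) : LinearMap.toMatrix b b x = Matrix.diagonal F := by
  ext i j
  rw [LinearMap.toMatrix_apply, h, map_smul, Finsupp.smul_apply, Basis.repr_self,
    Finsupp.single_apply, Matrix.diagonal_apply, smul_eq_mul]
  by_cases hij : i = j
  · subst hij; simp
  · rw [if_neg hij, if_neg (Ne.symm hij), mul_zero]

/-- The diagonal endomorphism. -/
noncomputable def dend (b : Basis ι K U) (F : ι → K) : Module.End K U :=
  b.constr K fun i => F i • b i

theorem dend_basis (b : Basis ι K U) (F : ι → K) (i : ι) : dend b F (b i) = F i • b i := by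
  rw [dend, Basis.constr_basis]

theorem matL_mem (b : Basis ι K U) {F : ι → K} {y : g} {c : K}
    (h : ∀ i, ⁅y, b i⁆ = (F i + c) • b i) : Matrix.diagonal F ∈ matL K g b := by
  refine ⟨dend b F, ⟨y, c, ?_⟩, toMatrix_diag b F _ (dend_basis b F)⟩
  intro v
  have : LieModule.toEnd K g U y = dend b F + c • 1 := by
    apply b.ext
    intro k
    show ⁅y, b k⁆ = _
    rw [h, LinearMap.add_apply, dend_basis, LinearMap.smul_apply, Module.End.one_apply, add_smul]
  exact LinearMap.congr_fun this v

theorem matL_diag (b : Basis ι K U) {F : ι → K} (h : Matrix.diagonal F ∈ matL K g b) :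
    ∃ (y : g) (c : K), ∀ i, ⁅y, b i⁆ = (F i + c) • b i := by
  obtain ⟨x, ⟨y, c, hy⟩, hx⟩ := h
  refine ⟨y, c, fun i => ?_⟩
  rw [hy]
  have h1 : x = dend b F := by
    apply (LinearMap.toMatrix b b).injective
    have h2 : LinearMap.toMatrix b b x = Matrix.diagonal F := hx
    rw [h2, toMatrix_diag b F _ (dend_basis b F)]
  rw [h1, dend_basis, add_smul]

/-- Block L2. -/
theorem newton (Φ : Submodule ℚ (ι → ℚ)) (one : (fun _ => (1 : ℚ)) ∈ Φ) (sep : Sep Φ)
    (b : Basis ι K U)
    (mem : ∀ f ∈ Φ, ∃ (y : g) (c : K), ∀ i, ⁅y, b i⁆ = ((f i : K) + c) • b i)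
    (max : ∀ (y : g) (F : ι → K), (∀ i, ⁅y, b i⁆ = F i • b i) →
      F ∈ Submodule.span K {F' : ι → K | ∃ f ∈ Φ, F' = fun i => (f i : K)})
    (h : g) (h0 : ι → ℚ) (hh : ∀ i, ⁅h, b i⁆ = (h0 i : K) • b i)
    (two : ∀ i, h0 i = 1/2 ∨ h0 i = -(1/2)) (w : ι → ℚ)
    (hw : ∀ I : LieIdeal K g, h ∈ I → ∃ y ∈ I, ∃ c : K, ∀ i, ⁅y, b i⁆ = ((w i : K) + c) • b i) :
    w ∈ Submodule.span ℚ ({(fun _ => (1 : ℚ)), h0} ∪ {c | IsChi Φ h0 c}) ∧ h0 ∈ Φ := by
  have hone : (fun _ => (1 : K)) ∈
      Submodule.span K {F' : ι → K | ∃ f ∈ Φ, F' = fun i => (f i : K)} :=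
    Submodule.subset_span ⟨_, one, by simp⟩
  have hmax : ∀ F : ι → K, Matrix.diagonal F ∈ matL K g b →
      F ∈ Submodule.span K {F' : ι → K | ∃ f ∈ Φ, F' = fun i => (f i : K)} := by
    intro F hF
    obtain ⟨y, c, hy⟩ := matL_diag b hF
    have h1 := max y _ hy
    have h2 := Submodule.sub_mem _ h1 (Submodule.smul_mem _ c hone)
    convert h2 using 1
    funext i
    simp
  have hhΦ : h0 ∈ Φ := descent (K := K) Φ h0 (max h _ hh)
  refine ⟨?_, hhΦ⟩
  refine newton_mat Φ one sep (matL K g b) (matL_br b) ?_ hmax h0 hhΦ two w ?_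
  · intro f hf
    obtain ⟨y, c, hy⟩ := mem f hf
    exact matL_mem b hy
  · intro I' hhI h1I hI
    let I : LieIdeal K g :=
      { carrier := {y | LinearMap.toMatrix b b (LieModule.toEnd K g U y) ∈ I'}
        zero_mem' := by
          show LinearMap.toMatrix b b (LieModule.toEnd K g U 0) ∈ I'
          rw [map_zero, map_zero]
          exact I'.zero_mem
        add_mem' := by
          intro x y hx hy
          show LinearMap.toMatrix b b (LieModule.toEnd K g U (x + y)) ∈ I'
          rw [map_add, map_add]
          exact I'.add_mem hx hy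
        smul_mem' := by
          intro c x hx
          show LinearMap.toMatrix b b (LieModule.toEnd K g U (c • x)) ∈ I'
          rw [map_smul, map_smul]
          exact I'.smul_mem c hx
        lie_mem := by
          intro x y hy
          show LinearMap.toMatrix b b (LieModule.toEnd K g U ⁅x, y⁆) ∈ I'
          have h1 : LieModule.toEnd K g U ⁅x, y⁆ = LieModule.toEnd K g U x * LieModule.toEnd K g U y -
              LieModule.toEnd K g U y * LieModule.toEnd K g U x := by
            refine LinearMap.ext fun v => ?_
            show ⁅⁅x, y⁆, v⁆ = ⁅x, ⁅y, v⁆⁆ - ⁅y, ⁅x, v⁆⁆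
            exact lie_lie x y v
          rw [h1, map_sub, Module.End.mul_eq_comp, Module.End.mul_eq_comp,
            LinearMap.toMatrix_comp b b b, LinearMap.toMatrix_comp b b b]
          refine hI _ ?_ _ hy
          exact ⟨LieModule.toEnd K g U x, ⟨x, 0, fun v => by simp⟩, rfl⟩ }
    have hmem : ∀ y, y ∈ I ↔ LinearMap.toMatrix b b (LieModule.toEnd K g U y) ∈ I' := fun _ => Iff.rfl
    obtain ⟨y, hy, c, hyw⟩ := hw I (by
      rw [hmem, toMatrix_diag b (fun i => (h0 i : K)) _ hh]
      exact hhI)
    rw [hmem, toMatrix_diag b (fun i => (w i : K) + c) _ hyw] at hy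
    have h2 := I'.sub_mem hy (I'.smul_mem c h1I)
    convert h2 using 1
    ext i j
    rw [Matrix.sub_apply, Matrix.smul_apply, smul_eq_mul, Matrix.diagonal_apply,
      Matrix.diagonal_apply, Matrix.one_apply]
    by_cases hij : i = j
    · subst hij; simp
    · simp [hij]

end lie

end Pool.Agent.FTN
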