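import Pool.Agent.Lib_helper48.FT.A1
import Pool.Agent.Lib_helper48.FT.L2b
import Pool.Agent.Lib_helper99.FT.PS
import Pool.Agent.Lib_helper48.T4.Fin

/-! Frobenius tori: the torus is the full torus. -/

set_option autoImplicit false
set_option linter.unusedSectionVars false

namespace Pool.Agent.FT

open Module Finset LieModule Pool.Agent.T4

section one

variable {K : Type*} [Field K] [CharZero K] [IsAlgClosed K] {g : Type*} [LieRing g]
  [LieAlgebra K g] (U : Type*) [AddCommGroup U] [Module K U] [FiniteDimensional K U]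
    [LieRingModule g U] [LieModule K g U] [LieModule.IsIrreducible K g U]

/-- No twisted self duality. -/
theorem no_selfdual (P : Set g) (hP : ∀ h ∈ P, ∀ v : U, ⁅h, ⁅h, v⁆⁆ = (1 / 4 : K) • v)
    (HT : ∀ I : LieIdeal K g, (∀ h ∈ P, h ∈ I) → I = ⊤)
    (hA : (∃ h ∈ P, half K U h ≠ 0 ∧ half K U h ≠ finrank K U ∧ 2 * half K U h ≠ finrank K U) ∨
      ((∀ h ∈ P, 2 * half K U h = finrank K U) ∧ IsEmpty (U ≃ₗ⁅K, g⁆ Module.Dual K U))) :
    ¬ ∃ (f : U ≃ₗ[K] Module.Dual K U) (χ : g → K), ∀ (x : g) (v : U),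
        f ⁅x, v⁆ = ⁅x, f v⁆ + χ x • f v := by
  have hnt : Nontrivial U := nontrivial_of_isIrreducible K g U
  have hpos : 0 < finrank K U := Module.finrank_pos
  rintro ⟨f, χ, hf⟩
  rcases hA with ⟨h, hh, h1, h2, h3⟩ | ⟨hall, hself⟩
  · have hns : ¬ ∃ c : K, ∀ v : U, ⁅h, v⁆ = c • v := by
      rw [scal_iff U (hP h hh)]
      push Not
      exact ⟨h1, h2⟩
    have h4 := Pool.Agent.OU.twist_trace_dual (K := K) (hP h hh) (hP h hh) (fun hs => hns hs.1)
      ⟨f, χ h, hf h⟩
    obtain ⟨a1, a2⟩ := Pool.Agent.OU.sign_eq (K := K) (V := U) h (hP h hh)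
    have h5 : LinearMap.trace K U (LieModule.toEnd K g U h) = 0 := by
      have h6 : (2 : K) * LinearMap.trace K U (LieModule.toEnd K g U h) = 0 := by
        linear_combination h4
      exact (mul_eq_zero.mp h6).resolve_left two_ne_zero
    rw [h5, mul_zero] at a2
    have h7 : half K U h = finrank K (Module.End.eigenspace (toEnd K g U h) (-(1/2))) := by
      have := sub_eq_zero.mp a2.symm
      exact_mod_cast this
    have a3 : half K U h + finrank K (Module.End.eigenspace (toEnd K g U h) (-(1/2))) =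
      finrank K U := a1
    omega
  · have hns : ∀ h ∈ P, ¬ ∃ c : K, ∀ v : U, ⁅h, v⁆ = c • v := by
      intro h hh
      rw [scal_iff U (hP h hh)]
      have := hall h hh
      omega
    have hPd : ∀ h ∈ P, ∀ v : Module.Dual K U, ⁅h, ⁅h, v⁆⁆ = (1/4 : K) • v := by
      intro h hh v
      ext w
      show - (- v ⁅h, ⁅h, w⁆⁆) = (1/4 : K) * v w
      rw [hP h hh, map_smul, neg_neg, smul_eq_mul]
    have h0 : ∀ h ∈ P, χ h = 0 := fun h hh =>
      chi_zero (hP h hh) (hPd h hh) (fun hc => hns h hh hc.1) f (χ h) (hf h)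
    obtain ⟨e⟩ := iso_of_twist P HT f χ hf h0
    exact hself.false e

/-- The image of a projectively simple module. -/
theorem onSl_ps (hs : Pool.Agent.OU.PSimple K g U) {h : g}
    (hh : ∀ v : U, ⁅h, ⁅h, v⁆⁆ = (1 / 4 : K) • v)
    (hne : half K U h ≠ 0 ∧ half K U h ≠ finrank K U)
    (htw : ¬ ∃ (f : U ≃ₗ[K] Module.Dual K U) (χ : g → K), ∀ (x : g) (v : U),
        f ⁅x, v⁆ = ⁅x, f v⁆ + χ x • f v)
    (hA : (2 * half K U h ≠ finrank K U ∧ ∀ m k : ℕ, 0 < k → k < m →
          ¬ (half K U h = (m + 1).choose (k + 1) ∧ finrank K U = (m + 2).choose (k + 1))) ∨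
      (2 * half K U h = finrank K U ∧
        ∀ t : ℕ, 2 ≤ t → Even t → finrank K U ≠ 2 ^ (t + 2))) :
    Pool.Agent.U4.OnSl K g U := by
  have hnt : Nontrivial U := nontrivial_of_isIrreducible K g U
  have hns : ¬ ∃ c : K, ∀ v : U, ⁅h, v⁆ = c • v := by
    rw [scal_iff U hh]
    push Not
    exact hne
  have hsum : half K U h + finrank K (Module.End.eigenspace (toEnd K g U h) (-(1/2))) =
    finrank K U := (Pool.Agent.OU.sign_eq (K := K) (V := U) h hh).1
  obtain ⟨x, hx1, hx2⟩ := Pool.Agent.SJ.exists_sq h hh hns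
  refine Pool.Agent.OU.condU2 hs h hh hns (Or.inl htw) rfl rfl
    (Or.inr ⟨x, hx1, hx2, fun hne' hE => ?_, fun heq hE => ?_⟩)
  · rcases hA with hA | hA
    · obtain ⟨m, k, h1, h2, h3, h4, -⟩ := hE
      refine hA.2 m k h1 h2 ⟨h3, ?_⟩
      rw [← hsum, h4, show half K U h = (m + 1).choose (k + 1) from h3,
        Nat.choose_succ_succ' (m + 1) k, add_comm]
    · apply hne'
      have h1 := hA.1
      show half K U h = _
      omega
  · rcases hA with hA | hA
    · apply hA.1
      have h1 : half K U h = finrank K (Module.End.eigenspace (toEnd K g U h) (-(1/2))) := heq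
      omega
    · obtain ⟨t, h1, h2, h3, -⟩ := hE
      apply hA.2 t h1 h2
      have h4 : half K U h + finrank K (Module.End.eigenspace (toEnd K g U h) (-(1/2))) =
        2 ^ (t + 2) := h3
      rw [hsum] at h4
      exact h4

end one

section two

variable {K : Type*} [Field K] [CharZero K] {g : Type*} [LieRing g]
  [LieAlgebra K g] {U : Type*} [AddCommGroup U] [Module K U]
    [LieRingModule g U] [LieModule K g U]
  {ι : Type*} [Fintype ι] [DecidableEq ι]

/-- The multiplicity of 1/2 of a diagonal element. -/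
theorem half_diag (b : Basis ι K U) (h : g) (q : ι → ℚ)
    (hq : ∀ i, ⁅h, b i⁆ = (q i : K) • b i) :
    half K U h = (univ.filter fun i => q i = 1/2).card := by
  unfold half
  have h1 : Module.End.eigenspace (toEnd K g U h) (1/2) =
      Submodule.span K (Set.range fun i : {i // i ∈ univ.filter fun i => q i = 1/2} => b i) := by
    apply le_antisymm
    · intro v hv
      rw [Module.End.mem_eigenspace_iff] at hv
      rw [← b.sum_repr v]
      refine Submodule.sum_mem _ fun i _ => ?_
      by_cases hi : q i = 1/2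
      · apply Submodule.smul_mem
        apply Submodule.subset_span
        exact ⟨⟨i, by simp [hi]⟩, rfl⟩
      · have h2 := congrArg (fun u => b.repr u i) hv
        have h3 : toEnd K g U h v = ∑ j, b.repr v j • ((q j : K) • b j) := by
          conv_lhs => rw [← b.sum_repr v]
          rw [map_sum]
          refine Finset.sum_congr rfl fun j _ => ?_
          rw [map_smul, toEnd_apply_apply, hq]
        have h4 : b.repr (toEnd K g U h v) i = (q i : K) * b.repr v i := by
          rw [h3, map_sum, Finsupp.finsetSum_apply, Finset.sum_eq_single i]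
          · rw [map_smul, map_smul, Finsupp.smul_apply, Finsupp.smul_apply, Basis.repr_self,
              Finsupp.single_eq_same, smul_eq_mul, smul_eq_mul, mul_one, mul_comm]
          · intro j _ hj
            rw [map_smul, map_smul, Finsupp.smul_apply, Finsupp.smul_apply, Basis.repr_self,
              Finsupp.single_apply, if_neg hj, smul_zero, smul_zero]
          · intro hn; exact absurd (Finset.mem_univ _) hn
        simp only [h4, map_smul, Finsupp.smul_apply, smul_eq_mul] at h2
        have h5 : ((q i : K) - 1/2) * b.repr v i = 0 := by linear_combination h2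
        have h6 : (q i : K) - 1/2 ≠ 0 := by
          intro h7
          apply hi
          have h8 : (q i : K) = ((1/2 : ℚ) : K) := by
            push_cast
            linear_combination h7
          exact_mod_cast h8
        rw [(mul_eq_zero.mp h5).resolve_left h6, zero_smul]
        exact Submodule.zero_mem _
    · rw [Submodule.span_le]
      rintro _ ⟨⟨i, hi⟩, rfl⟩
      rw [Finset.mem_filter] at hi
      rw [SetLike.mem_coe, Module.End.mem_eigenspace_iff, toEnd_apply_apply, hq, hi.2]
      push_cast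
      rfl
  rw [h1, finrank_span_eq_card]
  · rw [Fintype.card_coe]
  · exact b.linearIndependent.comp _ Subtype.val_injective

/-- Binomial pairs are symmetric. -/
theorem binom_symm {a d : ℕ} (had : a ≤ d) (h : ∃ m k : ℕ, 0 < k ∧ k < m ∧
    d - a = (m + 1).choose (k + 1) ∧ d = (m + 2).choose (k + 1)) :
    ∃ m k : ℕ, 0 < k ∧ k < m ∧ a = (m + 1).choose (k + 1) ∧ d = (m + 2).choose (k + 1) := by
  obtain ⟨m, k, h1, h2, h3, h4⟩ := h
  refine ⟨m, m - k, by omega, by omega, ?_, ?_⟩
  · have h5 : a = (m + 1).choose k := by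
      have h6 : d = (m + 1).choose k + (m + 1).choose (k + 1) := by
        rw [h4, Nat.choose_succ_succ' (m + 1) k]
      omega
    rw [h5, ← Nat.choose_symm (by omega : m - k + 1 ≤ m + 1)]
    congr 1
    omega
  · rw [h4, ← Nat.choose_symm (by omega : m - k + 1 ≤ m + 2)]
    congr 1
    omega

end two

section three

variable {K : Type*} [Field K] [CharZero K] [IsAlgClosed K] {g : Type*} [LieRing g]
  [LieAlgebra K g] (U : Type*) [AddCommGroup U] [Module K U] [FiniteDimensional K U]
    [LieRingModule g U] [LieModule K g U] [LieModule.IsIrreducible K g U]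
  {ι : Type*} [Fintype ι] [DecidableEq ι]

/-- The Frobenius torus is the full torus. -/
theorem full_of (P : Set g) (hP : ∀ h ∈ P, ∀ v : U, ⁅h, ⁅h, v⁆⁆ = (1 / 4 : K) • v)
    (HT : ∀ I : LieIdeal K g, (∀ h ∈ P, h ∈ I) → I = ⊤)
    {p : ℕ} [Fact p.Prime] {z : ι → AlgebraicClosure ℚ} (hz : ∀ i, IsWeil p (z i))
    {w : AlgebraicClosure ℚ → ℚ} (hw : IsVal p w)
    (hsep : ∀ i j, i ≠ j → ∀ N : ℕ, 0 < N → z i ^ N ≠ z j ^ N)
    (tri : ∀ γ : AlgebraicClosure ℚ ≃+* AlgebraicClosure ℚ,
      (∃ σ : Equiv.Perm ι, ∀ i, γ (z i) = z (σ i)) ∨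
      (∃ σ : Equiv.Perm ι, ∀ i, γ (z i) * z (σ i) = p) ∨
      ∀ i j, w (γ (z i)) = w (γ (z j)))
    (b : Basis ι K U)
    (mem : ∀ φ, IsAdd φ → ∃ (y : g) (c : K), ∀ i, ⁅y, b i⁆ = ((φ (z i) : K) + c) • b i)
    (max : ∀ (y : g) (F : ι → K), (∀ i, ⁅y, b i⁆ = F i • b i) →
      F ∈ Submodule.span K {F' : ι → K | ∃ f ∈ Phi z, F' = fun i => (f i : K)})
    (h : g) (hh : h ∈ P) (h0 : ι → K) (hdiag : ∀ i, ⁅h, b i⁆ = h0 i • b i)
    (hne : half K U h ≠ 0 ∧ half K U h ≠ finrank K U)
    (newt : ∀ I : LieIdeal K g, h ∈ I → ∃ y ∈ I, ∃ c : K, ∀ i, ⁅y, b i⁆ = ((w (z i) : K) + c) • b i)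
    (a : ℕ) (ha : ∀ h ∈ P, half K U h ≠ 0 → half K U h ≠ finrank K U →
      half K U h = a ∨ half K U h + a = finrank K U)
    (hpow : ∀ m k : ℕ, 3 ≤ m → 2 ≤ k → finrank K U = m ^ k → ¬ m ^ (k - 1) ∣ a)
    (htw : ¬ ∃ (f : U ≃ₗ[K] Module.Dual K U) (χ : g → K), ∀ (x : g) (v : U),
        f ⁅x, v⁆ = ⁅x, f v⁆ + χ x • f v)
    (hA : (2 * a ≠ finrank K U ∧ ∀ m k : ℕ, 0 < k → k < m →
          ¬ (a = (m + 1).choose (k + 1) ∧ finrank K U = (m + 2).choose (k + 1))) ∨
      2 * a = finrank K U)
    (sd : (∃ bar : ι → ι, ∀ f ∈ Phi z, ∀ i j, f i + f (bar i) = f j + f (bar j)) →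
      ∃ (f : U ≃ₗ[K] Module.Dual K U) (χ : g → K), ∀ (x : g) (v : U),
        f ⁅x, v⁆ = ⁅x, f v⁆ + χ x • f v) : Phi z = ⊤ := by
  classical
  have hnt : Nontrivial U := nontrivial_of_isIrreducible K g U
  have hone := Phi_one z
  have hsepΦ : Sep (Phi z) := Phi_sep hz hw hsep
  have hle : half K U h ≤ finrank K U := Submodule.finrank_le _
  have hcard : finrank K U = Fintype.card ι := Module.finrank_eq_card_basis b
  -- h is rational
  have hh0 : ∀ i, h0 i = 1/2 ∨ h0 i = -(1/2) := by
    intro i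
    have h1 := hP h hh (b i)
    rw [hdiag, lie_smul, hdiag, smul_smul] at h1
    have h2 : h0 i * h0 i = 1/4 := by
      have h3 := congrArg (fun u => b.repr u i) h1
      simp only [map_smul, Finsupp.smul_apply, Basis.repr_self, Finsupp.single_eq_same,
        smul_eq_mul, mul_one] at h3
      exact h3
    have h3 : (h0 i - 1/2) * (h0 i + 1/2) = 0 := by linear_combination h2
    rcases mul_eq_zero.mp h3 with h4 | h4
    · left; linear_combination h4
    · right; linear_combination h4
  obtain ⟨q, hq0⟩ : ∃ q : ι → ℚ, ∀ i, q i = if h0 i = 1/2 then 1/2 else -(1/2) := ⟨_, fun _ => rfl⟩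
  have hq : ∀ i, (q i : K) = h0 i := by
    intro i
    rw [hq0]
    by_cases h1 : h0 i = 1/2
    · rw [if_pos h1, h1]; push_cast; rfl
    · rw [if_neg h1, (hh0 i).resolve_left h1]; push_cast; rfl
  have hq2 : ∀ i, q i = 1/2 ∨ q i = -(1/2) := by
    intro i
    rw [hq0]
    by_cases h1 : h0 i = 1/2
    · rw [if_pos h1]; exact Or.inl rfl
    · rw [if_neg h1]; exact Or.inr rfl
  have hqd : ∀ i, ⁅h, b i⁆ = (q i : K) • b i := fun i => by rw [hq, hdiag]
  have hhalf := half_diag b h q hqd
  have mem' : ∀ f ∈ Phi z, ∃ (y : g) (c : K), ∀ i, ⁅y, b i⁆ = ((f i : K) + c) • b i := by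
    rintro _ ⟨φ, c, hφ, rfl⟩
    obtain ⟨y, c', hy⟩ := mem φ hφ
    refine ⟨y, c' - c, fun i => ?_⟩
    rw [hy]
    congr 1
    push_cast
    ring
  obtain ⟨hwspan, hqΦ⟩ := Pool.Agent.FTN.newton (Phi z) hone hsepΦ b mem' max h q hqd hq2
    (fun i => w (z i)) (fun I hI => newt I hI)
  have nc : ∃ i j, q i ≠ q j := by
    by_contra hcon
    push Not at hcon
    rw [hhalf] at hne
    rcases isEmpty_or_nonempty ι with he | ⟨⟨i₀⟩⟩
    · apply hne.1
      rw [Finset.card_eq_zero]
      ext i
      exact he.elim i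
    · rcases hq2 i₀ with h1 | h1
      · apply hne.2
        rw [hcard, ← Finset.card_univ]
        congr 1
        ext i
        simp [hcon i i₀, h1]
      · apply hne.1
        rw [Finset.card_eq_zero]
        ext i
        simp only [Finset.mem_filter, Finset.mem_univ, true_and, Finset.notMem_empty, iff_false]
        rw [hcon i i₀, h1]
        norm_num
  have hgen := Phi_gen hz hw tri
  rcases comb' (Phi z) hone hsepΦ (Sym p z) (fun σ hσ f => Phi_sym hz hσ f) q hqΦ hq2 nc
    (fun i => w (z i)) hwspan hgen with hind | ⟨m, k, hm, hk, h1, h2⟩ | hbar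
  · -- the indecomposable case
    have hps := psimple (Phi z) hone hsepΦ hind b mem' max
    have hon := onSl_ps U hps (hP h hh) hne htw (by
      rcases hA with ⟨h1, h2⟩ | h1
      · left
        rcases ha h hh hne.1 hne.2 with h3 | h3
        · rw [h3]; exact ⟨h1, h2⟩
        · refine ⟨by omega, ?_⟩
          intro m k k1 k2 ⟨k3, k4⟩
          obtain ⟨m', k', e1, e2, e3, e4⟩ := binom_symm (a := a) (d := finrank K U) (by omega)
            ⟨m, k, k1, k2, by omega, k4⟩
          exact h2 m' k' e1 e2 ⟨e3, e4⟩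
      · right
        refine ⟨by rcases ha h hh hne.1 hne.2 with h5 | h5 <;> omega, ?_⟩
        rintro t ht ⟨s, hs⟩ htd
        have h5 : finrank K U = 4 ^ (s + 1) := by
          rw [htd, hs, show (4 : ℕ) = 2 ^ 2 by norm_num, ← pow_mul]
          congr 1
          omega
        refine hpow 4 (s + 1) (by norm_num) (by omega) h5 ?_
        have h6 : a = 4 ^ s * 2 := by
          have h7 : 2 * a = 4 ^ s * 4 := by rw [h1, h5, pow_succ]
          omega
        rw [h6, Nat.add_sub_cancel]
        exact Dvd.intro _ rfl)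
    exact phi_top (Phi z) hone b max hon
  · -- the exceptional case
    exfalso
    rw [← hhalf] at h2
    rw [← hcard] at h1
    refine hpow m k hm hk h1 ?_
    rcases ha h hh hne.1 hne.2 with h3 | h3
    · rw [← h3]; exact h2
    · have h4 : m ^ (k - 1) ∣ half K U h + a := by
        rw [h3, h1]
        exact pow_dvd_pow m (by omega)
      exact (Nat.dvd_add_right h2).mp h4
  · -- the antipode
    exact absurd (sd hbar) htw

end three

end Pool.Agent.FT
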