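import Pool.Agent.Lib_helper48.FT.A2
import Pool.Agent.Lib_helper48.T4.OnF

/-! Prime dimensions. -/

set_option autoImplicit false
set_option linter.unusedSectionVars false

namespace Pool.Agent.FT

open Module Finset LieModule Pool.Agent.T4

theorem choose_big (m k : ℕ) (h1 : 0 < k) (h2 : k < m) : m + 3 ≤ (m + 2).choose (k + 1) := by
  induction m generalizing k with
  | zero => omega
  | succ m ih =>
    have hk2 : (m + 3).choose 2 = (m + 3) * (m + 2) / 2 := Nat.choose_two_right (m + 3)
    have hbig : m + 4 ≤ (m + 3).choose 2 := by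
      rw [hk2, Nat.le_div_iff_mul_le (by norm_num)]
      have : 1 ≤ m := by omega
      nlinarith
    by_cases hk : k = 1
    · subst hk
      exact hbig
    by_cases hkm : k = m
    · subst hkm
      rw [← Nat.choose_symm (by omega : k + 1 ≤ k + 1 + 2)]
      have : k + 1 + 2 - (k + 1) = 2 := by omega
      rw [this]
      exact hbig
    · rw [Nat.choose_succ_succ' (m + 2) k]
      have h3 := ih (k - 1) (by omega) (by omega)
      rw [show k - 1 + 1 = k by omega] at h3
      have h4 : 0 < (m + 2).choose (k + 1) := Nat.choose_pos (by omega)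
      omega

theorem choose_not_prime (m k : ℕ) (h1 : 0 < k) (h2 : k < m) :
    ¬ ((m + 2).choose (k + 1)).Prime := by
  intro hp
  have h3 : (m + 2).choose (k + 1) ∣ (m + 2).factorial := by
    rw [← Nat.choose_mul_factorial_mul_factorial (show k + 1 ≤ m + 2 by omega)]
    exact Dvd.intro _ (by rw [mul_assoc])
  have h4 := (hp.dvd_factorial).mp h3
  have h5 := choose_big m k h1 h2
  omega

section

variable {K : Type*} [Field K] [CharZero K] [IsAlgClosed K] {g : Type*} [LieRing g]
  [LieAlgebra K g] (U : Type*) [AddCommGroup U] [Module K U] [FiniteDimensional K U]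
    [LieRingModule g U] [LieModule K g U] [LieModule.IsIrreducible K g U]

/-- Odd prime dimension. -/
theorem onSl_prime (P : Set g) (hP : ∀ h ∈ P, ∀ v : U, ⁅h, ⁅h, v⁆⁆ = (1 / 4 : K) • v)
    (HT : ∀ I : LieIdeal K g, (∀ h ∈ P, h ∈ I) → I = ⊤)
    (hns : ∃ h ∈ P, ¬ ∃ c : K, ∀ v : U, ⁅h, v⁆ = c • v) (hd : 3 ≤ finrank K U)
    (hp : (finrank K U).Prime) : Pool.Agent.U4.OnSl K g U := by
  obtain ⟨h, hh, hn⟩ := hns
  have hne : half K U h ≠ 0 ∧ half K U h ≠ finrank K U := by
    rw [scal_iff U (hP h hh)] at hn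
    push Not at hn
    exact hn
  have hodd : 2 * half K U h ≠ finrank K U := by
    intro h1
    have h2 : 2 ∣ finrank K U := ⟨_, h1.symm⟩
    have := (Nat.prime_dvd_prime_iff_eq Nat.prime_two hp).mp h2
    omega
  have hself : IsEmpty (U ≃ₗ⁅K, g⁆ Module.Dual K U) := by
    constructor
    intro f
    exact no_selfdual U P hP HT (Or.inl ⟨h, hh, hne.1, hne.2, hodd⟩) ⟨f.toLinearEquiv, 0,
      fun x v => by
        rw [Pi.zero_apply, zero_smul, add_zero]
        exact f.toLieModuleHom.map_lie x v⟩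
  refine onSl_of U P ⟨h, hh⟩ hP HT hself hd ?_ (Or.inl ⟨h, hh, hne.1, hne.2, hodd, ?_⟩)
  · intro m n hm hn' hmn _ _ _
    have h1 := hp.eq_one_or_self_of_dvd m ⟨n, hmn.symm⟩
    rcases h1 with h1 | h1
    · omega
    · rw [← h1] at hmn
      have : n = 1 := by
        have h2 : m * n = m * 1 := by rw [hmn, mul_one]
        exact Nat.eq_of_mul_eq_mul_left (by omega) h2
      omega
  · rintro m k h1 h2 ⟨-, h3⟩
    rw [h3] at hp
    exact choose_not_prime m k h1 h2 hp

end

end Pool.Agent.FT
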