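import Pool.Agent.Lib_helper48.FT.Defs

/-! Frobenius tori: product decompositions of a finite set of functionals. -/

set_option autoImplicit false
set_option linter.unusedSectionVars false

namespace Pool.Agent.FT

open Module Finset

section fac

variable {ι : Type*} [Fintype ι] [DecidableEq ι] {B : Type*} [AddCommGroup B] [Module ℚ B]
  (v : ι → B →ₗ[ℚ] ℚ)

/-- A factor: an idempotent with the swap property. -/
structure Fac (π : Module.End ℚ B) : Prop where
  idem : π * π = π
  swap : ∀ i j, ∃ k, ∀ x, v k x - v j x = v i (π x) - v j (π x)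

variable {v}

theorem Fac.pp {π : Module.End ℚ B} (h : Fac v π) (x : B) : π (π x) = π x :=
  LinearMap.congr_fun h.idem x

theorem Fac.zero : Fac v (0 : Module.End ℚ B) :=
  ⟨by simp, fun i j => ⟨j, fun x => by simp⟩⟩

theorem Fac.one : Fac v (1 : Module.End ℚ B) :=
  ⟨by simp, fun i j => ⟨i, fun x => by simp⟩⟩

theorem Fac.compl {π : Module.End ℚ B} (h : Fac v π) : Fac v (1 - π) := by
  refine ⟨?_, fun i j => ?_⟩
  · have := h.idem
    rw [mul_sub, sub_mul, sub_mul, this]
    simp
  · obtain ⟨k, hk⟩ := h.swap j i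
    refine ⟨k, fun x => ?_⟩
    have h1 := hk x
    simp only [LinearMap.sub_apply, Module.End.one_apply, map_sub]
    linarith

theorem Fac.mul_of_comm {π ρ : Module.End ℚ B} (h : Fac v π) (h' : Fac v ρ) (hc : π * ρ = ρ * π) :
    Fac v (π * ρ) := by
  refine ⟨?_, fun i j => ?_⟩
  · calc π * ρ * (π * ρ) = π * (ρ * π) * ρ := by noncomm_ring
      _ = π * (π * ρ) * ρ := by rw [hc]
      _ = (π * π) * (ρ * ρ) := by noncomm_ring
      _ = π * ρ := by rw [h.idem, h'.idem]
  · obtain ⟨l, hl⟩ := h.swap i j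
    obtain ⟨k, hk⟩ := h'.swap l j
    refine ⟨k, fun x => ?_⟩
    rw [hk x, hl (ρ x)]
    rfl

/-- Factors commute. -/
theorem Fac.comm (hv : ∀ x : B, (∀ i, v i x = 0) → x = 0) (i₀ : ι) (h0 : v i₀ = 0)
    (f₀ : B) (hf : ∀ i, i ≠ i₀ → 0 < v i f₀) {π ρ : Module.End ℚ B} (h : Fac v π) (h' : Fac v ρ) :
    π * ρ = ρ * π := by
  have key : ∀ {π ρ : Module.End ℚ B}, Fac v π → Fac v ρ → π * ρ * (1 - π) = 0 := by
    intro π ρ h h'
    refine LinearMap.ext fun x => hv _ fun i => ?_
    obtain ⟨k, hk⟩ := h.swap i i₀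
    obtain ⟨l, hl⟩ := h'.swap k i₀
    obtain ⟨l', hl'⟩ := h'.compl.swap k i₀
    obtain ⟨m, hm⟩ := h.compl.swap l i₀
    obtain ⟨m', hm'⟩ := h.compl.swap l' i₀
    simp only [h0, LinearMap.zero_apply, sub_zero] at hk hl hl' hm hm'
    -- v m + v m' = 0
    have hsum : ∀ y, v m y + v m' y = 0 := by
      intro y
      rw [hm, hm', hl, hl', ← map_add]
      have e1 : ρ ((1 - π) y) + (1 - ρ) ((1 - π) y) = (1 - π) y := by
        simp
      rw [e1, hk]
      have e2 : π ((1 - π) y) = 0 := by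
        have := h.pp y
        simp [this]
      rw [e2, map_zero]
    have hpos : ∀ i, 0 ≤ v i f₀ := by
      intro i
      by_cases hi : i = i₀
      · rw [hi, h0]; exact le_rfl
      · exact (hf i hi).le
    have hm0 : m = i₀ := by
      by_contra hne
      have h1 := hsum f₀
      have h2 := hf m hne
      have h3 := hpos m'
      linarith
    show v i (π (ρ ((1 - π) x))) = 0
    rw [← hk, ← hl, ← hm, hm0, h0]
    rfl
  have h1 := key h h'
  have h2 := key h.compl h'
  have e1 : π * ρ = π * ρ * π := by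
    have : π * ρ * (1 - π) = π * ρ - π * ρ * π := by noncomm_ring
    rw [this, sub_eq_zero] at h1
    exact h1
  have e2 : ρ * π = π * ρ * π := by
    have : (1 - π) * ρ * (1 - (1 - π)) = ρ * π - π * ρ * π := by noncomm_ring
    rw [this, sub_eq_zero] at h2
    exact h2
  rw [e1, e2]

end fac

section size

variable {ι : Type*} [Fintype ι] [DecidableEq ι] {B : Type*} [AddCommGroup B] [Module ℚ B]
  (v : ι → B →ₗ[ℚ] ℚ)

theorem img_card {X Y : Type*} [DecidableEq X] [DecidableEq Y] (F : ι → X) (G : ι → Y)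
    (h : ∀ i j, G i = G j → F i = F j) : (univ.image F).card ≤ (univ.image G).card := by
  classical
  rcases isEmpty_or_nonempty ι with he | hne
  · simp
  · obtain ⟨i₀⟩ := hne
    refine Finset.card_le_card_of_surjOn (fun y => if hy : ∃ i, G i = y then F hy.choose else F i₀) ?_
    intro x hx
    rw [Finset.mem_coe, Finset.mem_image] at hx
    obtain ⟨i, -, rfl⟩ := hx
    refine ⟨G i, by simp, ?_⟩
    have hy : ∃ j, G j = G i := ⟨i, rfl⟩
    show (if hy : ∃ j, G j = G i then F hy.choose else F i₀) = F i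
    rw [dif_pos hy]
    exact h _ _ hy.choose_spec

theorem img_card_eq {X Y : Type*} [DecidableEq X] [DecidableEq Y] (F : ι → X) (G : ι → Y)
    (h : ∀ i j, G i = G j ↔ F i = F j) : (univ.image F).card = (univ.image G).card :=
  le_antisymm (img_card F G fun i j => (h i j).mp) (img_card G F fun i j => (h i j).mpr)

open Classical in
/-- The number of coordinates of a factor. -/
noncomputable def N (π : Module.End ℚ B) : ℕ :=
  (univ.image fun i => (v i ∘ₗ π : B →ₗ[ℚ] ℚ)).card

variable {v}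

theorem Fac.coord {π : Module.End ℚ B} (h : Fac v π) (i j : ι) :
    ∃ k, v k ∘ₗ π = v i ∘ₗ π ∧ ∀ ρ : Module.End ℚ B, π * ρ = 0 → v k ∘ₗ ρ = v j ∘ₗ ρ := by
  obtain ⟨k, hk⟩ := h.swap i j
  refine ⟨k, ?_, fun ρ hρ => ?_⟩
  · refine LinearMap.ext fun x => ?_
    have h1 := hk (π x)
    rw [h.pp] at h1
    show v k (π x) = v i (π x)
    linarith
  · refine LinearMap.ext fun x => ?_
    have h1 := hk (ρ x)
    have h2 : π (ρ x) = 0 := LinearMap.congr_fun hρ x
    rw [h2, map_zero, map_zero, sub_zero] at h1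
    show v k (ρ x) = v j (ρ x)
    linarith

open Classical in
theorem prod_img {π ρ : Module.End ℚ B} (h : Fac v π) (hπρ : π * ρ = 0) :
    (univ.image fun i => ((v i ∘ₗ π : B →ₗ[ℚ] ℚ), (v i ∘ₗ ρ : B →ₗ[ℚ] ℚ))) =
      (univ.image fun i => (v i ∘ₗ π : B →ₗ[ℚ] ℚ)) ×ˢ
        (univ.image fun i => (v i ∘ₗ ρ : B →ₗ[ℚ] ℚ)) := by
  ext ⟨a, b⟩
  simp only [Finset.mem_image, Finset.mem_univ, true_and, Finset.mem_product, Prod.mk.injEq]
  constructor
  · rintro ⟨i, h1, h2⟩
    exact ⟨⟨i, h1⟩, ⟨i, h2⟩⟩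
  · rintro ⟨⟨i, rfl⟩, ⟨j, rfl⟩⟩
    obtain ⟨k, h1, h2⟩ := h.coord i j
    exact ⟨k, h1, h2 ρ hπρ⟩

theorem N_add {π ρ : Module.End ℚ B} (h : Fac v π) (h' : Fac v ρ) (hπρ : π * ρ = 0)
    (hρπ : ρ * π = 0) : N v (π + ρ) = N v π * N v ρ := by
  classical
  unfold N
  rw [← Finset.card_product, ← prod_img h hπρ]
  refine img_card_eq _ _ fun i j => ?_
  simp only [Prod.mk.injEq]
  constructor
  · rintro ⟨h1, h2⟩
    rw [LinearMap.comp_add, LinearMap.comp_add, h1, h2]
  · intro h1
    constructor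
    · refine LinearMap.ext fun x => ?_
      have h2 := LinearMap.congr_fun h1 (π x)
      have h3 : π (π x) = π x := h.pp x
      have h4 : ρ (π x) = 0 := LinearMap.congr_fun hρπ x
      simpa [h3, h4] using h2
    · refine LinearMap.ext fun x => ?_
      have h2 := LinearMap.congr_fun h1 (ρ x)
      have h3 : ρ (ρ x) = ρ x := h'.pp x
      have h4 : π (ρ x) = 0 := LinearMap.congr_fun hπρ x
      simpa [h3, h4] using h2

theorem N_one (hinj : Function.Injective v) : N v 1 = Fintype.card ι := by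
  classical
  unfold N
  rw [← Finset.card_univ]
  apply Finset.card_image_of_injective
  intro i j hij
  apply hinj
  exact hij

theorem N_zero [Nonempty ι] : N v 0 = 1 := by
  classical
  unfold N
  have : (univ.image fun i => (v i ∘ₗ (0 : Module.End ℚ B) : B →ₗ[ℚ] ℚ)) = {0} := by
    ext a
    simp only [Finset.mem_image, Finset.mem_univ, true_and, Finset.mem_singleton]
    constructor
    · rintro ⟨i, rfl⟩
      exact LinearMap.comp_zero _
    · rintro rfl
      exact ⟨Classical.arbitrary ι, LinearMap.comp_zero _⟩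
  rw [this, Finset.card_singleton]

/-- Elements of the range of a factor: the level sets. -/
theorem count_dvd (hinj : Function.Injective v) {π : Module.End ℚ B} (h : Fac v π)
    (x : B) (hx : π x = x) (c : ℚ) : N v (1 - π) ∣ (univ.filter fun i => v i x = c).card := by
  classical
  have h0 : π * (1 - π) = 0 := by
    rw [mul_sub, mul_one, h.idem, sub_self]
  have h1 := prod_img h h0
  have h2 : (univ.filter fun i => v i x = c).card =
      ((univ.image fun i => (v i ∘ₗ π : B →ₗ[ℚ] ℚ)).filter (fun a => a x = c) ×ˢ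
        (univ.image fun i => (v i ∘ₗ (1 - π) : B →ₗ[ℚ] ℚ))).card := by
    have h3 : ((univ.image fun i => (v i ∘ₗ π : B →ₗ[ℚ] ℚ)).filter (fun a => a x = c) ×ˢ
        (univ.image fun i => (v i ∘ₗ (1 - π) : B →ₗ[ℚ] ℚ))) =
        (univ.filter fun i => v i x = c).image
          (fun i => ((v i ∘ₗ π : B →ₗ[ℚ] ℚ), (v i ∘ₗ (1 - π) : B →ₗ[ℚ] ℚ))) := by
      ext ⟨a, b⟩
      constructor
      · intro hab
        rw [Finset.mem_product, Finset.mem_filter] at hab
        obtain ⟨⟨ha, hac⟩, hb⟩ := hab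
        have : (a, b) ∈ (univ.image fun i => (v i ∘ₗ π : B →ₗ[ℚ] ℚ)) ×ˢ
            (univ.image fun i => (v i ∘ₗ (1 - π) : B →ₗ[ℚ] ℚ)) :=
          Finset.mem_product.mpr ⟨ha, hb⟩
        rw [← h1] at this
        obtain ⟨i, -, hi⟩ := Finset.mem_image.mp this
        rw [Prod.mk.injEq] at hi
        refine Finset.mem_image.mpr ⟨i, ?_, Prod.ext hi.1 hi.2⟩
        rw [Finset.mem_filter]
        refine ⟨Finset.mem_univ _, ?_⟩
        rw [← hac, ← hi.1]
        show _ = v i (π x)
        rw [hx]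
      · intro hab
        obtain ⟨i, hi, hi2⟩ := Finset.mem_image.mp hab
        rw [Prod.mk.injEq] at hi2
        rw [Finset.mem_filter] at hi
        rw [Finset.mem_product, Finset.mem_filter]
        refine ⟨⟨Finset.mem_image.mpr ⟨i, Finset.mem_univ _, hi2.1⟩, ?_⟩,
          Finset.mem_image.mpr ⟨i, Finset.mem_univ _, hi2.2⟩⟩
        show a x = c
        rw [← hi2.1]
        show v i (π x) = c
        rw [hx]
        exact hi.2
    rw [h3, Finset.card_image_of_injective]
    intro i j hij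
    rw [Prod.mk.injEq] at hij
    apply hinj
    refine LinearMap.ext fun y => ?_
    have e1 := LinearMap.congr_fun hij.1 y
    have e2 := LinearMap.congr_fun hij.2 y
    simp only [LinearMap.comp_apply, LinearMap.sub_apply, Module.End.one_apply, map_sub] at e1 e2
    linarith
  rw [h2, Finset.card_product]
  exact Dvd.intro_left _ rfl

end size

end Pool.Agent.FT
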