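import Pool.Agent.Lib_helper48.FT.C1

/-! Frobenius tori: the finest product decomposition. -/

set_option autoImplicit false
set_option linter.unusedSectionVars false

namespace Pool.Agent.FT

open Module Finset

variable {ι : Type*} [Fintype ι] [DecidableEq ι] {B : Type*} [AddCommGroup B] [Module ℚ B]
  {v : ι → B →ₗ[ℚ] ℚ}

/-- An orthogonal family of nonzero factors with sum one. -/
structure PA (v : ι → B →ₗ[ℚ] ℚ) (A : Finset (Module.End ℚ B)) : Prop where
  fac : ∀ e ∈ A, Fac v e
  ne : ∀ e ∈ A, e ≠ 0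
  orth : ∀ e ∈ A, ∀ f ∈ A, e ≠ f → e * f = 0
  sum : ∑ e ∈ A, e = 1

/-- The finest one. -/
structure Atoms (v : ι → B →ₗ[ℚ] ℚ) (A : Finset (Module.End ℚ B)) : Prop extends PA v A where
  atom : ∀ e ∈ A, ∀ ρ : Module.End ℚ B, Fac v ρ → ρ * e = 0 ∨ ρ * e = e

theorem PA.card_le [FiniteDimensional ℚ B] {A : Finset (Module.End ℚ B)} (h : PA v A) :
    A.card ≤ finrank ℚ B := by
  classical
  have hx : ∀ e : A, ∃ x : B, (e : Module.End ℚ B) x ≠ 0 := by
    intro e
    by_contra hcon
    push Not at hcon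
    exact h.ne e e.2 (LinearMap.ext hcon)
  choose x hx using hx
  have hli : LinearIndependent ℚ (fun e : A => (e : Module.End ℚ B) (x e)) := by
    rw [Fintype.linearIndependent_iff]
    intro c hc e
    have h1 := congrArg (e : Module.End ℚ B) hc
    rw [map_sum, map_zero, Finset.sum_eq_single e] at h1
    · rw [map_smul] at h1
      have h2 : (e : Module.End ℚ B) ((e : Module.End ℚ B) (x e)) = (e : Module.End ℚ B) (x e) :=
        (h.fac e e.2).pp _
      rw [h2] at h1
      exact (smul_eq_zero.mp h1).resolve_right (hx e)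
    · intro f _ hfe
      rw [map_smul]
      have h2 : (e : Module.End ℚ B) ((f : Module.End ℚ B) (x f)) = 0 :=
        LinearMap.congr_fun (h.orth e e.2 f f.2 (fun h => hfe (Subtype.ext h).symm)) _
      rw [h2, smul_zero]
    · intro h; exact absurd (Finset.mem_univ _) h
  have := hli.fintype_card_le_finrank
  rwa [Fintype.card_coe] at this

theorem PA.split {A : Finset (Module.End ℚ B)} (h : PA v A)
    (comm : ∀ π ρ : Module.End ℚ B, Fac v π → Fac v ρ → π * ρ = ρ * π)
    {e : Module.End ℚ B} (he : e ∈ A) {ρ : Module.End ℚ B} (hρ : Fac v ρ) (h0 : ρ * e ≠ 0)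
    (h1 : ρ * e ≠ e) : ∃ A' : Finset (Module.End ℚ B), PA v A' ∧ A'.card = A.card + 1 := by
  classical
  have fe := h.fac e he
  have hc := comm ρ e hρ fe
  have fa : Fac v (ρ * e) := hρ.mul_of_comm fe hc
  have fb : Fac v (e - ρ * e) := by
    have h2 : e - ρ * e = (1 - ρ) * e := by noncomm_ring
    rw [h2]
    exact hρ.compl.mul_of_comm fe (comm _ _ hρ.compl fe)
  have aa : (ρ * e) * (ρ * e) = ρ * e := fa.idem
  have ab : (ρ * e) * (e - ρ * e) = 0 := by
    rw [mul_sub, aa, mul_assoc, fe.idem, sub_self]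
  have ba : (e - ρ * e) * (ρ * e) = 0 := by
    rw [comm _ _ fb fa, ab]
  have ea : ∀ f ∈ A, f ≠ e → f * (ρ * e) = 0 ∧ (ρ * e) * f = 0 ∧ f * (e - ρ * e) = 0 ∧
      (e - ρ * e) * f = 0 := by
    intro f hf hfe
    have h2 := h.orth f hf e he hfe
    have h3 := h.orth e he f hf (Ne.symm hfe)
    have h4 := comm ρ f hρ (h.fac f hf)
    have e1 : f * (ρ * e) = 0 := by
      rw [← mul_assoc, ← h4, mul_assoc, h2, mul_zero]
    have e2 : (ρ * e) * f = 0 := by
      rw [mul_assoc, h3, mul_zero]
    refine ⟨e1, e2, ?_, ?_⟩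
    · rw [mul_sub, h2, e1, sub_self]
    · rw [sub_mul, h3, e2, sub_self]
  have a0 : ρ * e ≠ 0 := h0
  have b0 : e - ρ * e ≠ 0 := fun h => h1 (sub_eq_zero.mp h).symm
  have hab : ρ * e ≠ e - ρ * e := by
    intro h2
    rw [← h2, aa] at ab
    exact a0 ab
  have haA : ρ * e ∉ A.erase e := by
    intro hmem
    rw [Finset.mem_erase] at hmem
    have := (ea _ hmem.2 hmem.1).1
    rw [aa] at this
    exact a0 this
  have hbA : e - ρ * e ∉ A.erase e := by
    intro hmem
    rw [Finset.mem_erase] at hmem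
    have := (ea _ hmem.2 hmem.1).2.2.1
    rw [fb.idem] at this
    exact b0 this
  have haA' : ρ * e ∉ insert (e - ρ * e) (A.erase e) := by
    rw [Finset.mem_insert]
    push Not
    exact ⟨hab, haA⟩
  refine ⟨insert (ρ * e) (insert (e - ρ * e) (A.erase e)), ⟨?_, ?_, ?_, ?_⟩, ?_⟩
  · intro f hf
    rw [Finset.mem_insert, Finset.mem_insert, Finset.mem_erase] at hf
    rcases hf with rfl | rfl | ⟨-, hf⟩
    · exact fa
    · exact fb
    · exact h.fac f hf
  · intro f hf
    rw [Finset.mem_insert, Finset.mem_insert, Finset.mem_erase] at hf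
    rcases hf with rfl | rfl | ⟨-, hf⟩
    · exact a0
    · exact b0
    · exact h.ne f hf
  · intro f hf f' hf' hne
    rw [Finset.mem_insert, Finset.mem_insert, Finset.mem_erase] at hf hf'
    rcases hf with rfl | rfl | ⟨hfe, hf⟩
    · rcases hf' with rfl | rfl | ⟨hfe', hf'⟩
      · exact absurd rfl hne
      · exact ab
      · exact (ea f' hf' hfe').2.1
    · rcases hf' with rfl | rfl | ⟨hfe', hf'⟩
      · exact ba
      · exact absurd rfl hne
      · exact (ea f' hf' hfe').2.2.2
    · rcases hf' with rfl | rfl | ⟨hfe', hf'⟩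
      · exact (ea f hf hfe).1
      · exact (ea f hf hfe).2.2.1
      · exact h.orth f hf f' hf' hne
  · rw [Finset.sum_insert haA', Finset.sum_insert hbA, ← add_assoc]
    have h2 : ρ * e + (e - ρ * e) = e := by abel
    rw [h2]
    have h3 := Finset.add_sum_erase A (fun f => f) he
    exact h3.trans h.sum
  · rw [Finset.card_insert_of_notMem haA', Finset.card_insert_of_notMem hbA,
      Finset.card_erase_of_mem he]
    have : 0 < A.card := Finset.card_pos.mpr ⟨e, he⟩
    omega

theorem exists_atoms [FiniteDimensional ℚ B] [Nontrivial B]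
    (comm : ∀ π ρ : Module.End ℚ B, Fac v π → Fac v ρ → π * ρ = ρ * π) :
    ∃ A : Finset (Module.End ℚ B), Atoms v A := by
  classical
  have key : ∀ (n : ℕ) (A : Finset (Module.End ℚ B)), PA v A → finrank ℚ B - A.card = n →
      ∃ A : Finset (Module.End ℚ B), Atoms v A := by
    intro n
    induction n using Nat.strong_induction_on with
    | _ n ih =>
      intro A hA hn
      by_cases hat : ∀ e ∈ A, ∀ ρ : Module.End ℚ B, Fac v ρ → ρ * e = 0 ∨ ρ * e = e
      · exact ⟨A, ⟨hA, hat⟩⟩
      · push Not at hat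
        obtain ⟨e, he, ρ, hρ, h0, h1⟩ := hat
        obtain ⟨A', hA', hc⟩ := hA.split comm he hρ h0 h1
        have h2 := hA'.card_le
        exact ih _ (by omega) A' hA' rfl
  refine key _ {1} ⟨?_, ?_, ?_, ?_⟩ rfl
  · intro e he
    rw [Finset.mem_singleton] at he
    rw [he]
    exact Fac.one
  · intro e he
    rw [Finset.mem_singleton] at he
    rw [he]
    exact one_ne_zero
  · intro e he f hf hne
    rw [Finset.mem_singleton] at he hf
    exact absurd (he.trans hf.symm) hne
  · rw [Finset.sum_singleton]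

/-- Sums of orthogonal factors. -/
theorem sum_fac {A : Finset (Module.End ℚ B)} (hf : ∀ e ∈ A, Fac v e)
    (ho : ∀ e ∈ A, ∀ f ∈ A, e ≠ f → e * f = 0) (hne : Nonempty ι) :
    Fac v (∑ e ∈ A, e) ∧ N v (∑ e ∈ A, e) = ∏ e ∈ A, N v e := by
  classical
  induction A using Finset.induction_on with
  | empty =>
    rw [Finset.sum_empty, Finset.prod_empty]
    exact ⟨Fac.zero, N_zero⟩
  | insert e A he ih =>
    obtain ⟨h1, h2⟩ := ih (fun f hf' => hf f (Finset.mem_insert_of_mem hf'))
      (fun f hf' f' hf'' => ho f (Finset.mem_insert_of_mem hf') f' (Finset.mem_insert_of_mem hf''))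
    have fe := hf e (Finset.mem_insert_self _ _)
    have e1 : e * ∑ f ∈ A, f = 0 := by
      rw [Finset.mul_sum]
      refine Finset.sum_eq_zero fun f hf' => ?_
      exact ho e (Finset.mem_insert_self _ _) f (Finset.mem_insert_of_mem hf')
        (fun h => he (h ▸ hf'))
    have e2 : (∑ f ∈ A, f) * e = 0 := by
      rw [Finset.sum_mul]
      refine Finset.sum_eq_zero fun f hf' => ?_
      exact ho f (Finset.mem_insert_of_mem hf') e (Finset.mem_insert_self _ _)
        (fun h => he (h ▸ hf'))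
    rw [Finset.sum_insert he, Finset.prod_insert he]
    constructor
    · have h3 : e + ∑ f ∈ A, f = 1 - (1 - e) * (1 - ∑ f ∈ A, f) := by
        have : (1 - e) * (1 - ∑ f ∈ A, f) = 1 - e - (∑ f ∈ A, f) + e * ∑ f ∈ A, f := by
          noncomm_ring
        rw [this, e1]
        abel
      rw [h3]
      refine Fac.compl (Fac.mul_of_comm fe.compl h1.compl ?_)
      have a1 : (1 - e) * (1 - ∑ f ∈ A, f) = 1 - e - (∑ f ∈ A, f) + e * ∑ f ∈ A, f := by
        noncomm_ring
      have a2 : (1 - ∑ f ∈ A, f) * (1 - e) = 1 - e - (∑ f ∈ A, f) + (∑ f ∈ A, f) * e := by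
        noncomm_ring
      rw [a1, a2, e1, e2]
    · rw [N_add fe h1 e1 e2, h2]

end Pool.Agent.FT
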