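import Pool.Agent.Lib_helper48.FT.C2

/-! Frobenius tori: differences of points and the functions chi. -/

set_option autoImplicit false
set_option linter.unusedSectionVars false

namespace Pool.Agent.FT

open Module Finset

variable {ι : Type*} [Fintype ι] [DecidableEq ι] {B : Type*} [AddCommGroup B] [Module ℚ B]
  {v : ι → B →ₗ[ℚ] ℚ}

/-- i is at the bottom of the translation by α. -/
def Bot (v : ι → B →ₗ[ℚ] ℚ) (α : B →ₗ[ℚ] ℚ) (i : ι) : Prop := ∃ j, v j - v i = α

/-- i is at the top of the translation by α. -/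
def Top (v : ι → B →ₗ[ℚ] ℚ) (α : B →ₗ[ℚ] ℚ) (i : ι) : Prop := ∃ j, v i - v j = α

/-- The data of a function chi. -/
structure Chi (v : ι → B →ₗ[ℚ] ℚ) (h c : B) (α : B →ₗ[ℚ] ℚ) (κ : ℚ) : Prop where
  one : α h = 1
  ex : ∃ i, Bot v α i
  bot : ∀ i, Bot v α i → v i c + κ = -1
  top : ∀ i, Top v α i → v i c + κ = 1
  bot' : ∀ i, v i c + κ = -1 → Bot v α i
  top' : ∀ i, v i c + κ = 1 → Top v α i
  val : ∀ i, v i c + κ = -1 ∨ v i c + κ = 0 ∨ v i c + κ = 1

theorem translate (S : Finset (B →ₗ[ℚ] ℚ)) (hS : S.Nonempty) (β : B →ₗ[ℚ] ℚ)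
    (h : ∀ ψ ∈ S, ψ + β ∈ S) : β = 0 := by
  by_contra hne
  obtain ⟨x, hx⟩ : ∃ x, β x ≠ 0 := by
    by_contra hcon
    push Not at hcon
    exact hne (LinearMap.ext hcon)
  rcases lt_or_gt_of_ne hx with hlt | hgt
  · obtain ⟨ψ, hψ, hmin⟩ := S.exists_min_image (fun ψ => ψ x) hS
    have := hmin _ (h ψ hψ)
    rw [LinearMap.add_apply] at this
    linarith
  · obtain ⟨ψ, hψ, hmax⟩ := S.exists_max_image (fun ψ => ψ x) hS
    have := hmax _ (h ψ hψ)
    rw [LinearMap.add_apply] at this
    linarith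

/-- If c does not see the factor then neither does α. -/
theorem Chi.translation {h c : B} {α : B →ₗ[ℚ] ℚ} {κ : ℚ} (hc : Chi v h c α κ)
    {π : Module.End ℚ B} (fp : Fac v π) (h0 : π c = 0) : α ∘ₗ π = 0 := by
  classical
  obtain ⟨k0, hk0⟩ := hc.ex
  have : Nonempty ι := ⟨k0⟩
  refine translate (univ.image fun i => (v i ∘ₗ π : B →ₗ[ℚ] ℚ)) ⟨_, Finset.mem_image_of_mem _
    (Finset.mem_univ k0)⟩ _ ?_
  intro ψ hψ
  obtain ⟨j, -, rfl⟩ := Finset.mem_image.mp hψ
  obtain ⟨k, hk⟩ := fp.swap j k0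
  have h1 : v k c = v k0 c := by
    have := hk c
    rw [h0, map_zero, map_zero, sub_zero] at this
    linarith
  have h2 : Bot v α k := hc.bot' k (by rw [h1]; exact hc.bot k0 hk0)
  obtain ⟨l, hl⟩ := h2
  refine Finset.mem_image.mpr ⟨l, Finset.mem_univ _, ?_⟩
  refine LinearMap.ext fun x => ?_
  have e1 := hk (π x)
  rw [fp.pp] at e1
  have e2 := LinearMap.congr_fun hl (π x)
  rw [LinearMap.sub_apply] at e2
  show v l (π x) = v j (π x) + α (π x)
  linarith

/-- A mixed chi forces a two element factor. -/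
theorem Chi.mixed {h c : B} {α : B →ₗ[ℚ] ℚ} {κ : ℚ} (hc : Chi v h c α κ)
    (hv : ∀ x : B, (∀ i j, v i x = v j x) → x = 0)
    {f : Module.End ℚ B} (ff : Fac v f)
    (atom : ∀ ρ : Module.End ℚ B, Fac v ρ → ρ * f = 0 ∨ ρ * f = f) (h1 : f c ≠ 0)
    (h2 : (1 - f) c ≠ 0) : N v f = 2 := by
  classical
  obtain ⟨k0, hk0⟩ := hc.ex
  -- the two summands
  obtain ⟨c1, hc1⟩ : ∃ c1 : ι → ℚ, ∀ i, c1 i = v i (f c) := ⟨_, fun _ => rfl⟩
  obtain ⟨c2, hc2⟩ : ∃ c2 : ι → ℚ, ∀ i, c2 i = v i ((1 - f) c) + κ := ⟨_, fun _ => rfl⟩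
  have hsum : ∀ i, c1 i + c2 i = v i c + κ := by
    intro i
    rw [hc1, hc2]
    simp only [LinearMap.sub_apply, Module.End.one_apply, map_sub]
    ring
  have hswap : ∀ i j, ∃ k, c1 k = c1 i ∧ c2 k = c2 j ∧ ∀ x, v k x - v j x = v i (f x) - v j (f x) := by
    intro i j
    obtain ⟨k, hk⟩ := ff.swap i j
    refine ⟨k, ?_, ?_, hk⟩
    · rw [hc1, hc1]
      have := hk (f c)
      rw [ff.pp] at this
      linarith
    · rw [hc2, hc2]
      have := hk ((1 - f) c)
      have e : f ((1 - f) c) = 0 := by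
        simp [ff.pp]
      rw [e, map_zero, map_zero, sub_zero] at this
      linarith
  obtain ⟨a, b, i1, j1, ha, hb, hab⟩ : ∃ a b i1 j1, c1 i1 = a ∧ c1 j1 = b ∧ a < b := by
    by_contra hcon
    push Not at hcon
    apply h1
    apply hv
    intro i j
    have e1 := hcon _ _ i j rfl rfl
    have e2 := hcon _ _ j i rfl rfl
    rw [← hc1, ← hc1]
    linarith
  obtain ⟨p, q, i2, j2, hp, hq, hpq⟩ : ∃ p q i2 j2, c2 i2 = p ∧ c2 j2 = q ∧ p < q := by
    by_contra hcon
    push Not at hcon
    apply h2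
    apply hv
    intro i j
    have e1 := hcon _ _ i j rfl rfl
    have e2 := hcon _ _ j i rfl rfl
    rw [hc2, hc2] at e1 e2
    linarith
  have hval : ∀ i j, c1 i + c2 j = -1 ∨ c1 i + c2 j = 0 ∨ c1 i + c2 j = 1 := by
    intro i j
    obtain ⟨k, h3, h4, -⟩ := hswap i j
    rw [← h3, ← h4, hsum]
    exact hc.val k
  have eap : a + p = -1 ∧ b + q = 1 ∧ b + p = 0 ∧ a + q = 0 := by
    have g1 := hval i1 i2
    have g2 := hval i1 j2
    have g3 := hval j1 i2
    have g4 := hval j1 j2
    rw [ha, hp] at g1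
    rw [ha, hq] at g2
    rw [hb, hp] at g3
    rw [hb, hq] at g4
    refine ⟨?_, ?_, ?_, ?_⟩ <;> rcases g1 with g1 | g1 | g1 <;> rcases g2 with g2 | g2 | g2 <;>
      rcases g3 with g3 | g3 | g3 <;> rcases g4 with g4 | g4 | g4 <;> linarith
  obtain ⟨eap, ebq, ebp, eaq⟩ := eap
  have hc1v : ∀ i, c1 i = a ∨ c1 i = b := by
    intro i
    have g1 := hval i i2
    have g2 := hval i j2
    rw [hp] at g1
    rw [hq] at g2
    rcases g1 with g1 | g1 | g1
    · left; linarith
    · right; linarith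
    · rcases g2 with g2 | g2 | g2 <;> linarith
  have hc2v : ∀ i, c2 i = p ∨ c2 i = q := by
    intro i
    have g1 := hval i1 i
    have g2 := hval j1 i
    rw [ha] at g1
    rw [hb] at g2
    rcases g1 with g1 | g1 | g1
    · left; linarith
    · right; linarith
    · rcases g2 with g2 | g2 | g2 <;> linarith
  -- bottoms and tops
  have hbot : ∀ i, Bot v α i → c1 i = a ∧ c2 i = p := by
    intro i hi
    have g := hc.bot i hi
    rw [← hsum] at g
    rcases hc1v i with g1 | g1 <;> rcases hc2v i with g2 | g2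
    · exact ⟨g1, g2⟩
    · rw [g1, g2] at g; linarith
    · rw [g1, g2] at g; linarith
    · rw [g1, g2] at g; linarith
  have htop : ∀ i, Top v α i → c1 i = b ∧ c2 i = q := by
    intro i hi
    have g := hc.top i hi
    rw [← hsum] at g
    rcases hc1v i with g1 | g1 <;> rcases hc2v i with g2 | g2
    · rw [g1, g2] at g; linarith
    · rw [g1, g2] at g; linarith
    · rw [g1, g2] at g; linarith
    · exact ⟨g1, g2⟩
  have hαf : α (f c) = 1 := by
    obtain ⟨l, hl⟩ := hk0
    have g1 := (hbot k0 ⟨l, hl⟩).1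
    have g2 := (htop l ⟨k0, hl⟩).1
    have g3 := LinearMap.congr_fun hl (f c)
    rw [LinearMap.sub_apply, ← hc1, ← hc1, g1, g2] at g3
    linarith
  -- the rank one factor
  let f' : Module.End ℚ B :=
    { toFun := fun x => α (f x) • f c
      map_add' := fun x y => by rw [map_add, map_add, add_smul]
      map_smul' := fun r x => by rw [map_smul, map_smul, smul_eq_mul, mul_smul]; rfl }
  have hf' : ∀ x, f' x = α (f x) • f c := fun _ => rfl
  have ff' : Fac v f' := by
    refine ⟨?_, ?_⟩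
    · refine LinearMap.ext fun x => ?_
      rw [Module.End.mul_apply, hf', hf', map_smul, map_smul, ff.pp, hαf, smul_eq_mul, mul_one]
    · intro i j
      have hval' : ∀ x, v i (f' x) - v j (f' x) = α (f x) * (c1 i - c1 j) := by
        intro x
        rw [hf', map_smul, map_smul, smul_eq_mul, smul_eq_mul, hc1, hc1]
        ring
      simp only [hval']
      rcases hc1v i with g1 | g1 <;> rcases hc1v j with g2 | g2
      · exact ⟨j, fun x => by rw [g1, g2]; ring⟩
      · -- low, high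
        obtain ⟨k1, e1, e2, e3⟩ := hswap j j2
        have : Top v α k1 := hc.top' k1 (by rw [← hsum, e1, e2, g2, hq, ebq])
        obtain ⟨l, hl⟩ := this
        obtain ⟨k, hk⟩ := ff.swap l j
        refine ⟨k, fun x => ?_⟩
        rw [hk x, g1, g2]
        have e4 := e3 (f x)
        rw [ff.pp] at e4
        have e5 := LinearMap.congr_fun hl (f x)
        rw [LinearMap.sub_apply] at e5
        have e6 : b - a = 1 := by linarith
        have e7 : a - b = -1 := by linarith
        rw [e7]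
        linarith
      · -- high, low
        obtain ⟨k1, e1, e2, e3⟩ := hswap j i2
        have : Bot v α k1 := hc.bot' k1 (by rw [← hsum, e1, e2, g2, hp, eap])
        obtain ⟨l, hl⟩ := this
        obtain ⟨k, hk⟩ := ff.swap l j
        refine ⟨k, fun x => ?_⟩
        rw [hk x, g1, g2]
        have e4 := e3 (f x)
        rw [ff.pp] at e4
        have e5 := LinearMap.congr_fun hl (f x)
        rw [LinearMap.sub_apply] at e5
        have e6 : b - a = 1 := by linarith
        rw [e6]
        linarith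
      · exact ⟨j, fun x => by rw [g1, g2]; ring⟩
  have hf'f : f' * f = f' := by
    refine LinearMap.ext fun x => ?_
    rw [Module.End.mul_apply, hf', hf', ff.pp]
  have hff : f' = f := by
    rcases atom f' ff' with g | g
    · exfalso
      rw [hf'f] at g
      have := LinearMap.congr_fun g c
      rw [hf', hαf, one_smul] at this
      exact h1 this
    · rw [← hf'f, g]
  -- count
  have hvi : ∀ i, v i ∘ₗ f = c1 i • (α ∘ₗ f) := by
    intro i
    refine LinearMap.ext fun x => ?_
    have : f x = α (f x) • f c := by rw [← hf', hff]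
    show v i (f x) = c1 i * α (f x)
    rw [this, map_smul, smul_eq_mul, ← hc1, map_smul, smul_eq_mul, hαf, mul_one, mul_comm]
  have hne : a • (α ∘ₗ f) ≠ b • (α ∘ₗ f) := by
    intro g
    have := LinearMap.congr_fun g c
    simp only [LinearMap.smul_apply, LinearMap.comp_apply, hαf, smul_eq_mul, mul_one] at this
    exact hab.ne this
  unfold N
  have : (univ.image fun i => (v i ∘ₗ f : B →ₗ[ℚ] ℚ)) = {a • (α ∘ₗ f), b • (α ∘ₗ f)} := by
    ext ψ
    rw [Finset.mem_image, Finset.mem_insert, Finset.mem_singleton]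
    constructor
    · rintro ⟨i, -, rfl⟩
      rw [hvi]
      rcases hc1v i with g | g
      · left; rw [g]
      · right; rw [g]
    · rintro (rfl | rfl)
      · exact ⟨i1, Finset.mem_univ _, by rw [hvi, ha]⟩
      · exact ⟨j1, Finset.mem_univ _, by rw [hvi, hb]⟩
  rw [this, Finset.card_pair hne]

end Pool.Agent.FT
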