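import Pool.Agent.Lib_helper48.FT.C3

/-! Frobenius tori: the equal size decomposition. -/

set_option autoImplicit false
set_option linter.unusedSectionVars false

namespace Pool.Agent.FT

open Module Finset

variable {ι : Type*} [Fintype ι] [DecidableEq ι] {B : Type*} [AddCommGroup B] [Module ℚ B]
  {v : ι → B →ₗ[ℚ] ℚ}

/-- A two valued function is seen by one factor. -/
theorem two_valued (hv : ∀ x : B, (∀ i j, v i x = v j x) → x = 0)
    {h : B} {a : ℚ} (two : ∀ i, v i h = a ∨ v i h = a + 1) {e : Module.End ℚ B} (fe : Fac v e)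
    (he : e h ≠ 0) : e h = h := by
  by_contra hne
  have h2 : (1 - e) h ≠ 0 := by
    intro h3
    apply hne
    have : h - e h = 0 := h3
    exact (sub_eq_zero.mp this).symm
  obtain ⟨i1, j1, hlt1⟩ : ∃ i1 j1, v i1 (e h) < v j1 (e h) := by
    by_contra hcon
    push Not at hcon
    exact he (hv _ fun i j => le_antisymm (hcon j i) (hcon i j))
  obtain ⟨i2, j2, hlt2⟩ : ∃ i2 j2, v i2 ((1 - e) h) < v j2 ((1 - e) h) := by
    by_contra hcon
    push Not at hcon
    exact h2 (hv _ fun i j => le_antisymm (hcon j i) (hcon i j))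
  have hval : ∀ i j, v i (e h) + v j ((1 - e) h) = a ∨ v i (e h) + v j ((1 - e) h) = a + 1 := by
    intro i j
    obtain ⟨k, hk⟩ := fe.swap i j
    have h3 := hk (e h)
    rw [fe.pp] at h3
    have h4 := hk ((1 - e) h)
    have h5 : e ((1 - e) h) = 0 := by simp [fe.pp]
    rw [h5, map_zero, map_zero, sub_zero] at h4
    have h6 : v k h = v k (e h) + v k ((1 - e) h) := by
      simp only [LinearMap.sub_apply, Module.End.one_apply, map_sub]
      ring
    have h7 := two k
    have h8 : v i (e h) + v j ((1 - e) h) = v k h := by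
      rw [h6]
      linarith
    rw [h8]
    exact h7
  have g1 := hval i1 i2
  have g2 := hval i1 j2
  have g3 := hval j1 i2
  have g4 := hval j1 j2
  rcases g1 with g1 | g1 <;> rcases g2 with g2 | g2 <;> rcases g3 with g3 | g3 <;>
    rcases g4 with g4 | g4 <;> linarith

/-- The atom of h and its size. -/
theorem exists_eh (hv : ∀ x : B, (∀ i j, v i x = v j x) → x = 0) {A : Finset (Module.End ℚ B)}
    (hA : Atoms v A) {h : B} (h0 : h ≠ 0) {a : ℚ} (two : ∀ i, v i h = a ∨ v i h = a + 1) :
    ∃ e ∈ A, e h = h ∧ 2 ≤ N v e := by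
  classical
  have h1 : h = ∑ e ∈ A, e h := by
    have := LinearMap.congr_fun hA.sum h
    rw [LinearMap.sum_apply] at this
    exact this.symm
  obtain ⟨e, he, hne⟩ : ∃ e ∈ A, e h ≠ 0 := by
    by_contra hcon
    push Not at hcon
    apply h0
    rw [h1]
    exact Finset.sum_eq_zero hcon
  have h2 := two_valued hv two (hA.fac e he) hne
  refine ⟨e, he, h2, ?_⟩
  obtain ⟨i, j, hij⟩ : ∃ i j, v i h ≠ v j h := by
    by_contra hcon
    push Not at hcon
    exact h0 (hv _ hcon)
  unfold N
  have h3 : ({(v i ∘ₗ e : B →ₗ[ℚ] ℚ), (v j ∘ₗ e : B →ₗ[ℚ] ℚ)} : Finset (B →ₗ[ℚ] ℚ)) ⊆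
      univ.image fun i => (v i ∘ₗ e : B →ₗ[ℚ] ℚ) := by
    intro ψ hψ
    rw [Finset.mem_insert, Finset.mem_singleton] at hψ
    rcases hψ with rfl | rfl
    · exact Finset.mem_image_of_mem _ (Finset.mem_univ _)
    · exact Finset.mem_image_of_mem _ (Finset.mem_univ _)
  have h4 := Finset.card_le_card h3
  rw [Finset.card_pair] at h4
  · convert h4
  · intro h5
    apply hij
    have := LinearMap.congr_fun h5 h
    rw [LinearMap.comp_apply, LinearMap.comp_apply, h2] at this
    exact this

/-- The sizes of the atoms seeing a chi. -/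
theorem Chi.size (hv : ∀ x : B, (∀ i j, v i x = v j x) → x = 0) {A : Finset (Module.End ℚ B)}
    (hA : Atoms v A) {h : B} {eh : Module.End ℚ B} (hm : eh ∈ A) (eeh : eh h = h)
    {c : B} {α : B →ₗ[ℚ] ℚ} {κ : ℚ} (hc : Chi v h c α κ) {f : Module.End ℚ B} (hf : f ∈ A)
    (h1 : f c ≠ 0) : N v f = N v eh := by
  have h2 : eh c ≠ 0 := by
    intro h3
    have h4 := hc.translation (hA.fac eh hm) h3
    have h5 := LinearMap.congr_fun h4 h
    rw [LinearMap.comp_apply, eeh, hc.one] at h5
    exact one_ne_zero h5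
  by_cases hfe : f = eh
  · rw [hfe]
  have h3 : (1 - f) c ≠ 0 := by
    intro h4
    apply h2
    have h5 : f c = c := by
      have : c - f c = 0 := h4
      exact (sub_eq_zero.mp this).symm
    rw [← h5]
    exact LinearMap.congr_fun (hA.orth eh hm f hf (Ne.symm hfe)) c
  have h4 : (1 - eh) c ≠ 0 := by
    intro h4
    apply h1
    have h5 : eh c = c := by
      have : c - eh c = 0 := h4
      exact (sub_eq_zero.mp this).symm
    rw [← h5]
    exact LinearMap.congr_fun (hA.orth f hf eh hm hfe) c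
  rw [hc.mixed hv (hA.fac f hf) (hA.atom f hf) h1 h3,
    hc.mixed hv (hA.fac eh hm) (hA.atom eh hm) h2 h4]

/-- An element seen only by the members of A' is fixed by their sum. -/
theorem fix_of {A : Finset (Module.End ℚ B)} (hA : PA v A) (p : Module.End ℚ B → Prop)
    [DecidablePred p] {c : B} (hc : ∀ f ∈ A, f c ≠ 0 → p f) : (∑ f ∈ A.filter p, f) c = c := by
  classical
  have h1 : c = ∑ e ∈ A, e c := by
    have := LinearMap.congr_fun hA.sum c
    rw [LinearMap.sum_apply] at this
    exact this.symm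
  rw [LinearMap.sum_apply]
  conv_rhs => rw [h1]
  rw [← Finset.sum_filter_add_sum_filter_not A p]
  rw [left_eq_add]
  refine Finset.sum_eq_zero fun f hf => ?_
  rw [Finset.mem_filter] at hf
  by_contra hne
  exact hf.2 (hc f hf.1 hne)

/-- Transport of factors. -/
theorem Fac.conj (i₀ : ι) (σ : Equiv.Perm ι) (g : B ≃ₗ[ℚ] B)
    (hg : ∀ i x, v i (g x) = v (σ i) x - v (σ i₀) x) {π : Module.End ℚ B} (h : Fac v π) :
    Fac v (g.toLinearMap * π * g.symm.toLinearMap) := by
  refine ⟨?_, fun i j => ?_⟩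
  · refine LinearMap.ext fun x => ?_
    simp [Module.End.mul_apply, h.pp]
  · obtain ⟨k, hk⟩ := h.swap (σ i) (σ j)
    refine ⟨σ.symm k, fun x => ?_⟩
    obtain ⟨y, rfl⟩ := g.surjective x
    have h1 := hk y
    simp only [Module.End.mul_apply, LinearEquiv.coe_coe, LinearEquiv.symm_apply_apply, hg,
      Equiv.apply_symm_apply]
    linarith

theorem N_conj (i₀ : ι) (σ : Equiv.Perm ι) (g : B ≃ₗ[ℚ] B)
    (hg : ∀ i x, v i (g x) = v (σ i) x - v (σ i₀) x) (π : Module.End ℚ B) :
    N v (g.toLinearMap * π * g.symm.toLinearMap) = N v π := by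
  classical
  unfold N
  have h1 : (univ.image fun i => (v i ∘ₗ π : B →ₗ[ℚ] ℚ)) =
      univ.image fun i => (v (σ i) ∘ₗ π : B →ₗ[ℚ] ℚ) := by
    ext ψ
    simp only [Finset.mem_image, Finset.mem_univ, true_and]
    constructor
    · rintro ⟨i, rfl⟩
      exact ⟨σ.symm i, by rw [Equiv.apply_symm_apply]⟩
    · rintro ⟨i, rfl⟩
      exact ⟨σ i, rfl⟩
  rw [h1]
  refine img_card_eq _ _ fun i j => ?_
  constructor
  · intro h2
    refine LinearMap.ext fun x => ?_
    obtain ⟨y, rfl⟩ := g.surjective x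
    have h3 := LinearMap.congr_fun h2 y
    simp only [LinearMap.comp_apply, Module.End.mul_apply, LinearEquiv.coe_coe,
      LinearEquiv.symm_apply_apply, hg] at h3 ⊢
    rw [h3]
  · intro h2
    refine LinearMap.ext fun x => ?_
    have h3 := LinearMap.congr_fun h2 (g x)
    simp only [LinearMap.comp_apply, Module.End.mul_apply, LinearEquiv.coe_coe,
      LinearEquiv.symm_apply_apply, hg] at h3
    show v (σ i) (π x) = v (σ j) (π x)
    linarith

theorem conj_symm (i₀ : ι) (h0 : v i₀ = 0) (σ : Equiv.Perm ι) (g : B ≃ₗ[ℚ] B)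
    (hg : ∀ i x, v i (g x) = v (σ i) x - v (σ i₀) x) :
    ∀ i x, v i (g.symm x) = v (σ.symm i) x - v (σ.symm i₀) x := by
  intro i x
  obtain ⟨y, rfl⟩ := g.surjective x
  rw [LinearEquiv.symm_apply_apply, hg, hg, Equiv.apply_symm_apply, Equiv.apply_symm_apply, h0]
  simp

/-- Conjugates of atoms are atoms. -/
theorem Atoms.conj (comm : ∀ π ρ : Module.End ℚ B, Fac v π → Fac v ρ → π * ρ = ρ * π)
    {A : Finset (Module.End ℚ B)} (hA : Atoms v A) (i₀ : ι) (h0 : v i₀ = 0)
    (σ : Equiv.Perm ι) (g : B ≃ₗ[ℚ] B)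
    (hg : ∀ i x, v i (g x) = v (σ i) x - v (σ i₀) x) {e : Module.End ℚ B} (he : e ∈ A) :
    g.toLinearMap * e * g.symm.toLinearMap ∈ A := by
  classical
  have fe : Fac v (g.toLinearMap * e * g.symm.toLinearMap) := (hA.fac e he).conj i₀ σ g hg
  have gg : g.toLinearMap * g.symm.toLinearMap = 1 := by
    refine LinearMap.ext fun x => ?_
    simp [Module.End.mul_apply]
  have gg' : g.symm.toLinearMap * g.toLinearMap = 1 := by
    refine LinearMap.ext fun x => ?_
    simp [Module.End.mul_apply]
  have ne : g.toLinearMap * e * g.symm.toLinearMap ≠ 0 := by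
    intro h1
    apply hA.ne e he
    have h2 : e = g.symm.toLinearMap * (g.toLinearMap * e * g.symm.toLinearMap) * g.toLinearMap := by
      calc e = (g.symm.toLinearMap * g.toLinearMap) * e * (g.symm.toLinearMap * g.toLinearMap) := by
            rw [gg']; simp
        _ = _ := by noncomm_ring
    rw [h2, h1]
    simp
  have at' : ∀ ρ : Module.End ℚ B, Fac v ρ → ρ * (g.toLinearMap * e * g.symm.toLinearMap) = 0 ∨
      ρ * (g.toLinearMap * e * g.symm.toLinearMap) = g.toLinearMap * e * g.symm.toLinearMap := by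
    intro ρ hρ
    have hρ' : Fac v (g.symm.toLinearMap * ρ * g.symm.symm.toLinearMap) :=
      hρ.conj i₀ σ.symm g.symm (conj_symm i₀ h0 σ g hg)
    rw [LinearEquiv.symm_symm] at hρ'
    have h1 : ρ * (g.toLinearMap * e * g.symm.toLinearMap) =
        g.toLinearMap * ((g.symm.toLinearMap * ρ * g.toLinearMap) * e) * g.symm.toLinearMap := by
      calc ρ * (g.toLinearMap * e * g.symm.toLinearMap) =
          (g.toLinearMap * g.symm.toLinearMap) * ρ * (g.toLinearMap * e * g.symm.toLinearMap) := by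
            rw [gg]; simp
        _ = _ := by noncomm_ring
    rcases hA.atom e he _ hρ' with h2 | h2
    · left
      rw [h1, h2]
      simp
    · right
      rw [h1, h2]
  obtain ⟨f, hf, hne⟩ : ∃ f ∈ A, f * (g.toLinearMap * e * g.symm.toLinearMap) ≠ 0 := by
    by_contra hcon
    push Not at hcon
    apply ne
    calc g.toLinearMap * e * g.symm.toLinearMap =
        (∑ f ∈ A, f) * (g.toLinearMap * e * g.symm.toLinearMap) := by rw [hA.sum, one_mul]
      _ = 0 := by rw [Finset.sum_mul]; exact Finset.sum_eq_zero hcon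
  have h1 := (at' f (hA.fac f hf)).resolve_left hne
  have h2 : g.toLinearMap * e * g.symm.toLinearMap * f = f := by
    refine (hA.atom f hf _ fe).resolve_left ?_
    rw [comm _ _ fe (hA.fac f hf)]
    exact hne
  rw [comm _ _ fe (hA.fac f hf), h1] at h2
  rw [h2]
  exact hf

/-- The main combinatorial statement. -/
theorem main_comb [FiniteDimensional ℚ B] (hinj : Function.Injective v)
    (hv0 : ∀ x : B, (∀ i, v i x = 0) → x = 0) (i₀ : ι) (h0 : v i₀ = 0)
    (f₀ : B) (hf : ∀ i, i ≠ i₀ → 0 < v i f₀)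
    (S : Set (B ≃ₗ[ℚ] B)) (hS : ∀ g ∈ S, ∃ σ : Equiv.Perm ι,
      ∀ i x, v i (g x) = v (σ i) x - v (σ i₀) x)
    (h : B) (hne : h ≠ 0) (a : ℚ) (two : ∀ i, v i h = a ∨ v i h = a + 1)
    (w : B) (hw : w ∈ Submodule.span ℚ ({h} ∪ {c | ∃ α κ, Chi v h c α κ}))
    (gen : ∀ x : B, x ∈ Submodule.span ℚ {y : B | ∃ g ∈ S, y = g w}) :
    (∀ ρ : Module.End ℚ B, Fac v ρ → ρ = 0 ∨ ρ = 1) ∨
      ∃ m k : ℕ, 2 ≤ m ∧ 2 ≤ k ∧ Fintype.card ι = m ^ k ∧
        ∀ c : ℚ, m ^ (k - 1) ∣ (univ.filter fun i => v i h = c).card := by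
  classical
  have hv : ∀ x : B, (∀ i j, v i x = v j x) → x = 0 := by
    intro x hx
    apply hv0
    intro i
    rw [hx i i₀, h0]
    rfl
  have comm : ∀ π ρ : Module.End ℚ B, Fac v π → Fac v ρ → π * ρ = ρ * π :=
    fun π ρ hπ hρ => Fac.comm hv0 i₀ h0 f₀ hf hπ hρ
  have : Nontrivial B := ⟨h, 0, hne⟩
  have hni : Nonempty ι := ⟨i₀⟩
  obtain ⟨A, hA⟩ := exists_atoms (v := v) comm
  obtain ⟨eh, hm, eeh, hm2⟩ := exists_eh hv hA hne two
  obtain ⟨m, hmm⟩ : ∃ m, m = N v eh := ⟨_, rfl⟩
  obtain ⟨E, hE⟩ : ∃ E, E = ∑ f ∈ A.filter (fun f => N v f = m), f := ⟨_, rfl⟩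
  have hehm : eh ∈ A.filter (fun f => N v f = m) := by
    rw [Finset.mem_filter]
    exact ⟨hm, hmm.symm⟩
  have Eh : E h = h := by
    rw [hE]
    refine fix_of hA.toPA _ ?_
    intro f hf' hne'
    by_cases hfe : f = eh
    · rw [hfe]; exact hmm.symm
    · exfalso
      apply hne'
      rw [← eeh]
      exact LinearMap.congr_fun (hA.orth f hf' eh hm hfe) h
  have Ec : ∀ c : B, (∃ α κ, Chi v h c α κ) → E c = c := by
    rintro c ⟨α, κ, hc⟩
    rw [hE]
    refine fix_of hA.toPA _ ?_
    intro f hf' hne'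
    rw [hmm]
    exact hc.size hv hA hm eeh hf' hne'
  have Esp : ∀ x ∈ Submodule.span ℚ ({h} ∪ {c | ∃ α κ, Chi v h c α κ}), E x = x := by
    intro x hx
    induction hx using Submodule.span_induction with
    | mem x hx =>
      rcases hx with hx | hx
      · rw [Set.mem_singleton_iff] at hx
        rw [hx]
        exact Eh
      · exact Ec x hx
    | zero => exact map_zero _
    | add x y _ _ h1 h2 => rw [map_add, h1, h2]
    | smul r x _ h1 => rw [map_smul, h1]
  have Ew : E w = w := Esp w hw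
  have Eg : ∀ g ∈ S, E (g w) = g w := by
    intro g hg
    obtain ⟨σ, hσ⟩ := hS g hg
    have gg' : g.symm.toLinearMap * g.toLinearMap = 1 := by
      refine LinearMap.ext fun x => ?_
      simp [Module.End.mul_apply]
    have inj : ∀ e f : Module.End ℚ B, g.toLinearMap * e * g.symm.toLinearMap =
        g.toLinearMap * f * g.symm.toLinearMap → e = f := by
      intro e f hef
      have e1 : ∀ e : Module.End ℚ B,
          e = g.symm.toLinearMap * (g.toLinearMap * e * g.symm.toLinearMap) * g.toLinearMap := by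
        intro e
        calc e = (g.symm.toLinearMap * g.toLinearMap) * e * (g.symm.toLinearMap * g.toLinearMap) := by
              rw [gg']; simp
          _ = _ := by noncomm_ring
      rw [e1 e, hef, ← e1 f]
    have hmap : ∀ e ∈ A.filter (fun f => N v f = m),
        g.toLinearMap * e * g.symm.toLinearMap ∈ A.filter (fun f => N v f = m) := by
      intro e he
      rw [Finset.mem_filter] at he ⊢
      exact ⟨hA.conj comm i₀ h0 σ g hσ he.1, by rw [N_conj i₀ σ g hσ]; exact he.2⟩
    have himg : (A.filter (fun f => N v f = m)).image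
        (fun e => g.toLinearMap * e * g.symm.toLinearMap) = A.filter (fun f => N v f = m) := by
      apply Finset.eq_of_subset_of_card_le
      · intro e he
        obtain ⟨f, hf', rfl⟩ := Finset.mem_image.mp he
        exact hmap f hf'
      · rw [Finset.card_image_of_injective]
        intro e f hef
        exact inj e f hef
    have hconj : g.toLinearMap * E * g.symm.toLinearMap = E := by
      conv_rhs => rw [hE, ← himg]
      rw [Finset.sum_image (fun e _ f _ hef => inj e f hef), hE, Finset.mul_sum, Finset.sum_mul]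
    have h1 := LinearMap.congr_fun hconj (g w)
    simp only [Module.End.mul_apply, LinearEquiv.coe_coe, LinearEquiv.symm_apply_apply, Ew] at h1
    exact h1.symm
  have E1 : E = 1 := by
    refine LinearMap.ext fun x => ?_
    rw [Module.End.one_apply]
    have hx := gen x
    induction hx using Submodule.span_induction with
    | mem x hx =>
      obtain ⟨g, hg, rfl⟩ := hx
      exact Eg g hg
    | zero => exact map_zero _
    | add x y _ _ h1 h2 => rw [map_add, h1, h2]
    | smul r x _ h1 => rw [map_smul, h1]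
  obtain ⟨A', hA'⟩ : ∃ A', A' = A.filter (fun f => N v f = m) := ⟨_, rfl⟩
  have hsub : ∀ f ∈ A', f ∈ A ∧ N v f = m := by
    intro f hf'
    rw [hA', Finset.mem_filter] at hf'
    exact hf'
  rw [← hA'] at hE hehm
  obtain ⟨k, hk⟩ : ∃ k, k = A'.card := ⟨_, rfl⟩
  have hk1 : 1 ≤ k := by
    rw [hk]
    exact Finset.card_pos.mpr ⟨eh, hehm⟩
  by_cases hk2 : 2 ≤ k
  · right
    refine ⟨m, k, by rw [hmm]; exact hm2, hk2, ?_, ?_⟩
    · rw [← N_one hinj, ← E1, hE]
      have h1 := (sum_fac (v := v) (A := A') (fun e he => hA.fac e (hsub e he).1)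
        (fun e he f hf' hne' => hA.orth e (hsub e he).1 f (hsub f hf').1 hne') hni).2
      rw [h1, Finset.prod_congr rfl (fun e he => (hsub e he).2), Finset.prod_const, ← hk]
    · intro c
      have h1 : N v (1 - eh) = m ^ (k - 1) := by
        have h2 : 1 - eh = ∑ f ∈ A'.erase eh, f := by
          rw [← E1, hE, ← Finset.add_sum_erase A' (fun f => f) hehm]
          abel
        rw [h2]
        have h3 := (sum_fac (v := v) (A := A'.erase eh)
          (fun e he => hA.fac e (hsub e (Finset.mem_of_mem_erase he)).1)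
          (fun e he f hf' hne' => hA.orth e (hsub e (Finset.mem_of_mem_erase he)).1 f
            (hsub f (Finset.mem_of_mem_erase hf')).1 hne') hni).2
        rw [h3, Finset.prod_congr rfl (fun e he => (hsub e (Finset.mem_of_mem_erase he)).2),
          Finset.prod_const, Finset.card_erase_of_mem hehm, ← hk]
      rw [← h1]
      exact count_dvd hinj (hA.fac eh hm) h eeh c
  · left
    have hk3 : A'.card = 1 := by omega
    obtain ⟨f, hf'⟩ := Finset.card_eq_one.mp hk3
    have hfe : f = eh := by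
      rw [hf', Finset.mem_singleton] at hehm
      exact hehm.symm
    have h1 : eh = 1 := by
      rw [← E1, hE, hf', Finset.sum_singleton, hfe]
    intro ρ hρ
    have h2 := hA.atom eh hm ρ hρ
    rw [h1, mul_one] at h2
    exact h2

end Pool.Agent.FT
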