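import Pool.Agent.Lib_helper48.FT.C4

/-! Frobenius tori: the combinatorial theorem. -/

set_option autoImplicit false
set_option linter.unusedSectionVars false

namespace Pool.Agent.FT

open Module Finset

variable {ι : Type*} [Fintype ι] [DecidableEq ι]

theorem exists_generic (Φ : Submodule ℚ (ι → ℚ)) (sep : Sep Φ) :
    ∃ f ∈ Φ, Function.Injective f := by
  classical
  by_contra hcon
  push Not at hcon
  let p : {x : ι × ι // x.1 ≠ x.2} → Submodule ℚ Φ := fun x =>
    LinearMap.ker (((LinearMap.proj x.1.1 : (ι → ℚ) →ₗ[ℚ] ℚ) -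
      (LinearMap.proj x.1.2 : (ι → ℚ) →ₗ[ℚ] ℚ)) ∘ₗ Φ.subtype)
  have hcov : ⋃ i, (p i : Set Φ) = Set.univ := by
    rw [Set.eq_univ_iff_forall]
    intro f
    have h1 := hcon f f.2
    unfold Function.Injective at h1
    push Not at h1
    obtain ⟨i, j, hij, hne⟩ := h1
    rw [Set.mem_iUnion]
    refine ⟨⟨(i, j), hne⟩, ?_⟩
    show (f : ι → ℚ) i - (f : ι → ℚ) j = 0
    rw [hij, sub_self]
  obtain ⟨x, hx⟩ := Subspace.exists_eq_top_of_iUnion_eq_univ hcov
  apply x.2
  apply sep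
  intro f hf
  have : (⟨f, hf⟩ : Φ) ∈ p x := by rw [hx]; trivial
  have h2 : f x.1.1 - f x.1.2 = 0 := this
  linarith

/-- The functions in Φ vanishing at i₀. -/
def Bsub (Φ : Submodule ℚ (ι → ℚ)) (i₀ : ι) : Submodule ℚ (ι → ℚ) :=
  Φ ⊓ LinearMap.ker (LinearMap.proj i₀ : (ι → ℚ) →ₗ[ℚ] ℚ)

theorem mem_Bsub {Φ : Submodule ℚ (ι → ℚ)} {i₀ : ι} {f : ι → ℚ} :
    f ∈ Bsub Φ i₀ ↔ f ∈ Φ ∧ f i₀ = 0 := Iff.rfl

/-- Evaluation. -/
def ev (Φ : Submodule ℚ (ι → ℚ)) (i₀ i : ι) : Bsub Φ i₀ →ₗ[ℚ] ℚ :=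
  (LinearMap.proj i : (ι → ℚ) →ₗ[ℚ] ℚ) ∘ₗ (Bsub Φ i₀).subtype

@[simp] theorem ev_apply (Φ : Submodule ℚ (ι → ℚ)) (i₀ i : ι) (f : Bsub Φ i₀) :
    ev Φ i₀ i f = (f : ι → ℚ) i := rfl

/-- Subtract the value at i₀. -/
def norm0 (Φ : Submodule ℚ (ι → ℚ)) (one : (fun _ => (1 : ℚ)) ∈ Φ) (i₀ : ι) (f : ι → ℚ)
    (hf : f ∈ Φ) : Bsub Φ i₀ :=
  ⟨fun i => f i - f i₀, by
    refine ⟨?_, sub_self _⟩
    have : (fun i => f i - f i₀) = f - (f i₀) • (fun _ => (1 : ℚ)) := by
      ext i
      simp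
    rw [SetLike.mem_coe, this]
    exact Φ.sub_mem hf (Φ.smul_mem _ one)⟩

/-- The linear version. -/
def normL (i₀ : ι) : (ι → ℚ) →ₗ[ℚ] (ι → ℚ) where
  toFun f := fun i => f i - f i₀
  map_add' f g := by ext i; simp; ring
  map_smul' r f := by ext i; simp; ring

open Classical in
/-- A chi in B. -/
theorem chi_bridge (Φ : Submodule ℚ (ι → ℚ)) (one : (fun _ => (1 : ℚ)) ∈ Φ) (i₀ : ι)
    (h : ι → ℚ) (hh : h ∈ Φ) (two : ∀ i, h i = 1/2 ∨ h i = -(1/2)) (c : ι → ℚ)
    (hc : IsChi Φ h c) : ∃ α κ, Chi (ev Φ i₀) (norm0 Φ one i₀ h hh) (norm0 Φ one i₀ c hc.1) α κ := by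
  obtain ⟨hcΦ, k, l, hkl, hci⟩ := hc
  have hbot : ∀ i, Bot (ev Φ i₀) (ev Φ i₀ l - ev Φ i₀ k) i ↔
      ∃ j, ∀ f ∈ Φ, f j - f i = f l - f k := by
    intro i
    constructor
    · rintro ⟨j, hj⟩
      refine ⟨j, fun f hf => ?_⟩
      have h1 := LinearMap.congr_fun hj (norm0 Φ one i₀ f hf)
      simp only [LinearMap.sub_apply, ev_apply, norm0] at h1
      linarith
    · rintro ⟨j, hj⟩
      refine ⟨j, LinearMap.ext fun f => ?_⟩
      exact hj f (mem_Bsub.mp f.2).1
  have htop : ∀ i, Top (ev Φ i₀) (ev Φ i₀ l - ev Φ i₀ k) i ↔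
      ∃ j, ∀ f ∈ Φ, f i - f j = f l - f k := by
    intro i
    constructor
    · rintro ⟨j, hj⟩
      refine ⟨j, fun f hf => ?_⟩
      have h1 := LinearMap.congr_fun hj (norm0 Φ one i₀ f hf)
      simp only [LinearMap.sub_apply, ev_apply, norm0] at h1
      linarith
    · rintro ⟨j, hj⟩
      refine ⟨j, LinearMap.ext fun f => ?_⟩
      exact hj f (mem_Bsub.mp f.2).1
  have hex : ∀ i, ¬ ((∃ j, ∀ f ∈ Φ, f i - f j = f l - f k) ∧
      (∃ j, ∀ f ∈ Φ, f j - f i = f l - f k)) := by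
    rintro i ⟨⟨j, hj⟩, ⟨j', hj'⟩⟩
    have h1 := hj h hh
    have h2 := hj' h hh
    rw [hkl] at h1 h2
    rcases two j with h3 | h3 <;> rcases two j' with h4 | h4 <;> linarith
  have hval : ∀ i, ev Φ i₀ i (norm0 Φ one i₀ c hcΦ) + c i₀ = c i := by
    intro i
    simp only [ev_apply, norm0]
    ring
  refine ⟨ev Φ i₀ l - ev Φ i₀ k, c i₀, ?_, ?_, ?_, ?_, ?_, ?_, ?_⟩
  · simp only [LinearMap.sub_apply, ev_apply, norm0]
    linarith
  · exact ⟨k, l, rfl⟩
  · intro i hi
    rw [hval, hci]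
    have h1 := (hbot i).mp hi
    have h2 : ¬ ∃ j, ∀ f ∈ Φ, f i - f j = f l - f k := fun h => hex i ⟨h, h1⟩
    rw [if_pos h1, if_neg h2]
    norm_num
  · intro i hi
    rw [hval, hci]
    have h1 := (htop i).mp hi
    have h2 : ¬ ∃ j, ∀ f ∈ Φ, f j - f i = f l - f k := fun h => hex i ⟨h1, h⟩
    rw [if_pos h1, if_neg h2]
    norm_num
  · intro i hi
    rw [hval, hci] at hi
    rw [hbot]
    by_contra hcon
    rw [if_neg hcon] at hi
    split_ifs at hi <;> norm_num at hi
  · intro i hi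
    rw [hval, hci] at hi
    rw [htop]
    by_contra hcon
    rw [if_neg hcon] at hi
    split_ifs at hi <;> norm_num at hi
  · intro i
    rw [hval, hci]
    split_ifs <;> norm_num

/-- The automorphism given by a permutation. -/
theorem exists_g (Φ : Submodule ℚ (ι → ℚ)) (one : (fun _ => (1 : ℚ)) ∈ Φ) (i₀ : ι)
    (σ : Equiv.Perm ι) (hσ : ∀ f : ι → ℚ, f ∈ Φ ↔ f ∘ σ ∈ Φ) :
    ∃ g : Bsub Φ i₀ ≃ₗ[ℚ] Bsub Φ i₀, ∀ (i : ι) (x : Bsub Φ i₀),
      ev Φ i₀ i (g x) = ev Φ i₀ (σ i) x - ev Φ i₀ (σ i₀) x := by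
  have hσ' : ∀ f : ι → ℚ, f ∈ Φ → f ∘ σ.symm ∈ Φ := by
    intro f hf
    rw [hσ]
    convert hf using 1
    ext i
    simp
  let G : (τ : Equiv.Perm ι) → (∀ f : ι → ℚ, f ∈ Φ → f ∘ τ ∈ Φ) → (Bsub Φ i₀ →ₗ[ℚ] Bsub Φ i₀) :=
    fun τ hτ =>
    { toFun := fun x => norm0 Φ one i₀ ((x : ι → ℚ) ∘ τ) (hτ _ (mem_Bsub.mp x.2).1)
      map_add' := by
        intro x y
        apply Subtype.ext
        ext i
        simp [norm0]
        ring
      map_smul' := by
        intro r x
        apply Subtype.ext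
        ext i
        simp [norm0]
        ring }
  have hG : ∀ τ hτ (x : Bsub Φ i₀) i, (G τ hτ x : ι → ℚ) i = (x : ι → ℚ) (τ i) - (x : ι → ℚ) (τ i₀) :=
    fun _ _ _ _ => rfl
  refine ⟨LinearEquiv.ofLinear (G σ fun f hf => (hσ f).mp hf) (G σ.symm hσ') ?_ ?_, ?_⟩
  · refine LinearMap.ext fun x => Subtype.ext (funext fun i => ?_)
    have h0 : (x : ι → ℚ) i₀ = 0 := (mem_Bsub.mp x.2).2
    simp only [LinearMap.comp_apply, LinearMap.id_apply, hG, Equiv.symm_apply_apply]
    rw [h0]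
    ring
  · refine LinearMap.ext fun x => Subtype.ext (funext fun i => ?_)
    have h0 : (x : ι → ℚ) i₀ = 0 := (mem_Bsub.mp x.2).2
    simp only [LinearMap.comp_apply, LinearMap.id_apply, hG, Equiv.apply_symm_apply]
    rw [h0]
    ring
  · intro i x
    rfl

/-- Block C. -/
theorem comb (Φ : Submodule ℚ (ι → ℚ)) (one : (fun _ => (1 : ℚ)) ∈ Φ) (sep : Sep Φ)
    (S : Set (Equiv.Perm ι)) (hS : ∀ σ ∈ S, ∀ f : ι → ℚ, f ∈ Φ ↔ f ∘ σ ∈ Φ)
    (h : ι → ℚ) (hh : h ∈ Φ) (two : ∀ i, h i = 1/2 ∨ h i = -(1/2)) (nc : ∃ i j, h i ≠ h j)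
    (w : ι → ℚ)
    (hw : w ∈ Submodule.span ℚ ({(fun _ => (1 : ℚ)), h} ∪ {c | IsChi Φ h c}))
    (gen : Φ ≤ Submodule.span ℚ ({(fun _ => (1 : ℚ))} ∪ {f | ∃ σ ∈ S, f = w ∘ σ})) :
    Indec Φ ∨ ∃ m k : ℕ, 2 ≤ m ∧ 2 ≤ k ∧ Fintype.card ι = m ^ k ∧
      m ^ (k - 1) ∣ (univ.filter fun i => h i = 1/2).card := by
  classical
  obtain ⟨fg, hfg, inj⟩ := exists_generic Φ sep
  obtain ⟨ia, ja, hab⟩ := nc
  obtain ⟨i₀, -, hi₀⟩ := Finset.exists_min_image (univ : Finset ι) fg ⟨ia, Finset.mem_univ _⟩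
  have hwΦ : w ∈ Φ := by
    refine Submodule.span_le.mpr ?_ hw
    rintro x ((hx | hx) | hx)
    · rw [hx]; exact one
    · rw [Set.mem_singleton_iff] at hx
      rw [hx]; exact hh
    · exact hx.1
  have hval0 : ∀ i, ev Φ i₀ i (norm0 Φ one i₀ h hh) = h i - h i₀ := fun _ => rfl
  have key := main_comb (v := ev Φ i₀) (i₀ := i₀) ?_ ?_ ?_ (norm0 Φ one i₀ fg hfg) ?_
    {g | ∃ σ ∈ S, ∀ (i : ι) (x : Bsub Φ i₀), ev Φ i₀ i (g x) = ev Φ i₀ (σ i) x - ev Φ i₀ (σ i₀) x}
    ?_ (norm0 Φ one i₀ h hh) ?_ (-(1/2) - h i₀) ?_ (norm0 Φ one i₀ w hwΦ) ?_ ?_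
  · rcases key with key | ⟨m, k, hm, hk, hcard, hdvd⟩
    · left
      intro op hop
      -- the factor
      let π : Module.End ℚ (Bsub Φ i₀) :=
        { toFun := fun x => norm0 Φ one i₀ (fun i => (x : ι → ℚ) (op i i₀))
            (hop.mem _ _ (mem_Bsub.mp x.2).1)
          map_add' := by
            intro x y
            apply Subtype.ext
            ext i
            simp [norm0]
            ring
          map_smul' := by
            intro r x
            apply Subtype.ext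
            ext i
            simp [norm0]
            ring }
      have hπ : ∀ (x : Bsub Φ i₀) i, (π x : ι → ℚ) i = (x : ι → ℚ) (op i i₀) := by
        intro x i
        have h1 : (x : ι → ℚ) i₀ = 0 := (mem_Bsub.mp x.2).2
        show (x : ι → ℚ) (op i i₀) - (x : ι → ℚ) (op i₀ i₀) = _
        rw [hop.self, h1, sub_zero]
      have fπ : Fac (ev Φ i₀) π := by
        refine ⟨?_, fun i j => ⟨op i j, fun x => ?_⟩⟩
        · refine LinearMap.ext fun x => Subtype.ext (funext fun i => ?_)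
          rw [Module.End.mul_apply, hπ, hπ, hop.left]
          rw [hπ]
        · rw [ev_apply, ev_apply, ev_apply, ev_apply, hπ, hπ]
          exact hop.diff _ (mem_Bsub.mp x.2).1 i j i₀
      rcases key π fπ with h0 | h1
      · right
        intro i j
        apply sep
        intro f hf
        have h2 := hop.diff f hf i j i₀
        have h3 := LinearMap.congr_fun h0 (norm0 Φ one i₀ f hf)
        have h4 : ∀ i, f (op i i₀) - f i₀ = 0 := by
          intro i
          have h5 : (π (norm0 Φ one i₀ f hf) : ι → ℚ) i = 0 := by rw [h3]; rfl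
          rw [hπ] at h5
          exact h5
        have h5 := h4 i
        have h6 := h4 j
        linarith
      · left
        intro i j
        apply sep
        intro f hf
        have h2 := hop.diff f hf i j i₀
        have h3 := LinearMap.congr_fun h1 (norm0 Φ one i₀ f hf)
        have h4 : ∀ i, f (op i i₀) - f i₀ = f i - f i₀ := by
          intro i
          have h5 : (π (norm0 Φ one i₀ f hf) : ι → ℚ) i = f i - f i₀ := by rw [h3]; rfl
          rw [hπ] at h5
          exact h5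
        have h5 := h4 i
        have h6 := h4 j
        linarith
    · right
      refine ⟨m, k, hm, hk, hcard, ?_⟩
      have h1 := hdvd (1/2 - h i₀)
      have h2 : (univ.filter fun i => h i = 1/2) =
          (univ.filter fun i => ev Φ i₀ i (norm0 Φ one i₀ h hh) = 1/2 - h i₀) := by
        ext i
        rw [Finset.mem_filter, Finset.mem_filter, hval0]
        constructor
        · rintro ⟨-, h2⟩; exact ⟨Finset.mem_univ _, by rw [h2]⟩
        · rintro ⟨-, h2⟩; exact ⟨Finset.mem_univ _, by linarith⟩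
      rw [h2]
      exact h1
  · -- injective
    intro i j hij
    apply sep
    intro f hf
    have h1 := LinearMap.congr_fun hij (norm0 Φ one i₀ f hf)
    simp only [ev_apply, norm0] at h1
    linarith
  · intro x hx
    exact Subtype.ext (funext hx)
  · refine LinearMap.ext fun x => ?_
    exact (mem_Bsub.mp x.2).2
  · intro i hi
    show 0 < fg i - fg i₀
    have h1 := hi₀ i (Finset.mem_univ _)
    have h2 : fg i ≠ fg i₀ := fun h => hi (inj h)
    have h3 : fg i₀ < fg i := lt_of_le_of_ne h1 (Ne.symm h2)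
    linarith
  · rintro g ⟨σ, -, hσ⟩
    exact ⟨σ, hσ⟩
  · intro h0
    apply hab
    have h1 : ∀ i, h i - h i₀ = 0 := by
      intro i
      rw [← hval0, h0]
      rfl
    have h2 := h1 ia
    have h3 := h1 ja
    linarith
  · intro i
    rw [hval0]
    rcases two i with h1 | h1
    · right; rw [h1]; ring
    · left; rw [h1]
  · -- w in the span
    have key2 : ∀ x (hx : x ∈ Submodule.span ℚ ({(fun _ => (1 : ℚ)), h} ∪ {c | IsChi Φ h c}))
        (hxΦ : x ∈ Φ), norm0 Φ one i₀ x hxΦ ∈ Submodule.span ℚ ({norm0 Φ one i₀ h hh} ∪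
          {c | ∃ α κ, Chi (ev Φ i₀) (norm0 Φ one i₀ h hh) c α κ}) := by
      intro x hx
      induction hx using Submodule.span_induction with
      | mem x hx =>
        intro hxΦ
        rcases hx with (hx | hx) | hx
        · have : norm0 Φ one i₀ x hxΦ = 0 := by
            apply Subtype.ext
            ext i
            show x i - x i₀ = 0
            rw [hx]
            simp
          rw [this]
          exact Submodule.zero_mem _
        · rw [Set.mem_singleton_iff] at hx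
          subst hx
          exact Submodule.subset_span (Or.inl rfl)
        · exact Submodule.subset_span (Or.inr (chi_bridge Φ one i₀ h hh two x hx))
      | zero =>
        intro hxΦ
        have : norm0 Φ one i₀ 0 hxΦ = 0 := by
          apply Subtype.ext
          ext i
          simp [norm0]
        rw [this]
        exact Submodule.zero_mem _
      | add x y hx hy h1 h2 =>
        intro hxΦ
        have hsub : ∀ x ∈ Submodule.span ℚ ({(fun _ => (1 : ℚ)), h} ∪ {c | IsChi Φ h c}), x ∈ Φ := by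
          intro x hx
          refine Submodule.span_le.mpr ?_ hx
          rintro x ((hx | hx) | hx)
          · rw [hx]; exact one
          · rw [Set.mem_singleton_iff] at hx
            rw [hx]; exact hh
          · exact hx.1
        have : norm0 Φ one i₀ (x + y) hxΦ = norm0 Φ one i₀ x (hsub x hx) +
            norm0 Φ one i₀ y (hsub y hy) := by
          apply Subtype.ext
          ext i
          simp [norm0]
          ring
        rw [this]
        exact Submodule.add_mem _ (h1 _) (h2 _)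
      | smul r x hx h1 =>
        intro hxΦ
        have hsub : ∀ x ∈ Submodule.span ℚ ({(fun _ => (1 : ℚ)), h} ∪ {c | IsChi Φ h c}), x ∈ Φ := by
          intro x hx
          refine Submodule.span_le.mpr ?_ hx
          rintro x ((hx | hx) | hx)
          · rw [hx]; exact one
          · rw [Set.mem_singleton_iff] at hx
            rw [hx]; exact hh
          · exact hx.1
        have : norm0 Φ one i₀ (r • x) hxΦ = r • norm0 Φ one i₀ x (hsub x hx) := by
          apply Subtype.ext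
          ext i
          simp [norm0]
          ring
        rw [this]
        exact Submodule.smul_mem _ _ (h1 _)
    exact key2 w hw hwΦ
  · -- generation
    intro x
    have hx : (x : ι → ℚ) ∈ Submodule.span ℚ
        ({(fun _ => (1 : ℚ))} ∪ {f | ∃ σ ∈ S, f = w ∘ σ}) := gen (mem_Bsub.mp x.2).1
    have hx2 : normL i₀ (x : ι → ℚ) ∈ Submodule.map (Bsub Φ i₀).subtype
        (Submodule.span ℚ {y : Bsub Φ i₀ | ∃ g ∈ {g : Bsub Φ i₀ ≃ₗ[ℚ] Bsub Φ i₀ | ∃ σ ∈ S,
          ∀ (i : ι) (x : Bsub Φ i₀), ev Φ i₀ i (g x) = ev Φ i₀ (σ i) x - ev Φ i₀ (σ i₀) x},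
          y = g (norm0 Φ one i₀ w hwΦ)}) := by
      have hmap := Submodule.mem_map_of_mem (f := normL i₀) hx
      rw [Submodule.map_span] at hmap
      refine Submodule.span_le.mpr ?_ hmap
      rintro _ ⟨f, hf, rfl⟩
      rcases hf with hf | ⟨σ, hσ, rfl⟩
      · rw [Set.mem_singleton_iff] at hf
        subst hf
        have : normL i₀ (fun _ => (1 : ℚ)) = 0 := by
          ext i
          simp [normL]
        rw [this]
        exact Submodule.zero_mem _
      · obtain ⟨g, hg⟩ := exists_g Φ one i₀ σ (hS σ hσ)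
        refine ⟨g (norm0 Φ one i₀ w hwΦ), Submodule.subset_span ⟨g, ⟨σ, hσ, hg⟩, rfl⟩, ?_⟩
        ext i
        have h1 := hg i (norm0 Φ one i₀ w hwΦ)
        simp only [ev_apply, norm0] at h1
        show ((g (norm0 Φ one i₀ w hwΦ) : Bsub Φ i₀) : ι → ℚ) i = w (σ i) - w (σ i₀)
        rw [show norm0 Φ one i₀ w hwΦ = ⟨fun i => w i - w i₀, _⟩ from rfl, h1]
        ring
    have hx3 : normL i₀ (x : ι → ℚ) = (x : ι → ℚ) := by
      ext i
      show (x : ι → ℚ) i - (x : ι → ℚ) i₀ = _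
      rw [(mem_Bsub.mp x.2).2, sub_zero]
    rw [hx3] at hx2
    obtain ⟨y, hy, hyx⟩ := hx2
    have : y = x := Subtype.ext hyx
    rw [← this]
    exact hy

end Pool.Agent.FT
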