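import Pool.Agent.Lib_helper48.FT.C5

/-! Frobenius tori: the combinatorial theorem, atoms of size two. -/

set_option autoImplicit false
set_option linter.unusedSectionVars false

namespace Pool.Agent.FT

open Module Finset

section

variable {ι : Type*} [Fintype ι] [DecidableEq ι] {B : Type*} [AddCommGroup B] [Module ℚ B]
  {v : ι → B →ₗ[ℚ] ℚ}

/-- A point with given coordinates. -/
theorem coords {A : Finset (Module.End ℚ B)} (hf : ∀ e ∈ A, Fac v e)
    (ho : ∀ e ∈ A, ∀ f ∈ A, e ≠ f → e * f = 0) (hne : Nonempty ι) (c : Module.End ℚ B → ι) :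
    ∃ k, ∀ e ∈ A, v k ∘ₗ e = v (c e) ∘ₗ e := by
  classical
  induction A using Finset.induction_on with
  | empty => exact ⟨Classical.arbitrary ι, fun e he => absurd he (Finset.notMem_empty e)⟩
  | insert e A he ih =>
    obtain ⟨k, hk⟩ := ih (fun f hf' => hf f (Finset.mem_insert_of_mem hf'))
      (fun f hf' f' hf'' => ho f (Finset.mem_insert_of_mem hf') f' (Finset.mem_insert_of_mem hf''))
    obtain ⟨k', h1, h2⟩ := (hf e (Finset.mem_insert_self _ _)).coord (c e) k
    refine ⟨k', fun f hf' => ?_⟩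
    rw [Finset.mem_insert] at hf'
    rcases hf' with rfl | hf'
    · exact h1
    · rw [h2 f (ho e (Finset.mem_insert_self _ _) f (Finset.mem_insert_of_mem hf')
        (fun h => he (h ▸ hf'))), hk f hf']

/-- The antipode. -/
theorem antipode {A : Finset (Module.End ℚ B)} (hA : PA v A) (i₀ : ι) (h0 : v i₀ = 0)
    (hN : ∀ e ∈ A, N v e = 2) :
    ∃ bar : ι → ι, ∀ i j x, v i x + v (bar i) x = v j x + v (bar j) x := by
  classical
  have hβ : ∀ e ∈ A, ∃ k, ∀ i, v i ∘ₗ e = 0 ∨ v i ∘ₗ e = v k ∘ₗ e := by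
    intro e he
    have h2 := hN e he
    unfold N at h2
    obtain ⟨a, b, hab, hs⟩ := Finset.card_eq_two.mp h2
    have h3 : ∀ i, v i ∘ₗ e = a ∨ v i ∘ₗ e = b := by
      intro i
      have : v i ∘ₗ e ∈ (univ.image fun i => (v i ∘ₗ e : B →ₗ[ℚ] ℚ)) :=
        Finset.mem_image_of_mem _ (Finset.mem_univ i)
      have h4 : v i ∘ₗ e ∈ ({a, b} : Finset (B →ₗ[ℚ] ℚ)) := by
        rw [← hs]
        convert this
      rw [Finset.mem_insert, Finset.mem_singleton] at h4
      exact h4
    have h4 : ∀ c, c = a ∨ c = b → ∃ k, v k ∘ₗ e = c := by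
      intro c hc
      have h5 : c ∈ ({a, b} : Finset (B →ₗ[ℚ] ℚ)) := by
        rw [Finset.mem_insert, Finset.mem_singleton]
        exact hc
      rw [← hs] at h5
      obtain ⟨k, -, hk⟩ := Finset.mem_image.mp h5
      exact ⟨k, hk⟩
    have h5 : v i₀ ∘ₗ e = 0 := by rw [h0, LinearMap.zero_comp]
    rcases h3 i₀ with h6 | h6
    · obtain ⟨k, hk⟩ := h4 b (Or.inr rfl)
      refine ⟨k, fun i => ?_⟩
      rcases h3 i with h7 | h7
      · left; rw [h7, ← h6, h5]
      · right; rw [h7, hk]
    · obtain ⟨k, hk⟩ := h4 a (Or.inl rfl)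
      refine ⟨k, fun i => ?_⟩
      rcases h3 i with h7 | h7
      · right; rw [h7, hk]
      · left; rw [h7, ← h6, h5]
  have hβ' : ∃ c : Module.End ℚ B → ι, ∀ e ∈ A, ∀ i, v i ∘ₗ e = 0 ∨ v i ∘ₗ e = v (c e) ∘ₗ e := by
    refine ⟨fun e => if he : e ∈ A then (hβ e he).choose else i₀, fun e he i => ?_⟩
    beta_reduce
    rw [dif_pos he]
    exact (hβ e he).choose_spec i
  obtain ⟨c, hc⟩ := hβ'
  have hbar : ∀ i, ∃ k, ∀ e ∈ A, v i ∘ₗ e + v k ∘ₗ e = v (c e) ∘ₗ e := by
    intro i
    obtain ⟨k, hk⟩ := coords (v := v) hA.fac hA.orth ⟨i₀⟩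
      (fun e => if v i ∘ₗ e = 0 then c e else i₀)
    refine ⟨k, fun e he => ?_⟩
    rw [hk e he]
    by_cases h1 : v i ∘ₗ e = 0
    · rw [if_pos h1, h1, zero_add]
    · rw [if_neg h1, h0, LinearMap.zero_comp, add_zero]
      exact (hc e he i).resolve_left h1
  choose bar hbar using hbar
  have hsum : ∀ (i : ι) (x : B), v i x = ∑ e ∈ A, (v i ∘ₗ e) x := by
    intro i x
    have h1 := LinearMap.congr_fun hA.sum x
    rw [LinearMap.sum_apply, Module.End.one_apply] at h1
    conv_lhs => rw [← h1]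
    rw [map_sum]
    rfl
  refine ⟨bar, fun i j x => ?_⟩
  rw [hsum i, hsum (bar i), hsum j, hsum (bar j), ← Finset.sum_add_distrib,
    ← Finset.sum_add_distrib]
  refine Finset.sum_congr rfl fun e he => ?_
  rw [← LinearMap.add_apply, ← LinearMap.add_apply, hbar i e he, hbar j e he]

/-- The main combinatorial statement, with the antipode. -/
theorem main_comb' [FiniteDimensional ℚ B] (hinj : Function.Injective v)
    (hv0 : ∀ x : B, (∀ i, v i x = 0) → x = 0) (i₀ : ι) (h0 : v i₀ = 0)
    (f₀ : B) (hf : ∀ i, i ≠ i₀ → 0 < v i f₀)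
    (S : Set (B ≃ₗ[ℚ] B)) (hS : ∀ g ∈ S, ∃ σ : Equiv.Perm ι,
      ∀ i x, v i (g x) = v (σ i) x - v (σ i₀) x)
    (h : B) (hne : h ≠ 0) (a : ℚ) (two : ∀ i, v i h = a ∨ v i h = a + 1)
    (w : B) (hw : w ∈ Submodule.span ℚ ({h} ∪ {c | ∃ α κ, Chi v h c α κ}))
    (gen : ∀ x : B, x ∈ Submodule.span ℚ {y : B | ∃ g ∈ S, y = g w}) :
    (∀ ρ : Module.End ℚ B, Fac v ρ → ρ = 0 ∨ ρ = 1) ∨
      (∃ m k : ℕ, 3 ≤ m ∧ 2 ≤ k ∧ Fintype.card ι = m ^ k ∧
        ∀ c : ℚ, m ^ (k - 1) ∣ (univ.filter fun i => v i h = c).card) ∨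
      ∃ bar : ι → ι, ∀ i j x, v i x + v (bar i) x = v j x + v (bar j) x := by
  classical
  have hv : ∀ x : B, (∀ i j, v i x = v j x) → x = 0 := by
    intro x hx
    apply hv0
    intro i
    rw [hx i i₀, h0]
    rfl
  have comm : ∀ π ρ : Module.End ℚ B, Fac v π → Fac v ρ → π * ρ = ρ * π :=
    fun π ρ hπ hρ => Fac.comm hv0 i₀ h0 f₀ hf hπ hρ
  have : Nontrivial B := ⟨h, 0, hne⟩
  have hni : Nonempty ι := ⟨i₀⟩
  obtain ⟨A, hA⟩ := exists_atoms (v := v) comm
  obtain ⟨eh, hm, eeh, hm2⟩ := exists_eh hv hA hne two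
  obtain ⟨m, hmm⟩ : ∃ m, m = N v eh := ⟨_, rfl⟩
  obtain ⟨E, hE⟩ : ∃ E, E = ∑ f ∈ A.filter (fun f => N v f = m), f := ⟨_, rfl⟩
  have hehm : eh ∈ A.filter (fun f => N v f = m) := by
    rw [Finset.mem_filter]
    exact ⟨hm, hmm.symm⟩
  have Eh : E h = h := by
    rw [hE]
    refine fix_of hA.toPA _ ?_
    intro f hf' hne'
    by_cases hfe : f = eh
    · rw [hfe]; exact hmm.symm
    · exfalso
      apply hne'
      rw [← eeh]
      exact LinearMap.congr_fun (hA.orth f hf' eh hm hfe) h
  have Ec : ∀ c : B, (∃ α κ, Chi v h c α κ) → E c = c := by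
    rintro c ⟨α, κ, hc⟩
    rw [hE]
    refine fix_of hA.toPA _ ?_
    intro f hf' hne'
    rw [hmm]
    exact hc.size hv hA hm eeh hf' hne'
  have Esp : ∀ x ∈ Submodule.span ℚ ({h} ∪ {c | ∃ α κ, Chi v h c α κ}), E x = x := by
    intro x hx
    induction hx using Submodule.span_induction with
    | mem x hx =>
      rcases hx with hx | hx
      · rw [Set.mem_singleton_iff] at hx
        rw [hx]
        exact Eh
      · exact Ec x hx
    | zero => exact map_zero _
    | add x y _ _ h1 h2 => rw [map_add, h1, h2]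
    | smul r x _ h1 => rw [map_smul, h1]
  have Ew : E w = w := Esp w hw
  have Eg : ∀ g ∈ S, E (g w) = g w := by
    intro g hg
    obtain ⟨σ, hσ⟩ := hS g hg
    have gg' : g.symm.toLinearMap * g.toLinearMap = 1 := by
      refine LinearMap.ext fun x => ?_
      simp [Module.End.mul_apply]
    have inj : ∀ e f : Module.End ℚ B, g.toLinearMap * e * g.symm.toLinearMap =
        g.toLinearMap * f * g.symm.toLinearMap → e = f := by
      intro e f hef
      have e1 : ∀ e : Module.End ℚ B,
          e = g.symm.toLinearMap * (g.toLinearMap * e * g.symm.toLinearMap) * g.toLinearMap := by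
        intro e
        calc e = (g.symm.toLinearMap * g.toLinearMap) * e * (g.symm.toLinearMap * g.toLinearMap) := by
              rw [gg']; simp
          _ = _ := by noncomm_ring
      rw [e1 e, hef, ← e1 f]
    have hmap : ∀ e ∈ A.filter (fun f => N v f = m),
        g.toLinearMap * e * g.symm.toLinearMap ∈ A.filter (fun f => N v f = m) := by
      intro e he
      rw [Finset.mem_filter] at he ⊢
      exact ⟨hA.conj comm i₀ h0 σ g hσ he.1, by rw [N_conj i₀ σ g hσ]; exact he.2⟩
    have himg : (A.filter (fun f => N v f = m)).image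
        (fun e => g.toLinearMap * e * g.symm.toLinearMap) = A.filter (fun f => N v f = m) := by
      apply Finset.eq_of_subset_of_card_le
      · intro e he
        obtain ⟨f, hf', rfl⟩ := Finset.mem_image.mp he
        exact hmap f hf'
      · rw [Finset.card_image_of_injective]
        intro e f hef
        exact inj e f hef
    have hconj : g.toLinearMap * E * g.symm.toLinearMap = E := by
      conv_rhs => rw [hE, ← himg]
      rw [Finset.sum_image (fun e _ f _ hef => inj e f hef), hE, Finset.mul_sum, Finset.sum_mul]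
    have h1 := LinearMap.congr_fun hconj (g w)
    simp only [Module.End.mul_apply, LinearEquiv.coe_coe, LinearEquiv.symm_apply_apply, Ew] at h1
    exact h1.symm
  have E1 : E = 1 := by
    refine LinearMap.ext fun x => ?_
    rw [Module.End.one_apply]
    have hx := gen x
    induction hx using Submodule.span_induction with
    | mem x hx =>
      obtain ⟨g, hg, rfl⟩ := hx
      exact Eg g hg
    | zero => exact map_zero _
    | add x y _ _ h1 h2 => rw [map_add, h1, h2]
    | smul r x _ h1 => rw [map_smul, h1]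
  obtain ⟨A', hA'⟩ : ∃ A', A' = A.filter (fun f => N v f = m) := ⟨_, rfl⟩
  have hsub : ∀ f ∈ A', f ∈ A ∧ N v f = m := by
    intro f hf'
    rw [hA', Finset.mem_filter] at hf'
    exact hf'
  rw [← hA'] at hE hehm
  have hPA : PA v A' := ⟨fun e he => hA.fac e (hsub e he).1, fun e he => hA.ne e (hsub e he).1,
    fun e he f hf' hne' => hA.orth e (hsub e he).1 f (hsub f hf').1 hne', by rw [← hE, E1]⟩
  obtain ⟨k, hk⟩ : ∃ k, k = A'.card := ⟨_, rfl⟩
  have hk1 : 1 ≤ k := by
    rw [hk]
    exact Finset.card_pos.mpr ⟨eh, hehm⟩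
  by_cases hk2 : 2 ≤ k
  · right
    by_cases hm3 : 3 ≤ m
    · left
      refine ⟨m, k, hm3, hk2, ?_, ?_⟩
      · rw [← N_one hinj, ← E1, hE]
        have h1 := (sum_fac (v := v) (A := A') hPA.fac hPA.orth hni).2
        rw [h1, Finset.prod_congr rfl (fun e he => (hsub e he).2), Finset.prod_const, ← hk]
      · intro c
        have h1 : N v (1 - eh) = m ^ (k - 1) := by
          have h2 : 1 - eh = ∑ f ∈ A'.erase eh, f := by
            rw [← E1, hE, ← Finset.add_sum_erase A' (fun f => f) hehm]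
            abel
          rw [h2]
          have h3 := (sum_fac (v := v) (A := A'.erase eh)
            (fun e he => hA.fac e (hsub e (Finset.mem_of_mem_erase he)).1)
            (fun e he f hf' hne' => hA.orth e (hsub e (Finset.mem_of_mem_erase he)).1 f
              (hsub f (Finset.mem_of_mem_erase hf')).1 hne') hni).2
          rw [h3, Finset.prod_congr rfl (fun e he => (hsub e (Finset.mem_of_mem_erase he)).2),
            Finset.prod_const, Finset.card_erase_of_mem hehm, ← hk]
        rw [← h1]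
        exact count_dvd hinj (hA.fac eh hm) h eeh c
    · right
      refine antipode hPA i₀ h0 fun e he => ?_
      rw [(hsub e he).2]
      omega
  · left
    have hk3 : A'.card = 1 := by omega
    obtain ⟨f, hf'⟩ := Finset.card_eq_one.mp hk3
    have hfe : f = eh := by
      rw [hf', Finset.mem_singleton] at hehm
      exact hehm.symm
    have h1 : eh = 1 := by
      rw [← E1, hE, hf', Finset.sum_singleton, hfe]
    intro ρ hρ
    have h2 := hA.atom eh hm ρ hρ
    rw [h1, mul_one] at h2
    exact h2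

end

section

variable {ι : Type*} [Fintype ι] [DecidableEq ι]

/-- Block C, with the antipode. -/
theorem comb' (Φ : Submodule ℚ (ι → ℚ)) (one : (fun _ => (1 : ℚ)) ∈ Φ) (sep : Sep Φ)
    (S : Set (Equiv.Perm ι)) (hS : ∀ σ ∈ S, ∀ f : ι → ℚ, f ∈ Φ ↔ f ∘ σ ∈ Φ)
    (h : ι → ℚ) (hh : h ∈ Φ) (two : ∀ i, h i = 1/2 ∨ h i = -(1/2)) (nc : ∃ i j, h i ≠ h j)
    (w : ι → ℚ)
    (hw : w ∈ Submodule.span ℚ ({(fun _ => (1 : ℚ)), h} ∪ {c | IsChi Φ h c}))
    (gen : Φ ≤ Submodule.span ℚ ({(fun _ => (1 : ℚ))} ∪ {f | ∃ σ ∈ S, f = w ∘ σ})) :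
    Indec Φ ∨ (∃ m k : ℕ, 3 ≤ m ∧ 2 ≤ k ∧ Fintype.card ι = m ^ k ∧
      m ^ (k - 1) ∣ (univ.filter fun i => h i = 1/2).card) ∨
      ∃ bar : ι → ι, ∀ f ∈ Φ, ∀ i j, f i + f (bar i) = f j + f (bar j) := by
  classical
  obtain ⟨fg, hfg, inj⟩ := exists_generic Φ sep
  obtain ⟨ia, ja, hab⟩ := nc
  obtain ⟨i₀, -, hi₀⟩ := Finset.exists_min_image (univ : Finset ι) fg ⟨ia, Finset.mem_univ _⟩
  have hsub : ∀ x ∈ Submodule.span ℚ ({(fun _ => (1 : ℚ)), h} ∪ {c | IsChi Φ h c}), x ∈ Φ := by
    intro x hx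
    refine Submodule.span_le.mpr ?_ hx
    rintro x ((hx | hx) | hx)
    · rw [hx]; exact one
    · rw [Set.mem_singleton_iff] at hx
      rw [hx]; exact hh
    · exact hx.1
  have hwΦ : w ∈ Φ := hsub w hw
  have hval0 : ∀ i, ev Φ i₀ i (norm0 Φ one i₀ h hh) = h i - h i₀ := fun _ => rfl
  have key := main_comb' (v := ev Φ i₀) (i₀ := i₀) ?_ ?_ ?_ (norm0 Φ one i₀ fg hfg) ?_
    {g | ∃ σ ∈ S, ∀ (i : ι) (x : Bsub Φ i₀), ev Φ i₀ i (g x) = ev Φ i₀ (σ i) x - ev Φ i₀ (σ i₀) x}
    ?_ (norm0 Φ one i₀ h hh) ?_ (-(1/2) - h i₀) ?_ (norm0 Φ one i₀ w hwΦ) ?_ ?_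
  · rcases key with key | ⟨m, k, hm, hk, hcard, hdvd⟩ | ⟨bar, hbar⟩
    · left
      intro op hop
      -- the factor
      let π : Module.End ℚ (Bsub Φ i₀) :=
        { toFun := fun x => norm0 Φ one i₀ (fun i => (x : ι → ℚ) (op i i₀))
            (hop.mem _ _ (mem_Bsub.mp x.2).1)
          map_add' := by
            intro x y
            apply Subtype.ext
            ext i
            simp [norm0]
            ring
          map_smul' := by
            intro r x
            apply Subtype.ext
            ext i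
            simp [norm0]
            ring }
      have hπ : ∀ (x : Bsub Φ i₀) i, (π x : ι → ℚ) i = (x : ι → ℚ) (op i i₀) := by
        intro x i
        have h1 : (x : ι → ℚ) i₀ = 0 := (mem_Bsub.mp x.2).2
        show (x : ι → ℚ) (op i i₀) - (x : ι → ℚ) (op i₀ i₀) = _
        rw [hop.self, h1, sub_zero]
      have fπ : Fac (ev Φ i₀) π := by
        refine ⟨?_, fun i j => ⟨op i j, fun x => ?_⟩⟩
        · refine LinearMap.ext fun x => Subtype.ext (funext fun i => ?_)
          rw [Module.End.mul_apply, hπ, hπ, hop.left]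
          rw [hπ]
        · rw [ev_apply, ev_apply, ev_apply, ev_apply, hπ, hπ]
          exact hop.diff _ (mem_Bsub.mp x.2).1 i j i₀
      rcases key π fπ with h0 | h1
      · right
        intro i j
        apply sep
        intro f hf
        have h2 := hop.diff f hf i j i₀
        have h3 := LinearMap.congr_fun h0 (norm0 Φ one i₀ f hf)
        have h4 : ∀ i, f (op i i₀) - f i₀ = 0 := by
          intro i
          have h5 : (π (norm0 Φ one i₀ f hf) : ι → ℚ) i = 0 := by rw [h3]; rfl
          rw [hπ] at h5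
          exact h5
        have h5 := h4 i
        have h6 := h4 j
        linarith
      · left
        intro i j
        apply sep
        intro f hf
        have h2 := hop.diff f hf i j i₀
        have h3 := LinearMap.congr_fun h1 (norm0 Φ one i₀ f hf)
        have h4 : ∀ i, f (op i i₀) - f i₀ = f i - f i₀ := by
          intro i
          have h5 : (π (norm0 Φ one i₀ f hf) : ι → ℚ) i = f i - f i₀ := by rw [h3]; rfl
          rw [hπ] at h5
          exact h5
        have h5 := h4 i
        have h6 := h4 j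
        linarith
    · right; left
      refine ⟨m, k, hm, hk, hcard, ?_⟩
      have h1 := hdvd (1/2 - h i₀)
      have h2 : (univ.filter fun i => h i = 1/2) =
          (univ.filter fun i => ev Φ i₀ i (norm0 Φ one i₀ h hh) = 1/2 - h i₀) := by
        ext i
        rw [Finset.mem_filter, Finset.mem_filter, hval0]
        constructor
        · rintro ⟨-, h2⟩; exact ⟨Finset.mem_univ _, by rw [h2]⟩
        · rintro ⟨-, h2⟩; exact ⟨Finset.mem_univ _, by linarith⟩
      rw [h2]
      exact h1
    · right; right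
      refine ⟨bar, fun f hf i j => ?_⟩
      have h1 := hbar i j (norm0 Φ one i₀ f hf)
      simp only [ev_apply, norm0] at h1
      linarith
  · -- injective
    intro i j hij
    apply sep
    intro f hf
    have h1 := LinearMap.congr_fun hij (norm0 Φ one i₀ f hf)
    simp only [ev_apply, norm0] at h1
    linarith
  · intro x hx
    exact Subtype.ext (funext hx)
  · refine LinearMap.ext fun x => ?_
    exact (mem_Bsub.mp x.2).2
  · intro i hi
    show 0 < fg i - fg i₀
    have h1 := hi₀ i (Finset.mem_univ _)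
    have h2 : fg i ≠ fg i₀ := fun h => hi (inj h)
    have h3 : fg i₀ < fg i := lt_of_le_of_ne h1 (Ne.symm h2)
    linarith
  · rintro g ⟨σ, -, hσ⟩
    exact ⟨σ, hσ⟩
  · intro h0
    apply hab
    have h1 : ∀ i, h i - h i₀ = 0 := by
      intro i
      rw [← hval0, h0]
      rfl
    have h2 := h1 ia
    have h3 := h1 ja
    linarith
  · intro i
    rw [hval0]
    rcases two i with h1 | h1
    · right; rw [h1]; ring
    · left; rw [h1]
  · -- w in the span
    have key2 : ∀ x (hx : x ∈ Submodule.span ℚ ({(fun _ => (1 : ℚ)), h} ∪ {c | IsChi Φ h c}))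
        (hxΦ : x ∈ Φ), norm0 Φ one i₀ x hxΦ ∈ Submodule.span ℚ ({norm0 Φ one i₀ h hh} ∪
          {c | ∃ α κ, Chi (ev Φ i₀) (norm0 Φ one i₀ h hh) c α κ}) := by
      intro x hx
      induction hx using Submodule.span_induction with
      | mem x hx =>
        intro hxΦ
        rcases hx with (hx | hx) | hx
        · have : norm0 Φ one i₀ x hxΦ = 0 := by
            apply Subtype.ext
            ext i
            show x i - x i₀ = 0
            rw [hx]
            simp
          rw [this]
          exact Submodule.zero_mem _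
        · rw [Set.mem_singleton_iff] at hx
          subst hx
          exact Submodule.subset_span (Or.inl rfl)
        · exact Submodule.subset_span (Or.inr (chi_bridge Φ one i₀ h hh two x hx))
      | zero =>
        intro hxΦ
        have : norm0 Φ one i₀ 0 hxΦ = 0 := by
          apply Subtype.ext
          ext i
          simp [norm0]
        rw [this]
        exact Submodule.zero_mem _
      | add x y hx hy h1 h2 =>
        intro hxΦ
        have : norm0 Φ one i₀ (x + y) hxΦ = norm0 Φ one i₀ x (hsub x hx) +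
            norm0 Φ one i₀ y (hsub y hy) := by
          apply Subtype.ext
          ext i
          simp [norm0]
          ring
        rw [this]
        exact Submodule.add_mem _ (h1 _) (h2 _)
      | smul r x hx h1 =>
        intro hxΦ
        have : norm0 Φ one i₀ (r • x) hxΦ = r • norm0 Φ one i₀ x (hsub x hx) := by
          apply Subtype.ext
          ext i
          simp [norm0]
          ring
        rw [this]
        exact Submodule.smul_mem _ _ (h1 _)
    exact key2 w hw hwΦ
  · -- generation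
    intro x
    have hx : (x : ι → ℚ) ∈ Submodule.span ℚ
        ({(fun _ => (1 : ℚ))} ∪ {f | ∃ σ ∈ S, f = w ∘ σ}) := gen (mem_Bsub.mp x.2).1
    have hx2 : normL i₀ (x : ι → ℚ) ∈ Submodule.map (Bsub Φ i₀).subtype
        (Submodule.span ℚ {y : Bsub Φ i₀ | ∃ g ∈ {g : Bsub Φ i₀ ≃ₗ[ℚ] Bsub Φ i₀ | ∃ σ ∈ S,
          ∀ (i : ι) (x : Bsub Φ i₀), ev Φ i₀ i (g x) = ev Φ i₀ (σ i) x - ev Φ i₀ (σ i₀) x},
          y = g (norm0 Φ one i₀ w hwΦ)}) := by
      have hmap := Submodule.mem_map_of_mem (f := normL i₀) hx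
      rw [Submodule.map_span] at hmap
      refine Submodule.span_le.mpr ?_ hmap
      rintro _ ⟨f, hf, rfl⟩
      rcases hf with hf | ⟨σ, hσ, rfl⟩
      · rw [Set.mem_singleton_iff] at hf
        subst hf
        have : normL i₀ (fun _ => (1 : ℚ)) = 0 := by
          ext i
          simp [normL]
        rw [this]
        exact Submodule.zero_mem _
      · obtain ⟨g, hg⟩ := exists_g Φ one i₀ σ (hS σ hσ)
        refine ⟨g (norm0 Φ one i₀ w hwΦ), Submodule.subset_span ⟨g, ⟨σ, hσ, hg⟩, rfl⟩, ?_⟩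
        ext i
        have h1 := hg i (norm0 Φ one i₀ w hwΦ)
        simp only [ev_apply, norm0] at h1
        show ((g (norm0 Φ one i₀ w hwΦ) : Bsub Φ i₀) : ι → ℚ) i = w (σ i) - w (σ i₀)
        rw [show norm0 Φ one i₀ w hwΦ = ⟨fun i => w i - w i₀, _⟩ from rfl, h1]
        ring
    have hx3 : normL i₀ (x : ι → ℚ) = (x : ι → ℚ) := by
      ext i
      show (x : ι → ℚ) i - (x : ι → ℚ) i₀ = _
      rw [(mem_Bsub.mp x.2).2, sub_zero]
    rw [hx3] at hx2
    obtain ⟨y, hy, hyx⟩ := hx2
    have : y = x := Subtype.ext hyx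
    rw [← this]
    exact hy

end

end Pool.Agent.FT
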