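import Mathlib

/-! Frobenius tori: the finite set of weights and its decompositions. -/

set_option autoImplicit false
set_option linter.unusedSectionVars false

namespace Pool.Agent.FT

open Module Finset

section comb

variable {ι : Type*}

/-- A product decomposition of the index set, compatible with the space of functions Φ: op i j has
the first coordinate of i and the second coordinate of j. -/
structure Band (Φ : Submodule ℚ (ι → ℚ)) (op : ι → ι → ι) : Prop where
  mem : ∀ k, ∀ f ∈ Φ, (fun i => f (op i k)) ∈ Φ
  diff : ∀ f ∈ Φ, ∀ i j k, f (op i j) - f j = f (op i k) - f (op j k)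
  self : ∀ i, op i i = i
  left : ∀ i j k, op (op i j) k = op i k
  right : ∀ i j k, op i (op j k) = op i k

/-- There is no nontrivial product decomposition. -/
def Indec (Φ : Submodule ℚ (ι → ℚ)) : Prop :=
  ∀ op : ι → ι → ι, Band Φ op → (∀ i j, op i j = i) ∨ ∀ i j, op i j = j

open Classical in
/-- c is 1 at the points x + α, -1 at the points x - α, for the difference α = l - k of two points
with h l - h k = 1. -/
def IsChi (Φ : Submodule ℚ (ι → ℚ)) (h c : ι → ℚ) : Prop :=
  c ∈ Φ ∧ ∃ k l : ι, h l - h k = 1 ∧ ∀ i, c i =
    (if ∃ j, ∀ f ∈ Φ, f i - f j = f l - f k then 1 else 0) -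
      (if ∃ j, ∀ f ∈ Φ, f j - f i = f l - f k then 1 else 0)

/-- Φ separates points. -/
def Sep (Φ : Submodule ℚ (ι → ℚ)) : Prop := ∀ i j, (∀ f ∈ Φ, f i = f j) → i = j

end comb

end Pool.Agent.FT
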