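import Pool.Agent.Lib_helper48.FT.Defs

/-! Frobenius tori: the ideal generated by a minuscule element. -/

set_option autoImplicit false
set_option linter.unusedSectionVars false

namespace Pool.Agent.FTN

open Module Finset Pool.Agent.FT

section descent

variable {K : Type*} [Field K] [CharZero K] {ι : Type*} [Fintype ι] [DecidableEq ι]

/-- A rational vector in the K-span of a rational subspace lies in it. -/
theorem descent (Φ : Submodule ℚ (ι → ℚ)) (F : ι → ℚ)
    (hF : (fun i => (F i : K)) ∈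
      Submodule.span K {F' : ι → K | ∃ f ∈ Φ, F' = fun i => (f i : K)}) : F ∈ Φ := by
  by_contra hne
  obtain ⟨ℓ, hℓ, hℓΦ⟩ := Submodule.exists_dual_map_eq_bot_of_notMem hne inferInstance
  let a : ι → ℚ := fun i => ℓ (Pi.single i 1)
  have ha : ∀ f : ι → ℚ, ℓ f = ∑ i, f i * a i := by
    intro f
    conv_lhs => rw [← Finset.univ_sum_single f]
    rw [map_sum]
    apply sum_congr rfl
    intro i _
    have : (Pi.single i (f i) : ι → ℚ) = f i • Pi.single i 1 := by
      rw [← Pi.single_smul, smul_eq_mul, mul_one]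
    rw [this, map_smul, smul_eq_mul]
  have hΦ : ∀ f ∈ Φ, ∑ i, f i * a i = 0 := by
    intro f hf
    rw [← ha]
    have : ℓ f ∈ Submodule.map ℓ Φ := Submodule.mem_map_of_mem hf
    rw [hℓΦ] at this
    exact this
  have hspan : ∀ F ∈ Submodule.span K {F' : ι → K | ∃ f ∈ Φ, F' = fun i => (f i : K)},
      ∑ i, F i * (a i : K) = 0 := by
    intro F hF
    induction hF using Submodule.span_induction with
    | mem F hF =>
      obtain ⟨f, hf, rfl⟩ := hF
      have := hΦ f hf
      have h2 : ((∑ i, f i * a i : ℚ) : K) = 0 := by rw [this]; simp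
      push_cast at h2
      exact h2
    | zero => simp
    | add F G _ _ hF hG =>
      simp only [Pi.add_apply, add_mul, sum_add_distrib, hF, hG, add_zero]
    | smul c F _ hF =>
      simp only [Pi.smul_apply, smul_eq_mul, mul_assoc, ← mul_sum, hF, mul_zero]
  apply hℓ
  rw [ha]
  have := hspan _ hF
  exact_mod_cast this

/-- A functional of Φ extends to the span. -/
theorem span_diff (Φ : Submodule ℚ (ι → ℚ)) {F : ι → K}
    (hF : F ∈ Submodule.span K {F' : ι → K | ∃ f ∈ Φ, F' = fun i => (f i : K)}) {i j k l : ι}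
    (h : ∀ f ∈ Φ, f i - f j = f k - f l) : F i - F j = F k - F l := by
  induction hF using Submodule.span_induction with
  | mem F hF =>
    obtain ⟨f, hf, rfl⟩ := hF
    have := h f hf
    have h2 : ((f i - f j : ℚ) : K) = ((f k - f l : ℚ) : K) := by rw [this]
    push_cast at h2
    exact h2
  | zero => simp
  | add F G _ _ hF hG =>
    simp only [Pi.add_apply]
    linear_combination hF + hG
  | smul c F _ hF =>
    simp only [Pi.smul_apply, smul_eq_mul]
    linear_combination c * hF

/-- A function separating all differences. -/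
theorem exists_generic4 (Φ : Submodule ℚ (ι → ℚ)) :
    ∃ f ∈ Φ, ∀ i j k l, f i - f j = f k - f l → ∀ g ∈ Φ, g i - g j = g k - g l := by
  classical
  by_contra hcon
  push Not at hcon
  let p : {x : (ι × ι) × (ι × ι) // ¬ ∀ g ∈ Φ, g x.1.1 - g x.1.2 = g x.2.1 - g x.2.2} →
      Submodule ℚ Φ := fun x =>
    LinearMap.ker (((LinearMap.proj x.1.1.1 : (ι → ℚ) →ₗ[ℚ] ℚ) -
      (LinearMap.proj x.1.1.2 : (ι → ℚ) →ₗ[ℚ] ℚ) -
      ((LinearMap.proj x.1.2.1 : (ι → ℚ) →ₗ[ℚ] ℚ) -
        (LinearMap.proj x.1.2.2 : (ι → ℚ) →ₗ[ℚ] ℚ))) ∘ₗ Φ.subtype)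
  have hcov : ⋃ i, (p i : Set Φ) = Set.univ := by
    rw [Set.eq_univ_iff_forall]
    intro f
    obtain ⟨i, j, k, l, h1, g, hg, hne⟩ := hcon f f.2
    rw [Set.mem_iUnion]
    refine ⟨⟨((i, j), (k, l)), fun h => hne (h g hg)⟩, ?_⟩
    show (f : ι → ℚ) i - (f : ι → ℚ) j - ((f : ι → ℚ) k - (f : ι → ℚ) l) = 0
    rw [h1, sub_self]
  obtain ⟨x, hx⟩ := Subspace.exists_eq_top_of_iUnion_eq_univ hcov
  apply x.2
  intro g hg
  have : (⟨g, hg⟩ : Φ) ∈ p x := by rw [hx]; trivial
  have h2 : g x.1.1.1 - g x.1.1.2 - (g x.1.2.1 - g x.1.2.2) = 0 := this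
  linarith

end descent

section mat

variable {K : Type*} [Field K] [CharZero K] {ι : Type*} [Fintype ι] [DecidableEq ι]

/-- The bracket with a diagonal matrix. -/
theorem br_diag (F : ι → K) (x : Matrix ι ι K) (i j : ι) :
    (Matrix.diagonal F * x - x * Matrix.diagonal F) i j = (F i - F j) * x i j := by
  rw [Matrix.sub_apply, Matrix.diagonal_mul, Matrix.mul_diagonal]
  ring

/-- Weight parts of elements of L. -/
theorem weight_mem {Φ : Submodule ℚ (ι → ℚ)}
    (L : Submodule K (Matrix ι ι K)) (br : ∀ x ∈ L, ∀ y ∈ L, x * y - y * x ∈ L)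
    (mem : ∀ f ∈ Φ, Matrix.diagonal (fun i => (f i : K)) ∈ L) {f : ι → ℚ} (hf : f ∈ Φ)
    {x : Matrix ι ι K} (hx : x ∈ L) (t : ℚ) :
    (Matrix.of fun i j => if f i - f j = t then x i j else 0) ∈ L := by
  classical
  have key : ∀ S : Finset ℚ, (Matrix.of fun i j => (∏ s ∈ S, (((f i - f j : ℚ) : K) - (s : K))) *
      x i j) ∈ L := by
    intro S
    induction S using Finset.induction_on with
    | empty =>
      convert hx using 1
      ext i j
      simp
    | insert s S hs ih =>
      have h1 := br _ (mem f hf) _ ih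
      have h2 := L.sub_mem h1 (L.smul_mem (s : K) ih)
      convert h2 using 1
      ext i j
      rw [Matrix.sub_apply, br_diag, Matrix.smul_apply, Matrix.of_apply, Matrix.of_apply,
        Finset.prod_insert hs, smul_eq_mul]
      push_cast
      ring
  obtain ⟨S, hS⟩ : ∃ S : Finset ℚ, S = (univ.image fun p : ι × ι => f p.1 - f p.2).erase t :=
    ⟨_, rfl⟩
  have h1 := L.smul_mem (∏ s ∈ S, ((t : K) - (s : K)))⁻¹ (key S)
  convert h1 using 1
  ext i j
  rw [Matrix.smul_apply, Matrix.of_apply, Matrix.of_apply, smul_eq_mul]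
  by_cases h : f i - f j = t
  · rw [if_pos h, h]
    have hne : (∏ s ∈ S, ((t : K) - (s : K))) ≠ 0 := by
      rw [Finset.prod_ne_zero_iff]
      intro s hs
      rw [hS, Finset.mem_erase] at hs
      rw [sub_ne_zero]
      intro h2
      apply hs.1
      exact_mod_cast h2.symm
    rw [← mul_assoc, inv_mul_cancel₀ hne, one_mul]
  · rw [if_neg h]
    have h0 : (∏ s ∈ S, (((f i - f j : ℚ) : K) - (s : K))) = 0 := by
      apply Finset.prod_eq_zero (i := f i - f j)
      · rw [hS, Finset.mem_erase]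
        exact ⟨h, Finset.mem_image.mpr ⟨(i, j), Finset.mem_univ _, rfl⟩⟩
      · rw [sub_self]
    rw [h0, zero_mul, mul_zero]

open Classical in
/-- The diagonal of the bracket of two elements of opposite weight. -/
theorem diag_weight (Φ : Submodule ℚ (ι → ℚ)) (sep : Sep Φ)
    (L : Submodule K (Matrix ι ι K)) (br : ∀ x ∈ L, ∀ y ∈ L, x * y - y * x ∈ L)
    (max : ∀ F : ι → K, Matrix.diagonal F ∈ L →
      F ∈ Submodule.span K {F' : ι → K | ∃ f ∈ Φ, F' = fun i => (f i : K)})
    (h : ι → ℚ) (hh : h ∈ Φ) (two : ∀ i, h i = 1/2 ∨ h i = -(1/2))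
    {f₀ : ι → ℚ} (hf : f₀ ∈ Φ)
    (gen : ∀ i j k l, f₀ i - f₀ j = f₀ k - f₀ l → ∀ g ∈ Φ, g i - g j = g k - g l)
    (t : ℚ) {y z : Matrix ι ι K} (hy : y ∈ L) (hz : z ∈ L)
    (sy : ∀ i j, y i j ≠ 0 → f₀ i - f₀ j = t ∧ h i - h j = 1)
    (sz : ∀ i j, z i j ≠ 0 → f₀ i - f₀ j = -t) :
    (fun i => (y * z - z * y) i i) ∈
      Submodule.span K {F' : ι → K | ∃ c, IsChi Φ h c ∧ F' = fun i => (c i : K)} := by
  have inj : ∀ i j, f₀ i = f₀ j → i = j := by
    intro i j hij
    apply sep
    intro f hf'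
    have := gen i j i i (by rw [hij]) f hf'
    linarith
  -- the bracket is diagonal
  have hd : y * z - z * y = Matrix.diagonal (fun i => (y * z - z * y) i i) := by
    ext i k
    by_cases hik : i = k
    · subst hik
      rw [Matrix.diagonal_apply_eq]
    · rw [Matrix.diagonal_apply_ne _ hik, Matrix.sub_apply, Matrix.mul_apply, Matrix.mul_apply]
      have e1 : ∑ j, y i j * z j k = 0 := by
        refine Finset.sum_eq_zero fun j _ => ?_
        by_contra hne
        have h1 := (sy i j (left_ne_zero_of_mul hne)).1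
        have h2 := sz j k (right_ne_zero_of_mul hne)
        exact hik (inj i k (by linarith))
      have e2 : ∑ j, z i j * y j k = 0 := by
        refine Finset.sum_eq_zero fun j _ => ?_
        by_contra hne
        have h1 := (sy j k (right_ne_zero_of_mul hne)).1
        have h2 := sz i j (left_ne_zero_of_mul hne)
        exact hik (inj i k (by linarith))
      rw [e1, e2, sub_zero]
  have hL : Matrix.diagonal (fun i => (y * z - z * y) i i) ∈ L := by
    rw [← hd]
    exact br _ hy _ hz
  have hF := max _ hL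
  by_cases hzero : ∀ i j, y i j = 0
  · have : (fun i => (y * z - z * y) i i) = 0 := by
      have hy0 : y = 0 := by
        ext i j
        exact hzero i j
      funext i
      rw [hy0]
      simp
    rw [this]
    exact Submodule.zero_mem _
  push Not at hzero
  obtain ⟨l, k, hlk⟩ := hzero
  obtain ⟨ht, hh1⟩ := sy l k hlk
  -- pairs
  have hpair : ∀ i j, f₀ i - f₀ j = t → h i - h j = 1 := by
    intro i j hij
    rw [gen i j l k (by rw [hij, ht]) h hh]
    exact hh1
  have hhi : ∀ i j, f₀ i - f₀ j = t → h i = 1/2 ∧ h j = -(1/2) := by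
    intro i j hij
    have h1 := hpair i j hij
    rcases two i with h2 | h2 <;> rcases two j with h3 | h3 <;>
      rw [h2, h3] at h1 <;> norm_num at h1
    exact ⟨h2, h3⟩
  -- entries
  have hentry : ∀ i, (y * z - z * y) i i = (∑ j, y i j * z j i) - ∑ j, z i j * y j i := by
    intro i
    rw [Matrix.sub_apply, Matrix.mul_apply, Matrix.mul_apply]
  have htop : ∀ i j, f₀ i - f₀ j = t → (y * z - z * y) i i = y i j * z j i := by
    intro i j hij
    rw [hentry]
    have e1 : ∑ j', y i j' * z j' i = y i j * z j i := by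
      refine Finset.sum_eq_single j ?_ (fun h => absurd (Finset.mem_univ _) h)
      intro j' _ hne
      by_contra hne2
      have h1 := (sy i j' (left_ne_zero_of_mul hne2)).1
      exact hne (inj _ _ (by linarith))
    have e2 : ∑ j, z i j * y j i = 0 := by
      refine Finset.sum_eq_zero fun j' _ => ?_
      by_contra hne2
      have h1 := (sy j' i (right_ne_zero_of_mul hne2)).1
      have h2 := (hhi j' i h1).2
      have h3 := (hhi i j hij).1
      rw [h2] at h3
      norm_num at h3
    rw [e1, e2, sub_zero]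
  have hbot : ∀ i j, f₀ j - f₀ i = t → (y * z - z * y) i i = - (y j i * z i j) := by
    intro i j hij
    rw [hentry]
    have e1 : ∑ j', y i j' * z j' i = 0 := by
      refine Finset.sum_eq_zero fun j' _ => ?_
      by_contra hne2
      have h1 := (sy i j' (left_ne_zero_of_mul hne2)).1
      have h2 := (hhi i j' h1).1
      have h3 := (hhi j i hij).2
      rw [h2] at h3
      norm_num at h3
    have e2 : ∑ j', z i j' * y j' i = z i j * y j i := by
      refine Finset.sum_eq_single j ?_ (fun h => absurd (Finset.mem_univ _) h)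
      intro j' _ hne
      by_contra hne2
      have h1 := (sy j' i (right_ne_zero_of_mul hne2)).1
      exact hne (inj _ _ (by linarith))
    rw [e1, e2, zero_sub, mul_comm]
  have hnone : ∀ i, (¬ ∃ j, f₀ i - f₀ j = t) → (¬ ∃ j, f₀ j - f₀ i = t) →
      (y * z - z * y) i i = 0 := by
    intro i h1 h2
    rw [hentry]
    have e1 : ∑ j', y i j' * z j' i = 0 := by
      refine Finset.sum_eq_zero fun j' _ => ?_
      by_contra hne2
      exact h1 ⟨j', (sy i j' (left_ne_zero_of_mul hne2)).1⟩
    have e2 : ∑ j', z i j' * y j' i = 0 := by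
      refine Finset.sum_eq_zero fun j' _ => ?_
      by_contra hne2
      exact h2 ⟨j', (sy j' i (right_ne_zero_of_mul hne2)).1⟩
    rw [e1, e2, sub_zero]
  -- the constant
  obtain ⟨s, hs⟩ : ∃ s, s = (y * z - z * y) l l := ⟨_, rfl⟩
  have hs2 : ∀ i j, f₀ i - f₀ j = t → (y * z - z * y) i i = s ∧ (y * z - z * y) j j = -s := by
    intro i j hij
    have h1 : (y * z - z * y) i i - (y * z - z * y) j j =
        (y * z - z * y) l l - (y * z - z * y) k k := span_diff Φ hF (gen i j l k (by rw [hij, ht]))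
    have h2 := htop i j hij
    have h3 := hbot j i hij
    have h4 := htop l k ht
    have h5 := hbot k l ht
    rw [h2, h3, h4, h5] at h1
    have h6 : y i j * z j i = y l k * z k l := by
      have h7 : (2 : K) * (y i j * z j i) = 2 * (y l k * z k l) := by linear_combination h1
      exact mul_left_cancel₀ two_ne_zero h7
    constructor
    · rw [h2, hs, h4, h6]
    · rw [h3, hs, h4, h6]
  -- chi
  obtain ⟨c, hc⟩ : ∃ c : ι → ℚ, ∀ i, c i =
    (if ∃ j, ∀ f ∈ Φ, f i - f j = f l - f k then 1 else 0) -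
      (if ∃ j, ∀ f ∈ Φ, f j - f i = f l - f k then 1 else 0) := ⟨_, fun _ => rfl⟩
  have htop' : ∀ i, (∃ j, ∀ f ∈ Φ, f i - f j = f l - f k) ↔ ∃ j, f₀ i - f₀ j = t := by
    intro i
    constructor
    · rintro ⟨j, hj⟩
      exact ⟨j, by rw [hj f₀ hf, ht]⟩
    · rintro ⟨j, hj⟩
      exact ⟨j, gen _ _ _ _ (by rw [hj, ht])⟩
  have hbot' : ∀ i, (∃ j, ∀ f ∈ Φ, f j - f i = f l - f k) ↔ ∃ j, f₀ j - f₀ i = t := by
    intro i
    constructor
    · rintro ⟨j, hj⟩
      exact ⟨j, by rw [hj f₀ hf, ht]⟩
    · rintro ⟨j, hj⟩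
      exact ⟨j, gen _ _ _ _ (by rw [hj, ht])⟩
  have hFc : (fun i => (y * z - z * y) i i) = s • (fun i => (c i : K)) := by
    funext i
    rw [Pi.smul_apply, smul_eq_mul, hc]
    by_cases h1 : ∃ j, f₀ i - f₀ j = t
    · have h2 : ¬ ∃ j, f₀ j - f₀ i = t := by
        rintro ⟨j', hj'⟩
        obtain ⟨j, hj⟩ := h1
        have h3 := (hhi i j hj).1
        have h4 := (hhi j' i hj').2
        rw [h3] at h4
        norm_num at h4
      rw [if_pos ((htop' i).mpr h1), if_neg (fun h => h2 ((hbot' i).mp h))]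
      obtain ⟨j, hj⟩ := h1
      rw [(hs2 i j hj).1]
      push_cast
      ring
    · rw [if_neg (fun h => h1 ((htop' i).mp h))]
      by_cases h2 : ∃ j, f₀ j - f₀ i = t
      · rw [if_pos ((hbot' i).mpr h2)]
        obtain ⟨j, hj⟩ := h2
        rw [(hs2 j i hj).2]
        push_cast
        ring
      · rw [if_neg (fun h => h2 ((hbot' i).mp h)), hnone i h1 h2]
        push_cast
        ring
  rw [hFc]
  by_cases hs0 : s = 0
  · rw [hs0, zero_smul]
    exact Submodule.zero_mem _
  · apply Submodule.smul_mem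
    apply Submodule.subset_span
    refine ⟨c, ⟨?_, k, l, hh1, fun i => by rw [hc i]; congr⟩, rfl⟩
    apply descent (K := K)
    have h1 : (fun i => (c i : K)) = s⁻¹ • (fun i => (y * z - z * y) i i) := by
      rw [hFc, smul_smul, inv_mul_cancel₀ hs0, one_smul]
    rw [h1]
    exact Submodule.smul_mem _ _ hF

end mat

end Pool.Agent.FTN
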