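import Pool.Agent.Lib_helper48.FT.L2b
import Pool.Agent.Lib_helper99.FT.PS

/-! Frobenius tori: two modules with the same diagonal action are isomorphic. -/

set_option autoImplicit false
set_option linter.unusedSectionVars false

namespace Pool.Agent.FTN

open Module Finset Pool.Agent.FT

section mat

variable {K : Type*} [Field K] [CharZero K] {ι : Type*} [Fintype ι] [DecidableEq ι]

/-- The pair action. -/
def pact (st : Matrix ι ι K →ₗ[K] Matrix ι ι K) (x : Matrix ι ι K) :
    ((ι → K) × (ι → K)) →ₗ[K] ((ι → K) × (ι → K)) :=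
  LinearMap.prodMap x.mulVecLin (st x).mulVecLin

theorem pact_apply (st : Matrix ι ι K →ₗ[K] Matrix ι ι K) (x : Matrix ι ι K)
    (u : (ι → K) × (ι → K)) : pact st x u = (x.mulVec u.1, (st x).mulVec u.2) := rfl

/-- Strictly lower and upper parts. -/
theorem lower_mem {Φ : Submodule ℚ (ι → ℚ)}
    (L : Submodule K (Matrix ι ι K)) (br : ∀ x ∈ L, ∀ y ∈ L, x * y - y * x ∈ L)
    (mem : ∀ f ∈ Φ, Matrix.diagonal (fun i => (f i : K)) ∈ L) {f : ι → ℚ} (hf : f ∈ Φ)
    {x : Matrix ι ι K} (hx : x ∈ L) (q : ℚ → Prop) [DecidablePred q] :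
    (Matrix.of fun i j => if q (f i - f j) then x i j else 0) ∈ L := by
  classical
  have h1 : (Matrix.of fun i j => if q (f i - f j) then x i j else 0) =
      ∑ t ∈ (univ.image fun p : ι × ι => f p.1 - f p.2).filter q,
        (Matrix.of fun i j => if f i - f j = t then x i j else 0) := by
    ext i j
    rw [Matrix.sum_apply, Matrix.of_apply]
    simp only [Matrix.of_apply]
    by_cases hq : q (f i - f j)
    · rw [if_pos hq, Finset.sum_eq_single (f i - f j)]
      · rw [if_pos rfl]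
      · intro t _ hne
        rw [if_neg (Ne.symm hne)]
      · intro hn
        exfalso
        apply hn
        rw [Finset.mem_filter]
        exact ⟨Finset.mem_image.mpr ⟨(i, j), Finset.mem_univ _, rfl⟩, hq⟩
    · rw [if_neg hq]
      symm
      refine Finset.sum_eq_zero fun t ht => ?_
      rw [if_neg]
      intro h2
      rw [Finset.mem_filter] at ht
      rw [h2] at hq
      exact hq ht.2
  rw [h1]
  exact Submodule.sum_mem _ fun t _ => weight_mem L br mem hf hx t

theorem intertwiner (Φ : Submodule ℚ (ι → ℚ)) (sep : Sep Φ)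
    (L : Submodule K (Matrix ι ι K)) (br : ∀ x ∈ L, ∀ y ∈ L, x * y - y * x ∈ L)
    (mem : ∀ f ∈ Φ, Matrix.diagonal (fun i => (f i : K)) ∈ L)
    (irr : ∀ W : Submodule K (ι → K), (∀ x ∈ L, ∀ v ∈ W, x.mulVec v ∈ W) → W = ⊥ ∨ W = ⊤)
    {f₀ : ι → ℚ} (hf : f₀ ∈ Φ) (inj : ∀ i j, f₀ i = f₀ j → i = j)
    (st : Matrix ι ι K →ₗ[K] Matrix ι ι K)
    (hst : ∀ x ∈ L, ∀ y ∈ L, st (x * y - y * x) = st x * st y - st y * st x)
    (hdi : ∀ x ∈ L, ∀ i, (st x) i i = x i i)
    (hlo : ∀ x ∈ L, (∀ i j, x i j ≠ 0 → f₀ i < f₀ j) → ∀ i j, (st x) i j ≠ 0 → f₀ i < f₀ j)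
    (hup : ∀ x ∈ L, (∀ i j, x i j ≠ 0 → f₀ j ≤ f₀ i) → ∀ i j, (st x) i j ≠ 0 → f₀ j ≤ f₀ i)
    (hne : Nonempty ι) :
    ∃ M : (ι → K) ≃ₗ[K] (ι → K), ∀ x ∈ L, ∀ v, M (x.mulVec v) = (st x).mulVec (M v) := by
  classical
  obtain ⟨m, -, hm⟩ := Finset.exists_max_image (univ : Finset ι) f₀ ⟨hne.some, Finset.mem_univ _⟩
  have hm' : ∀ i, f₀ m ≤ f₀ i → i = m := fun i hi =>
    inj _ _ (le_antisymm (hm i (Finset.mem_univ _)) hi)
  obtain ⟨w, hw⟩ : ∃ w : (ι → K) × (ι → K), w = (Pi.single m 1, Pi.single m 1) := ⟨_, rfl⟩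
  -- the smallest stable subspace
  obtain ⟨S, hS⟩ : ∃ S : Submodule K ((ι → K) × (ι → K)), S = sInf {N | w ∈ N ∧
    ∀ y ∈ L, (∀ i j, y i j ≠ 0 → f₀ i < f₀ j) → ∀ u ∈ N, pact st y u ∈ N} := ⟨_, rfl⟩
  have hSle : ∀ N : Submodule K ((ι → K) × (ι → K)), w ∈ N →
      (∀ y ∈ L, (∀ i j, y i j ≠ 0 → f₀ i < f₀ j) → ∀ u ∈ N, pact st y u ∈ N) → S ≤ N := by
    intro N h1 h2
    rw [hS]
    exact sInf_le ⟨h1, h2⟩
  have hwS : w ∈ S := by
    rw [hS, Submodule.mem_sInf]
    rintro N ⟨h1, -⟩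
    exact h1
  have hSlo : ∀ y ∈ L, (∀ i j, y i j ≠ 0 → f₀ i < f₀ j) → ∀ u ∈ S, pact st y u ∈ S := by
    intro y hy hyl u hu
    rw [hS, Submodule.mem_sInf] at hu ⊢
    rintro N ⟨h1, h2⟩
    exact h2 y hy hyl u (hu N ⟨h1, h2⟩)
  have hbr : ∀ x ∈ L, ∀ y ∈ L, ∀ u, pact st x (pact st y u) =
      pact st y (pact st x u) + pact st (x * y - y * x) u := by
    intro x hx y hy u
    rw [pact_apply, pact_apply, pact_apply, pact_apply, pact_apply, hst x hx y hy]
    simp only [Matrix.mulVec_mulVec, Prod.mk_add_mk, Prod.mk.injEq]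
    rw [← Matrix.add_mulVec, ← Matrix.add_mulVec]
    constructor <;> congr 1 <;> abel
  have hadd : ∀ x y u, pact st (x + y) u = pact st x u + pact st y u := by
    intro x y u
    rw [pact_apply, pact_apply, pact_apply, map_add, Matrix.add_mulVec, Matrix.add_mulVec]
    rfl
  -- decomposition
  have hdec : ∀ x ∈ L, ∃ y z, x = y + z ∧ y ∈ L ∧ z ∈ L ∧ (∀ i j, y i j ≠ 0 → f₀ i < f₀ j) ∧
      (∀ i j, z i j ≠ 0 → f₀ j ≤ f₀ i) := by
    intro x hx
    refine ⟨Matrix.of fun i j => if f₀ i - f₀ j < 0 then x i j else 0,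
      Matrix.of fun i j => if ¬ (f₀ i - f₀ j < 0) then x i j else 0, ?_,
      lower_mem L br mem hf hx (fun t => t < 0), lower_mem L br mem hf hx (fun t => ¬ t < 0), ?_, ?_⟩
    · ext i j
      rw [Matrix.add_apply, Matrix.of_apply, Matrix.of_apply]
      by_cases h : f₀ i - f₀ j < 0
      · rw [if_pos h, if_neg (not_not.mpr h), add_zero]
      · rw [if_neg h, if_pos h, zero_add]
    · intro i j h
      rw [Matrix.of_apply] at h
      split_ifs at h with h1
      · linarith
      · exact absurd rfl h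
    · intro i j h
      rw [Matrix.of_apply] at h
      split_ifs at h with h1
      · exact absurd rfl h
      · push Not at h1
        linarith
  -- the upper part acts on w by a scalar
  have hupw : ∀ x ∈ L, (∀ i j, x i j ≠ 0 → f₀ j ≤ f₀ i) → pact st x w = x m m • w := by
    intro x hx hxu
    have key : ∀ y : Matrix ι ι K, (∀ i j, y i j ≠ 0 → f₀ j ≤ f₀ i) →
        y.mulVec (Pi.single m 1) = y m m • Pi.single m 1 := by
      intro y hy
      rw [Matrix.mulVec_single_one]
      funext i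
      rw [Pi.smul_apply, Matrix.col_apply, smul_eq_mul]
      by_cases him : i = m
      · subst him
        rw [Pi.single_eq_same, mul_one]
      · rw [Pi.single_eq_of_ne him, mul_zero]
        by_contra hne
        exact him (hm' i (hy i m hne))
    rw [pact_apply, hw, key x hxu, key _ (hup x hx hxu), hdi x hx m]
    rfl
  -- S is stable
  have hSst : ∀ x ∈ L, ∀ u ∈ S, pact st x u ∈ S := by
    let N' : Submodule K ((ι → K) × (ι → K)) :=
      { carrier := {u | u ∈ S ∧ ∀ x ∈ L, (∀ i j, x i j ≠ 0 → f₀ j ≤ f₀ i) → pact st x u ∈ S}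
        zero_mem' := ⟨S.zero_mem, fun x _ _ => by rw [map_zero]; exact S.zero_mem⟩
        add_mem' := by
          rintro u v ⟨h1, h2⟩ ⟨h3, h4⟩
          exact ⟨S.add_mem h1 h3, fun x hx hxu => by
            rw [map_add]; exact S.add_mem (h2 x hx hxu) (h4 x hx hxu)⟩
        smul_mem' := by
          rintro c u ⟨h1, h2⟩
          exact ⟨S.smul_mem c h1, fun x hx hxu => by
            rw [map_smul]; exact S.smul_mem c (h2 x hx hxu)⟩ }
    have hN' : S ≤ N' := by
      apply hSle
      · exact ⟨hwS, fun x hx hxu => by rw [hupw x hx hxu]; exact S.smul_mem _ hwS⟩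
      · rintro y hy hyl u ⟨h1, h2⟩
        refine ⟨hSlo y hy hyl u h1, fun x hx hxu => ?_⟩
        rw [hbr x hx y hy]
        refine S.add_mem (hSlo y hy hyl _ (h2 x hx hxu)) ?_
        obtain ⟨y', z', e, hy', hz', hl, hu⟩ := hdec _ (br x hx y hy)
        rw [e, hadd]
        exact S.add_mem (hSlo y' hy' hl u h1) (h2 z' hz' hu)
    intro x hx u hu
    obtain ⟨y', z', e, hy', hz', hl, hu'⟩ := hdec x hx
    rw [e, hadd]
    exact S.add_mem (hSlo y' hy' hl u hu) ((hN' hu).2 z' hz' hu')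
  -- S lies in H
  have hSH : ∀ u ∈ S, u.1 m = u.2 m := by
    let H : Submodule K ((ι → K) × (ι → K)) :=
      { carrier := {u | u.1 m = u.2 m}
        zero_mem' := rfl
        add_mem' := by
          intro u v h1 h2
          show u.1 m + v.1 m = u.2 m + v.2 m
          rw [show u.1 m = u.2 m from h1, show v.1 m = v.2 m from h2]
        smul_mem' := by
          intro c u h1
          show c * u.1 m = c * u.2 m
          rw [show u.1 m = u.2 m from h1] }
    have hH : S ≤ H := by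
      apply hSle
      · rw [hw]; exact rfl
      · intro y hy hyl u _
        have key : ∀ y : Matrix ι ι K, (∀ i j, y i j ≠ 0 → f₀ i < f₀ j) → ∀ v : ι → K,
            y.mulVec v m = 0 := by
          intro y hy v
          rw [Matrix.mulVec, dotProduct]
          refine Finset.sum_eq_zero fun j _ => ?_
          by_contra hne
          have h1 := hy m j (left_ne_zero_of_mul hne)
          have h2 := hm j (Finset.mem_univ _)
          linarith
        show y.mulVec u.1 m = (st y).mulVec u.2 m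
        rw [key y hyl, key _ (hlo y hy hyl)]
    intro u hu
    exact hH hu
  -- the projections
  have hsing : (Pi.single m (1 : K) : ι → K) ≠ 0 := by
    intro h
    have := congrFun h m
    rw [Pi.single_eq_same] at this
    exact one_ne_zero this
  have hfst : S.map (LinearMap.fst K (ι → K) (ι → K)) = ⊤ := by
    refine (irr _ ?_).resolve_left ?_
    · rintro x hx _ ⟨u, hu, rfl⟩
      exact ⟨pact st x u, hSst x hx u hu, rfl⟩
    · intro h
      have h1 : Pi.single m (1 : K) ∈ S.map (LinearMap.fst K (ι → K) (ι → K)) :=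
        ⟨w, hwS, by rw [hw]; rfl⟩
      rw [h, Submodule.mem_bot] at h1
      exact hsing h1
  have hker : S.comap (LinearMap.inl K (ι → K) (ι → K)) = ⊥ := by
    refine (irr _ ?_).resolve_right ?_
    · intro x hx v hv
      rw [Submodule.mem_comap] at hv ⊢
      have h1 := hSst x hx _ hv
      have h2 : pact st x (LinearMap.inl K (ι → K) (ι → K) v) =
          LinearMap.inl K (ι → K) (ι → K) (x.mulVec v) := by
        rw [pact_apply]
        show (x.mulVec v, (st x).mulVec 0) = (x.mulVec v, 0)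
        rw [Matrix.mulVec_zero]
      rw [h2] at h1
      exact h1
    · intro h
      have h1 : Pi.single m (1 : K) ∈ S.comap (LinearMap.inl K (ι → K) (ι → K)) := by
        rw [h]; trivial
      have h2 := hSH _ h1
      have h3 : (Pi.single m (1 : K) : ι → K) m = (0 : ι → K) m := h2
      rw [Pi.single_eq_same] at h3
      exact one_ne_zero h3
  obtain ⟨e1, he1⟩ : ∃ e1 : S →ₗ[K] (ι → K), ∀ u : S, e1 u = (u : (ι → K) × (ι → K)).1 :=
    ⟨(LinearMap.fst K (ι → K) (ι → K)) ∘ₗ S.subtype, fun _ => rfl⟩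
  obtain ⟨e2, he2⟩ : ∃ e2 : S →ₗ[K] (ι → K), ∀ u : S, e2 u = (u : (ι → K) × (ι → K)).2 :=
    ⟨(LinearMap.snd K (ι → K) (ι → K)) ∘ₗ S.subtype, fun _ => rfl⟩
  have s1 : Function.Surjective e1 := by
    intro v
    have : v ∈ S.map (LinearMap.fst K (ι → K) (ι → K)) := by rw [hfst]; trivial
    obtain ⟨u, hu, rfl⟩ := this
    exact ⟨⟨u, hu⟩, he1 _⟩
  have i2 : Function.Injective e2 := by
    rw [injective_iff_map_eq_zero]
    rintro ⟨u, hu⟩ h
    rw [he2] at h
    have h1 : u.1 ∈ S.comap (LinearMap.inl K (ι → K) (ι → K)) := by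
      rw [Submodule.mem_comap]
      have : LinearMap.inl K (ι → K) (ι → K) u.1 = u := Prod.ext rfl h.symm
      rw [this]
      exact hu
    rw [hker, Submodule.mem_bot] at h1
    exact Subtype.ext (Prod.ext h1 h)
  have d1 : finrank K (ι → K) ≤ finrank K S := LinearMap.finrank_le_finrank_of_surjective s1
  have d2 : finrank K S ≤ finrank K (ι → K) := LinearMap.finrank_le_finrank_of_injective i2
  have d3 : finrank K S = finrank K (ι → K) := le_antisymm d2 d1
  have i1 : Function.Injective e1 := (LinearMap.injective_iff_surjective_of_finrank_eq_finrank d3).mpr s1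
  have s2 : Function.Surjective e2 := (LinearMap.injective_iff_surjective_of_finrank_eq_finrank d3).mp i2
  let E1 : S ≃ₗ[K] (ι → K) := LinearEquiv.ofBijective e1 ⟨i1, s1⟩
  let E2 : S ≃ₗ[K] (ι → K) := LinearEquiv.ofBijective e2 ⟨i2, s2⟩
  refine ⟨E1.symm.trans E2, fun x hx v => ?_⟩
  obtain ⟨⟨u, hu⟩, rfl⟩ := E1.surjective v
  have h1 : x.mulVec (E1 ⟨u, hu⟩) = E1 ⟨pact st x u, hSst x hx u hu⟩ := by
    show x.mulVec (e1 _) = e1 _
    rw [he1, he1]
    rfl
  rw [h1, LinearEquiv.trans_apply, LinearEquiv.trans_apply, LinearEquiv.symm_apply_apply,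
    LinearEquiv.symm_apply_apply]
  show e2 _ = (st x).mulVec (e2 _)
  rw [he2, he2]
  rfl

end mat

end Pool.Agent.FTN
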