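import Pool.Agent.Lib_helper48.FT.SD

/-! Frobenius tori: self duality from the antipode. -/

set_option autoImplicit false
set_option linter.unusedSectionVars false

namespace Pool.Agent.FTN

open Module Finset Pool.Agent.FT

section mat

variable {K : Type*} [Field K] [CharZero K] {ι : Type*} [Fintype ι] [DecidableEq ι]

/-- minus the transpose with respect to bar, plus a scalar. -/
def star (bar : ι → ι) (i₀ : ι) : Matrix ι ι K →ₗ[K] Matrix ι ι K where
  toFun x := Matrix.of fun i j => - x (bar j) (bar i) +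
    (if i = j then x i₀ i₀ + x (bar i₀) (bar i₀) else 0)
  map_add' x y := by
    ext i j
    simp only [Matrix.of_apply, Matrix.add_apply]
    split_ifs <;> ring
  map_smul' c x := by
    ext i j
    simp only [Matrix.of_apply, Matrix.smul_apply, smul_eq_mul, RingHom.id_apply]
    split_ifs <;> ring

theorem star_apply (bar : ι → ι) (i₀ : ι) (x : Matrix ι ι K) (i j : ι) :
    star bar i₀ x i j = - x (bar j) (bar i) +
      (if i = j then x i₀ i₀ + x (bar i₀) (bar i₀) else 0) := rfl

theorem span_bar (Φ : Submodule ℚ (ι → ℚ)) {bar : ι → ι}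
    (hbar : ∀ f ∈ Φ, ∀ i j, f i + f (bar i) = f j + f (bar j)) {F : ι → K}
    (hF : F ∈ Submodule.span K {F' : ι → K | ∃ f ∈ Φ, F' = fun i => (f i : K)}) (i j : ι) :
    F i + F (bar i) = F j + F (bar j) := by
  induction hF using Submodule.span_induction with
  | mem F hF =>
    obtain ⟨f, hf, rfl⟩ := hF
    have := hbar f hf i j
    have h2 : ((f i + f (bar i) : ℚ) : K) = ((f j + f (bar j) : ℚ) : K) := by rw [this]
    push_cast at h2
    exact h2
  | zero => simp
  | add F G _ _ hF hG =>
    simp only [Pi.add_apply]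
    linear_combination hF + hG
  | smul c F _ hF =>
    simp only [Pi.smul_apply, smul_eq_mul]
    linear_combination c * hF

theorem exists_M (Φ : Submodule ℚ (ι → ℚ)) (sep : Sep Φ)
    (L : Submodule K (Matrix ι ι K)) (br : ∀ x ∈ L, ∀ y ∈ L, x * y - y * x ∈ L)
    (mem : ∀ f ∈ Φ, Matrix.diagonal (fun i => (f i : K)) ∈ L)
    (max : ∀ F : ι → K, Matrix.diagonal F ∈ L →
      F ∈ Submodule.span K {F' : ι → K | ∃ f ∈ Φ, F' = fun i => (f i : K)})
    (irr : ∀ W : Submodule K (ι → K), (∀ x ∈ L, ∀ v ∈ W, x.mulVec v ∈ W) → W = ⊥ ∨ W = ⊤)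
    (bar : ι → ι) (hbar : ∀ f ∈ Φ, ∀ i j, f i + f (bar i) = f j + f (bar j)) (i₀ : ι) :
    (∀ i, bar (bar i) = i) ∧ ∃ M : (ι → K) ≃ₗ[K] (ι → K), ∀ x ∈ L, ∀ v,
      M (x.mulVec v) = (star bar i₀ x).mulVec (M v) := by
  classical
  obtain ⟨f₀, hf, gen⟩ := exists_generic4 Φ
  have inj : ∀ i j, f₀ i = f₀ j → i = j := by
    intro i j hij
    apply sep
    intro f hf'
    have := gen i j i i (by rw [hij]) f hf'
    linarith
  have hinv : ∀ i, bar (bar i) = i := by
    intro i
    apply sep
    intro f hf'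
    have := hbar f hf' i (bar i)
    linarith
  refine ⟨hinv, ?_⟩
  have hdiagc : ∀ z ∈ L, ∀ i j, z i i + z (bar i) (bar i) = z j j + z (bar j) (bar j) := by
    intro z hz i j
    have h1 := lower_mem L br mem hf hz (fun t => t = 0)
    have h2 : (Matrix.of fun i j => if f₀ i - f₀ j = 0 then z i j else 0) =
        Matrix.diagonal (fun i => z i i) := by
      ext i j
      rw [Matrix.of_apply, Matrix.diagonal_apply]
      by_cases h : i = j
      · subst h
        rw [if_pos (sub_self _), if_pos rfl]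
      · rw [if_neg h, if_neg]
        intro h3
        exact h (inj _ _ (by linarith))
    rw [h2] at h1
    exact span_bar Φ hbar (max _ h1) i j
  have hbij : Function.Bijective bar :=
    ⟨fun i j h => by rw [← hinv i, h, hinv], fun i => ⟨bar i, hinv i⟩⟩
  have hcard : (Fintype.card ι : K) ≠ 0 := by
    have : 0 < Fintype.card ι := Fintype.card_pos_iff.2 ⟨i₀⟩
    exact_mod_cast this.ne'
  have hlam : ∀ x ∈ L, ∀ y ∈ L, (x * y - y * x) i₀ i₀ + (x * y - y * x) (bar i₀) (bar i₀) = 0 := by
    intro x hx y hy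
    obtain ⟨z, hz⟩ : ∃ z, z = x * y - y * x := ⟨_, rfl⟩
    rw [← hz]
    have hzL : z ∈ L := by rw [hz]; exact br x hx y hy
    have htr : z.trace = 0 := by
      rw [hz, Matrix.trace_sub, Matrix.trace_mul_comm, sub_self]
    have h1 : ∑ i, (z i i + z (bar i) (bar i)) = 0 := by
      rw [Finset.sum_add_distrib]
      have h2 : ∑ i, z (bar i) (bar i) = ∑ i, z i i := hbij.sum_comp (fun i => z i i)
      rw [h2]
      have h3 : ∑ i, z i i = 0 := htr
      rw [h3, add_zero]
    have h2 : ∑ i, (z i i + z (bar i) (bar i)) =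
        (Fintype.card ι : K) * (z i₀ i₀ + z (bar i₀) (bar i₀)) := by
      rw [Finset.sum_congr rfl (fun i _ => hdiagc z hzL i i₀), Finset.sum_const, Finset.card_univ,
        nsmul_eq_mul]
    rw [h2] at h1
    exact (mul_eq_zero.mp h1).resolve_left hcard
  have hdi : ∀ x ∈ L, ∀ i, (star bar i₀ x) i i = x i i := by
    intro x hx i
    rw [star_apply, if_pos rfl]
    have := hdiagc x hx i i₀
    linear_combination -this
  refine intertwiner Φ sep L br mem irr hf inj (star bar i₀) ?_ hdi ?_ ?_ ⟨i₀⟩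
  · intro x hx y hy
    have hprod : ∀ x y : Matrix ι ι K, ∀ i j, (x * y) (bar j) (bar i) =
        ∑ k, y (bar k) (bar i) * x (bar j) (bar k) := by
      intro x y i j
      rw [Matrix.mul_apply, ← hbij.sum_comp (fun k => x (bar j) k * y k (bar i))]
      exact Finset.sum_congr rfl fun k _ => mul_comm _ _
    have hst2 : ∀ x y : Matrix ι ι K, ∀ i j, (star bar i₀ x * star bar i₀ y) i j =
        (∑ k, x (bar k) (bar i) * y (bar j) (bar k)) -
          (y i₀ i₀ + y (bar i₀) (bar i₀)) * x (bar j) (bar i) -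
          (x i₀ i₀ + x (bar i₀) (bar i₀)) * y (bar j) (bar i) +
          (if i = j then (x i₀ i₀ + x (bar i₀) (bar i₀)) * (y i₀ i₀ + y (bar i₀) (bar i₀))
            else 0) := by
      intro x y i j
      rw [Matrix.mul_apply]
      have h1 : ∀ k, star bar i₀ x i k * star bar i₀ y k j =
          x (bar k) (bar i) * y (bar j) (bar k) -
          (if k = j then (y i₀ i₀ + y (bar i₀) (bar i₀)) * x (bar k) (bar i) else 0) -
          (if i = k then (x i₀ i₀ + x (bar i₀) (bar i₀)) * y (bar j) (bar k) else 0) +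
          (if i = k then (if k = j then
            (x i₀ i₀ + x (bar i₀) (bar i₀)) * (y i₀ i₀ + y (bar i₀) (bar i₀)) else 0) else 0) := by
        intro k
        rw [star_apply, star_apply]
        split_ifs <;> ring
      rw [Finset.sum_congr rfl (fun k _ => h1 k), Finset.sum_add_distrib, Finset.sum_sub_distrib,
        Finset.sum_sub_distrib]
      simp only [Finset.sum_ite_eq, Finset.sum_ite_eq', Finset.mem_univ, if_true]
    ext i j
    rw [star_apply, hlam x hx y hy, Matrix.sub_apply, Matrix.sub_apply, hst2, hst2, hprod, hprod]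
    by_cases hij : i = j
    · simp only [hij, if_true]
      ring
    · simp only [hij, if_false]
      ring
  · intro x hx hxl i j hne
    by_cases hij : i = j
    · subst hij
      rw [hdi x hx] at hne
      exact hxl i i hne
    · rw [star_apply, if_neg hij, add_zero] at hne
      have h1 := hxl (bar j) (bar i) (neg_ne_zero.mp hne)
      have h2 := hbar f₀ hf i j
      linarith
  · intro x hx hxl i j hne
    by_cases hij : i = j
    · subst hij
      exact le_refl _
    · rw [star_apply, if_neg hij, add_zero] at hne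
      have h1 := hxl (bar j) (bar i) (neg_ne_zero.mp hne)
      have h2 := hbar f₀ hf i j
      linarith

end mat

section lie

variable {K : Type*} [Field K] [CharZero K] {ι : Type*} [Fintype ι] [DecidableEq ι]
  {g : Type*} [LieRing g] [LieAlgebra K g]
  {U : Type*} [AddCommGroup U] [Module K U] [LieRingModule g U] [LieModule K g U]

/-- Self duality up to a twist, from the antipode. -/
theorem selfdual [LieModule.IsIrreducible K g U] (Φ : Submodule ℚ (ι → ℚ))
    (one : (fun _ => (1 : ℚ)) ∈ Φ) (sep : Sep Φ) (b : Basis ι K U)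
    (mem : ∀ f ∈ Φ, ∃ (y : g) (c : K), ∀ i, ⁅y, b i⁆ = ((f i : K) + c) • b i)
    (max : ∀ (y : g) (F : ι → K), (∀ i, ⁅y, b i⁆ = F i • b i) →
      F ∈ Submodule.span K {F' : ι → K | ∃ f ∈ Φ, F' = fun i => (f i : K)})
    (bar : ι → ι) (hbar : ∀ f ∈ Φ, ∀ i j, f i + f (bar i) = f j + f (bar j)) :
    ∃ (f : U ≃ₗ[K] Module.Dual K U) (χ : g → K), ∀ (x : g) (v : U),
      f ⁅x, v⁆ = ⁅x, f v⁆ + χ x • f v := by
  classical
  have hnt : Nontrivial U := LieModule.nontrivial_of_isIrreducible K g U
  have hne : Nonempty ι := b.index_nonempty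
  obtain ⟨i₀⟩ := hne
  have hone : (fun _ => (1 : K)) ∈
      Submodule.span K {F' : ι → K | ∃ f ∈ Φ, F' = fun i => (f i : K)} :=
    Submodule.subset_span ⟨_, one, by simp⟩
  have hmax : ∀ F : ι → K, Matrix.diagonal F ∈ matL K g b →
      F ∈ Submodule.span K {F' : ι → K | ∃ f ∈ Φ, F' = fun i => (f i : K)} := by
    intro F hF
    obtain ⟨y, c, hy⟩ := matL_diag b hF
    have h1 := max y _ hy
    have h2 := Submodule.sub_mem _ h1 (Submodule.smul_mem _ c hone)
    convert h2 using 1
    funext i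
    simp
  obtain ⟨hinv, M, hM⟩ := exists_M Φ sep (matL K g b) (matL_br b) (fun f hf => by
    obtain ⟨y, c, hy⟩ := mem f hf
    exact matL_mem b hy) hmax (Pool.Agent.FT.matL_irr (g := g) b) bar hbar i₀
  let σ : Equiv.Perm ι := ⟨bar, bar, hinv, hinv⟩
  have hσ : ∀ i, σ i = bar i := fun _ => rfl
  let f : U ≃ₗ[K] Module.Dual K U := b.equivFun ≪≫ₗ M ≪≫ₗ
    LinearEquiv.funCongrLeft K K σ ≪≫ₗ b.dualBasis.equivFun.symm
  have hf : ∀ (u : U) (j : ι), f u (b j) = M (b.equivFun u) (bar j) := by
    intro u j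
    show b.dualBasis.equivFun.symm (LinearEquiv.funCongrLeft K K σ (M (b.equivFun u))) (b j) = _
    rw [Basis.equivFun_symm_apply, LinearMap.sum_apply, Finset.sum_eq_single j]
    · rw [LinearMap.smul_apply, Basis.dualBasis_apply_self, if_pos rfl, smul_eq_mul, mul_one]
      rfl
    · intro k _ hk
      rw [LinearMap.smul_apply, Basis.dualBasis_apply_self, if_neg (Ne.symm hk), smul_zero]
    · intro hn; exact absurd (Finset.mem_univ _) hn
  refine ⟨f, fun y => LinearMap.toMatrix b b (LieModule.toEnd K g U y) i₀ i₀ +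
    LinearMap.toMatrix b b (LieModule.toEnd K g U y) (bar i₀) (bar i₀), fun y u => ?_⟩
  obtain ⟨x, hx⟩ : ∃ x, x = LinearMap.toMatrix b b (LieModule.toEnd K g U y) := ⟨_, rfl⟩
  have hxL : x ∈ matL K g b := ⟨LieModule.toEnd K g U y, ⟨y, 0, fun v => by simp⟩, hx.symm⟩
  beta_reduce
  rw [← hx]
  apply b.ext
  intro j
  rw [hf]
  have h1 : b.equivFun ⁅y, u⁆ = x.mulVec (b.equivFun u) := by
    rw [hx]
    have := LinearMap.toMatrix_mulVec_repr b b (LieModule.toEnd K g U y) u
    funext i
    have h2 := congrFun this i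
    exact h2.symm
  rw [h1, hM x hxL]
  have h2 : ∀ i, ⁅y, b i⁆ = ∑ k, x k i • b k := by
    intro i
    rw [hx]
    conv_lhs => rw [← b.sum_repr ⁅y, b i⁆]
    refine Finset.sum_congr rfl fun k _ => ?_
    rw [LinearMap.toMatrix_apply]
    rfl
  rw [LinearMap.add_apply, LinearMap.smul_apply, hf, smul_eq_mul]
  have h3 : (⁅y, f u⁆ : Module.Dual K U) (b j) = - ∑ k, x k j * M (b.equivFun u) (bar k) := by
    show - (f u ⁅y, b j⁆) = _
    rw [h2, map_sum]
    congr 1
    refine Finset.sum_congr rfl fun k _ => ?_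
    rw [map_smul, hf, smul_eq_mul]
  rw [h3]
  generalize M (b.equivFun u) = m
  show (star bar i₀ x).mulVec m (bar j) = _
  rw [Matrix.mulVec, dotProduct]
  have hbij : Function.Bijective bar :=
    ⟨fun i j h => by rw [← hinv i, h, hinv], fun i => ⟨bar i, hinv i⟩⟩
  rw [← hbij.sum_comp (fun k => star bar i₀ x (bar j) k * m k)]
  have h4 : ∀ k, star bar i₀ x (bar j) (bar k) * m (bar k) = - (x k j * m (bar k)) +
      (if j = k then (x i₀ i₀ + x (bar i₀) (bar i₀)) * m (bar k) else 0) := by
    intro k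
    rw [star_apply, hinv, hinv]
    by_cases hjk : j = k
    · subst hjk
      rw [if_pos rfl, if_pos rfl]
      ring
    · rw [if_neg (fun h => hjk (hbij.1 h)), if_neg hjk]
      ring
  rw [Finset.sum_congr rfl (fun k _ => h4 k), Finset.sum_add_distrib, Finset.sum_neg_distrib]
  simp only [Finset.sum_ite_eq, Finset.mem_univ, if_true]

end lie

end Pool.Agent.FTN
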